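import Mathlib

set_option autoImplicit false

namespace Pool.Agent.P.MP_ed39a4_al

variable {G : Type} [Group G]

/-- Word length `|g|`: the distance from `1` to `g` in the Cayley graph of `(G, S)`. -/
noncomputable def wordLength (S : Finset G) (g : G) : ℕ :=
  (SimpleGraph.mulCayley (S : Set G)).dist 1 g

/-- The Cayley graph of `(G, S)` is one-ended: the complement of every finite set of vertices
has exactly one infinite connected component. -/
def OneEnded (S : Finset G) : Prop :=
  ∀ K : Finset G, ∃! C : (SimpleGraph.mulCayley (S : Set G)).ComponentCompl (K : Set G),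
    C.supp.Infinite

/-- `g` lies in an infinite connected component of the complement of the ball
`B(n-1) = {h : |h| < n}`. -/
def InInfiniteComponent (S : Finset G) (n : ℕ) (g : G) : Prop :=
  ∃ C : (SimpleGraph.mulCayley (S : Set G)).ComponentCompl {h : G | wordLength S h < n},
    g ∈ C.supp ∧ C.supp.Infinite

/-- The vertex set of `S(n,r)^∞`. -/
def sphereInf (S : Finset G) (n r : ℕ) : Set G :=
  {g : G | n ≤ wordLength S g ∧ wordLength S g ≤ n + r ∧ InInfiniteComponent S n g}

/-- `(G, S)` has connected spheres: the connection thickness (least `r` such that `S(n,r)^∞` is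
connected) is bounded by some `R` for all `n`. -/
def ConnectedSpheres (S : Finset G) : Prop :=
  ∃ R : ℕ, ∀ n : ℕ, ∃ r ≤ R,
    ((SimpleGraph.mulCayley (S : Set G)).induce (sphereInf S n r)).Preconnected

end Pool.Agent.P.MP_ed39a4_al
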