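import Mathlib
import Pool.Agent.P.MP_ed39a4_al.Defs

set_option autoImplicit false

namespace Pool.Agent.P.MP_ed39a4_al

open SimpleGraph

variable {G : Type} [Group G]

/-- products of at most `n` letters of `S` or inverses -/
def Ball (S : Set G) (n : ℕ) : Set G :=
  {g | ∃ l : List G, l.length ≤ n ∧ (∀ x ∈ l, x ∈ S ∨ x⁻¹ ∈ S) ∧ l.prod = g}

theorem one_mem_ball (S : Set G) (n : ℕ) : (1 : G) ∈ Ball S n :=
  ⟨[], by simp, by simp, by simp⟩

theorem ball_mono {S : Set G} {m n : ℕ} (h : m ≤ n) {g : G} (hg : g ∈ Ball S m) :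
    g ∈ Ball S n := by
  obtain ⟨l, h1, h2, h3⟩ := hg
  exact ⟨l, h1.trans h, h2, h3⟩

theorem mul_mem_ball {S : Set G} {m n : ℕ} {g h : G} (hg : g ∈ Ball S m) (hh : h ∈ Ball S n) :
    g * h ∈ Ball S (m + n) := by
  obtain ⟨l, h1, h2, rfl⟩ := hg
  obtain ⟨l', h1', h2', rfl⟩ := hh
  refine ⟨l ++ l', by simp; omega, ?_, by simp⟩
  intro x hx
  rcases List.mem_append.1 hx with h | h
  · exact h2 x h
  · exact h2' x h

theorem letter_mem_ball {S : Set G} {x : G} (hx : x ∈ S ∨ x⁻¹ ∈ S) : x ∈ Ball S 1 :=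
  ⟨[x], by simp, by simpa using hx, by simp⟩

theorem inv_mem_ball {S : Set G} {n : ℕ} {g : G} (hg : g ∈ Ball S n) : g⁻¹ ∈ Ball S n := by
  obtain ⟨l, h1, h2, rfl⟩ := hg
  refine ⟨(l.map (fun x => x⁻¹)).reverse, by simpa using h1, ?_, ?_⟩
  · intro x hx
    simp only [List.mem_reverse, List.mem_map] at hx
    obtain ⟨y, hy, rfl⟩ := hx
    rcases h2 y hy with h | h
    · right; simpa using h
    · left; exact h
  · rw [List.prod_inv_reverse]

theorem ball_zero {S : Set G} {g : G} (hg : g ∈ Ball S 0) : g = 1 := by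
  obtain ⟨l, h1, _, rfl⟩ := hg
  have : l = [] := List.length_eq_zero_iff.1 (by omega)
  simp [this]

/-- peel off the last letter -/
theorem ball_succ {S : Set G} {n : ℕ} {g : G} (hg : g ∈ Ball S (n + 1)) :
    g ∈ Ball S n ∨ ∃ g' ∈ Ball S n, ∃ x, (x ∈ S ∨ x⁻¹ ∈ S) ∧ g = g' * x := by
  obtain ⟨l, h1, h2, rfl⟩ := hg
  rcases List.eq_nil_or_concat l with rfl | ⟨l', x, rfl⟩
  · left; simpa using one_mem_ball S n
  · right
    refine ⟨l'.prod, ⟨l', by simp at h1; omega, fun y hy => h2 y (by simp [hy]), rfl⟩, x,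
      h2 x (by simp), by simp⟩

/-- peel off the first letter -/
theorem ball_succ' {S : Set G} {n : ℕ} {g : G} (hg : g ∈ Ball S (n + 1)) :
    g ∈ Ball S n ∨ ∃ g' ∈ Ball S n, ∃ x, (x ∈ S ∨ x⁻¹ ∈ S) ∧ g = x * g' := by
  obtain ⟨l, h1, h2, rfl⟩ := hg
  cases l with
  | nil => left; simpa using one_mem_ball S n
  | cons x l' =>
    right
    refine ⟨l'.prod, ⟨l', by simp at h1; omega, fun y hy => h2 y (by simp [hy]), rfl⟩, x,
      h2 x (by simp), by simp⟩

theorem exists_ball {S : Set G} {g : G} (hg : g ∈ Subgroup.closure S) : ∃ n, g ∈ Ball S n := by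
  induction hg using Subgroup.closure_induction with
  | mem x hx => exact ⟨1, letter_mem_ball (Or.inl hx)⟩
  | one => exact ⟨0, one_mem_ball S 0⟩
  | mul x y _ _ hx hy =>
    obtain ⟨m, hm⟩ := hx
    obtain ⟨n, hn⟩ := hy
    exact ⟨m + n, mul_mem_ball hm hn⟩
  | inv x _ hx =>
    obtain ⟨m, hm⟩ := hx
    exact ⟨m, inv_mem_ball hm⟩

theorem finite_subset_ball {S : Set G} (hS : Subgroup.closure S = ⊤) {T : Set G}
    (hT : T.Finite) : ∃ n, ∀ g ∈ T, g ∈ Ball S n := by
  have h : ∀ g : G, ∃ n, g ∈ Ball S n := fun g => exists_ball (by rw [hS]; trivial)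
  choose f hf using h
  obtain ⟨n, hn⟩ := (hT.image f).bddAbove
  exact ⟨n, fun g hg => ball_mono (hn ⟨g, hg, rfl⟩) (hf g)⟩

theorem ball_finite {S : Set G} (hS : S.Finite) (n : ℕ) : (Ball S n).Finite := by
  induction n with
  | zero => exact (Set.finite_singleton 1).subset (fun g hg => ball_zero hg)
  | succ n ih =>
    have h2 : (S ∪ S⁻¹).Finite := hS.union hS.inv
    refine (ih.union (ih.image2 (· * ·) h2)).subset ?_
    intro g hg
    rcases ball_succ hg with h | ⟨g', h, x, hx, rfl⟩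
    · left; exact h
    · right; exact ⟨g', h, x, by simpa using hx, rfl⟩

theorem ball_comp {S T : Set G} {C : ℕ} (h : ∀ s ∈ S, s ∈ Ball T C) {n : ℕ} {g : G}
    (hg : g ∈ Ball S n) : g ∈ Ball T (C * n) := by
  induction n generalizing g with
  | zero => rw [ball_zero hg]; exact one_mem_ball _ _
  | succ n ih =>
    rcases ball_succ hg with h1 | ⟨g', h1, x, hx, rfl⟩
    · exact ball_mono (by nlinarith) (ih h1)
    · have hx' : x ∈ Ball T C := by
        rcases hx with hx | hx
        · exact h x hx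
        · simpa using inv_mem_ball (h _ hx)
      exact ball_mono (by ring_nf; omega) (mul_mem_ball (ih h1) hx')

theorem map_mem_ball {G' : Type} [Group G'] (f : G →* G') {S : Set G} {S' : Set G'}
    (h : ∀ s ∈ S, f s ∈ S') {n : ℕ} {g : G} (hg : g ∈ Ball S n) : f g ∈ Ball S' n := by
  induction n generalizing g with
  | zero => rw [ball_zero hg, map_one]; exact one_mem_ball _ _
  | succ n ih =>
    rcases ball_succ hg with h1 | ⟨g', h1, x, hx, rfl⟩
    · exact ball_mono (by omega) (ih h1)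
    · rw [map_mul]
      refine mul_mem_ball (ih h1) (letter_mem_ball ?_)
      rcases hx with hx | hx
      · left; exact h x hx
      · right; rw [← map_inv]; exact h _ hx

theorem exists_lift_ball {G' : Type} [Group G'] (f : G →* G') {S : Set G} {S' : Set G'}
    (h : ∀ s ∈ S', ∃ s0 ∈ S, f s0 = s) {n : ℕ} {g : G'} (hg : g ∈ Ball S' n) :
    ∃ w ∈ Ball S n, f w = g := by
  induction n generalizing g with
  | zero => exact ⟨1, one_mem_ball _ _, by rw [ball_zero hg, map_one]⟩
  | succ n ih =>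
    rcases ball_succ hg with h1 | ⟨g', h1, x, hx, rfl⟩
    · obtain ⟨w, hw, rfl⟩ := ih h1
      exact ⟨w, ball_mono (by omega) hw, rfl⟩
    · obtain ⟨w, hw, rfl⟩ := ih h1
      rcases hx with hx | hx
      · obtain ⟨s, hs, rfl⟩ := h x hx
        exact ⟨w * s, mul_mem_ball hw (letter_mem_ball (Or.inl hs)), by simp⟩
      · obtain ⟨s, hs, hs2⟩ := h _ hx
        exact ⟨w * s⁻¹, mul_mem_ball hw (letter_mem_ball (Or.inr (by simpa using hs))),
          by simp [hs2]⟩

theorem walk_mem_ball {S : Set G} {u v : G} (p : (mulCayley S).Walk u v) :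
    u⁻¹ * v ∈ Ball S p.length := by
  induction p with
  | nil => simpa using one_mem_ball S 0
  | @cons u w v h p ih =>
    rw [mulCayley_adj] at h
    have h1 : u⁻¹ * w ∈ Ball S 1 := letter_mem_ball (by simpa using h.2)
    have := mul_mem_ball h1 ih
    rw [Walk.length_cons, add_comm]
    simpa [mul_assoc] using this

theorem exists_walk_of_ball {S : Set G} {n : ℕ} {g : G} (hg : g ∈ Ball S n) :
    ∃ p : (mulCayley S).Walk 1 g, p.length ≤ n := by
  induction n generalizing g with
  | zero => rw [ball_zero hg]; exact ⟨Walk.nil, le_rfl⟩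
  | succ n ih =>
    rcases ball_succ hg with h1 | ⟨g', h1, x, hx, rfl⟩
    · obtain ⟨p, hp⟩ := ih h1
      exact ⟨p, by omega⟩
    · obtain ⟨p, hp⟩ := ih h1
      by_cases hx1 : g' = g' * x
      · rw [← hx1]; exact ⟨p, by omega⟩
      · have hadj : (mulCayley S).Adj g' (g' * x) := by
          rw [mulCayley_adj]
          exact ⟨hx1, by simpa using hx⟩
        exact ⟨p.concat hadj, by simp; omega⟩

theorem wordLength_le_iff {S : Finset G} (hS : Subgroup.closure (S : Set G) = ⊤) {n : ℕ}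
    {g : G} : wordLength S g ≤ n ↔ g ∈ Ball (S : Set G) n := by
  unfold wordLength
  constructor
  · intro h
    obtain ⟨m, hm⟩ := exists_ball (S := (S : Set G)) (g := g) (by rw [hS]; trivial)
    obtain ⟨p, _⟩ := exists_walk_of_ball hm
    obtain ⟨q, hq⟩ := p.reachable.exists_walk_length_eq_dist
    have := walk_mem_ball q
    rw [hq] at this
    exact ball_mono h (by simpa using this)
  · intro h
    obtain ⟨p, hp⟩ := exists_walk_of_ball h
    exact (dist_le p).trans hp

/-- connected outside `K` -/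
def Conn (S K : Set G) (u v : G) : Prop :=
  u ∉ K ∧ Relation.ReflTransGen (fun x y => y ∉ K ∧ (x⁻¹ * y ∈ S ∨ y⁻¹ * x ∈ S)) u v

theorem Conn.refl {S K : Set G} {u : G} (h : u ∉ K) : Conn S K u u := ⟨h, .refl⟩

theorem Conn.left {S K : Set G} {u v : G} (h : Conn S K u v) : u ∉ K := h.1

theorem Conn.right {S K : Set G} {u v : G} (h : Conn S K u v) : v ∉ K := by
  obtain ⟨h1, h2⟩ := h
  induction h2 with
  | refl => exact h1
  | tail _ h _ => exact h.1

theorem Conn.trans {S K : Set G} {u v w : G} (h : Conn S K u v) (h' : Conn S K v w) :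
    Conn S K u w := ⟨h.1, h.2.trans h'.2⟩

theorem Conn.step {S K : Set G} {u x : G} (hu : u ∉ K) (hv : u * x ∉ K)
    (hx : x ∈ S ∨ x⁻¹ ∈ S) : Conn S K u (u * x) :=
  ⟨hu, .single ⟨hv, by simpa using hx⟩⟩

theorem Conn.symm {S K : Set G} {u v : G} (h : Conn S K u v) : Conn S K v u := by
  obtain ⟨h1, h2⟩ := h
  induction h2 with
  | refl => exact Conn.refl h1
  | @tail x y _ h ih => exact ⟨h.1, .head ⟨ih.1, h.2.symm⟩ ih.2⟩

theorem Conn.mono {S K K' : Set G} (hK : K ⊆ K') {u v : G} (h : Conn S K' u v) :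
    Conn S K u v := by
  obtain ⟨h1, h2⟩ := h
  refine ⟨fun hu => h1 (hK hu), ?_⟩
  induction h2 with
  | refl => exact .refl
  | tail _ hxy ih => exact ih.tail ⟨fun hy => hxy.1 (hK hy), hxy.2⟩

theorem Conn.comp_eq {S K : Set G} {u v : G} (h : Conn S K u v) :
    (mulCayley S).componentComplMk h.left = (mulCayley S).componentComplMk h.right := by
  obtain ⟨h1, h2⟩ := h
  induction h2 with
  | refl => rfl
  | @tail x y hx h ih =>
    rw [ih]
    by_cases hxy : x = y
    · subst hxy; rfl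
    · exact componentComplMk_eq_of_adj _ _ _ ((mulCayley_adj _ _ _).2 ⟨hxy, h.2⟩)

/-- moving by a short word far from a ball -/
theorem conn_of_far {S : Set G} {n q : ℕ} {u x : G} (hu : u ∉ Ball S (n + q))
    (hx : x ∈ Ball S q) : Conn S (Ball S n) u (u * x) := by
  induction q generalizing x with
  | zero => rw [ball_zero hx, mul_one]; exact Conn.refl hu
  | succ q ih =>
    have hu' : u ∉ Ball S (n + q) := fun h => hu (ball_mono (by omega) h)
    rcases ball_succ hx with h1 | ⟨g', h1, y, hy, rfl⟩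
    · exact ih hu' h1
    · have h2 := ih hu' h1
      rw [← mul_assoc]
      refine h2.trans (Conn.step h2.right ?_ hy)
      intro h3
      apply hu
      have := mul_mem_ball h3 (inv_mem_ball hx)
      simpa [mul_assoc] using this

end Pool.Agent.P.MP_ed39a4_al
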