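import Mathlib
import Pool.Agent.P.MP_ed39a4_al.Defs

set_option autoImplicit false

namespace Pool.Agent.P.MP_ed39a4_al

variable {G : Type} [Group G]

/-- `g` is a dead-end: no neighbour `h` of `g` in the Cayley graph has `|h| = |g| + 1`. -/
def DeadEnd (S : Finset G) (g : G) : Prop :=
  ¬ ∃ h : G, (SimpleGraph.mulCayley (S : Set G)).Adj g h ∧ wordLength S h = wordLength S g + 1

/-- `(G, S)` has bounded retreat depth: there is `D` such that every dead-end `g` has retreat
depth at most `D`, i.e. for some `d ≤ D` the element `g` lies in an infinite component of the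
complement of `B(|g| - d - 1) = {h : |h| < |g| - d}`. -/
def BoundedRetreatDepth (S : Finset G) : Prop :=
  ∃ D : ℕ, ∀ g : G, DeadEnd S g → ∃ d ≤ D, InInfiniteComponent S (wordLength S g - d) g

end Pool.Agent.P.MP_ed39a4_al
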