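import Mathlib
import Pool.Agent.P.MP_ed39a4_al.Ball

set_option autoImplicit false

namespace Pool.Agent.P.MP_ed39a4_al

open SimpleGraph

variable {G : Type} [Group G]

/-- `g` moves the ball off itself -/
def Far (S : Set G) (n : ℕ) (g : G) : Prop := ∀ k ∈ Ball S n, g * k ∉ Ball S n

theorem Far.inv {S : Set G} {n : ℕ} {g : G} (h : Far S n g) : Far S n g⁻¹ := by
  intro k hk hk2
  exact h _ hk2 (by simpa using hk)

theorem Far.notMem {S : Set G} {n : ℕ} {g : G} (h : Far S n g) : g ∉ Ball S n := by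
  simpa using h 1 (one_mem_ball S n)

theorem far_of_notMem {S : Set G} {n : ℕ} {g : G} (h : g ∉ Ball S (n + n)) : Far S n g := by
  intro k hk hk2
  apply h
  simpa using mul_mem_ball hk2 (inv_mem_ball hk)

theorem Far.conn_ball {S : Set G} {n : ℕ} {g : G} (h : Far S n g) :
    ∀ m ≤ n, ∀ k ∈ Ball S m, Conn S (Ball S n) g (g * k) := by
  intro m
  induction m with
  | zero => intro _ k hk; rw [ball_zero hk, mul_one]; exact Conn.refl h.notMem
  | succ m ih =>
    intro hm k hk
    rcases ball_succ hk with h1 | ⟨k', h1, x, hx, rfl⟩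
    · exact ih (by omega) k h1
    · have h2 := ih (by omega) k' h1
      rw [← mul_assoc]
      refine h2.trans (Conn.step h2.right ?_ hx)
      rw [mul_assoc]
      exact h _ (ball_mono hm hk)

theorem Far.pingpong {S : Set G} {n : ℕ} {g : G} (h : Far S n g) :
    ∀ m, ∀ x ∈ Ball S m, ¬ Conn S (Ball S n) x g⁻¹ → Conn S (Ball S n) g (g * x) := by
  intro m
  induction m with
  | zero => intro x hx _; rw [ball_zero hx, mul_one]; exact Conn.refl h.notMem
  | succ m ih =>
    intro x hx hc
    by_cases hxK : x ∈ Ball S n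
    · exact h.conn_ball n le_rfl x hxK
    rcases ball_succ hx with h1 | ⟨x', h1, y, hy, rfl⟩
    · exact ih x h1 hc
    · have h2 : ¬ Conn S (Ball S n) x' g⁻¹ := by
        intro h3
        exact hc ((Conn.step h3.left hxK hy).symm.trans h3)
      have h3 := ih x' h1 h2
      rw [← mul_assoc]
      refine h3.trans (Conn.step h3.right ?_ hy)
      intro h4
      apply hc
      have := h.inv.conn_ball n le_rfl _ h4
      simpa [mul_assoc] using this.symm

theorem Far.pingpong' {S : Set G} (hS : Subgroup.closure S = ⊤) {n : ℕ} {g : G}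
    (h : Far S n g) (x : G) (hc : ¬ Conn S (Ball S n) x g⁻¹) : Conn S (Ball S n) g (g * x) := by
  obtain ⟨m, hm⟩ := exists_ball (S := S) (g := x) (by rw [hS]; trivial)
  exact h.pingpong m x hm hc

theorem Far.conn_inv {S : Set G} (hS : Subgroup.closure S = ⊤) {n : ℕ} {g : G}
    (h : Far S n g) (hg : IsOfFinOrder g) : Conn S (Ball S n) g g⁻¹ := by
  by_contra hc
  have h1 : ∀ j : ℕ, Conn S (Ball S n) g (g ^ (j + 1)) := by
    intro j
    induction j with
    | zero => simpa using Conn.refl h.notMem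
    | succ j ih =>
      rw [pow_succ']
      exact h.pingpong' hS _ (fun h2 => hc (ih.trans h2))
  obtain ⟨k, hk, hk1⟩ := isOfFinOrder_iff_pow_eq_one.1 hg
  obtain ⟨j, rfl⟩ : ∃ j, k = j + 1 := ⟨k - 1, by omega⟩
  have := (h1 j).right
  rw [hk1] at this
  exact this (one_mem_ball S n)

theorem Far.conn_torsion {S : Set G} (hS : Subgroup.closure S = ⊤) {n : ℕ} {g h : G}
    (hg : Far S n g) (hh : Far S n h) (og : IsOfFinOrder g) (oh : IsOfFinOrder h)
    (ogh : IsOfFinOrder (g * h)) : Conn S (Ball S n) g h := by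
  by_contra hc
  have cg := hg.conn_inv hS og
  have ch := hh.conn_inv hS oh
  have hfar : Far S n (g * h) := by
    intro k hk
    have h1 := hh.conn_ball n le_rfl k hk
    have h2 : ¬ Conn S (Ball S n) (h * k) g⁻¹ := fun h3 => hc ((h1.trans h3).trans cg.symm).symm
    have := (hg.pingpong' hS _ h2).right
    rwa [mul_assoc]
  have c1 : Conn S (Ball S n) g (g * h) :=
    hg.pingpong' hS _ (fun h3 => hc (h3.trans cg.symm).symm)
  have c2 : Conn S (Ball S n) h⁻¹ (h⁻¹ * g⁻¹) :=
    hh.inv.pingpong' hS _ (fun h3 => hc (cg.trans (by simpa using h3)))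
  have c3 := hfar.conn_inv hS ogh
  rw [mul_inv_rev] at c3
  exact hc (((c1.trans c3).trans c2.symm).trans ch.symm)

section hom
variable {p : G → ℤ} (hp : ∀ x y, p (x * y) = p x + p y)
include hp

theorem p_one : p 1 = 0 := by
  have := hp 1 1
  rw [mul_one] at this
  omega

theorem p_inv (x : G) : p x⁻¹ = - p x := by
  have := hp x x⁻¹
  rw [mul_inv_cancel, p_one hp] at this
  omega

theorem p_zpow (x : G) (k : ℤ) : p (x ^ k) = k * p x := by
  induction k using Int.induction_on with
  | zero => simp [p_one hp]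
  | succ k ih => rw [zpow_add_one, hp, ih]; ring
  | pred k ih => rw [zpow_sub_one, hp, ih, p_inv hp]; ring

theorem p_ball {S : Set G} {C : ℕ} (hC : ∀ s ∈ S, |p s| ≤ C) {n : ℕ} {g : G}
    (hg : g ∈ Ball S n) : |p g| ≤ C * n := by
  induction n generalizing g with
  | zero => rw [ball_zero hg, p_one hp]; simp
  | succ n ih =>
    rcases ball_succ hg with h1 | ⟨g', h1, x, hx, rfl⟩
    · have := ih h1
      push_cast
      nlinarith [Int.natCast_nonneg C]
    · have h2 := ih h1
      have h3 : |p x| ≤ C := by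
        rcases hx with hx | hx
        · exact hC x hx
        · have := hC _ hx
          rwa [p_inv hp, abs_neg] at this
      rw [hp]
      have := abs_add_le (p g') (p x)
      push_cast
      nlinarith

end hom

/-- moving along a line all of whose relevant points are far away -/
theorem conn_line {S : Set G} {n C : ℕ} {t : G} (ht : t ∈ Ball S C) (u : G) (k : ℕ)
    (h : ∀ j < k, u * t ^ j ∉ Ball S (n + C)) (hu : u ∉ Ball S n) :
    Conn S (Ball S n) u (u * t ^ k) := by
  induction k with
  | zero => simpa using Conn.refl hu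
  | succ k ih =>
    have h1 := ih (fun j hj => h j (by omega))
    rw [pow_succ, ← mul_assoc]
    exact h1.trans (conn_of_far (h k (by omega)) ht)

theorem conn_half {S : Set G} {n C : ℕ} {a t : G} (ha : a ∈ Ball S C) (ht : t ∈ Ball S C)
    {p : G → ℤ} (hp : ∀ x y, p (x * y) = p x + p y) (hpa : p a = 0) (hpt : p t = 1) {J : ℤ}
    (hJ : ∀ u, J < p u → u ∉ Ball S (n + C)) (u : G) (hu : J < p u) (k : ℕ) :
    Conn S (Ball S n) u (u * (t ^ k * a * (t ^ k)⁻¹)) := by
  have hpow : ∀ j : ℕ, p (t ^ j) = j := by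
    intro j
    have := p_zpow hp t j
    rw [zpow_natCast, hpt] at this
    omega
  have hline : ∀ v, J < p v → Conn S (Ball S n) v (v * t ^ k) := by
    intro v hv
    refine conn_line ht v k (fun j _ => hJ _ ?_) (fun h => hJ v hv (ball_mono (by omega) h))
    rw [hp, hpow]; omega
  have h1 := hline u hu
  have h2 : Conn S (Ball S n) (u * t ^ k) (u * t ^ k * a) :=
    conn_of_far (hJ _ (by rw [hp, hpow]; omega)) ha
  have h3 := hline (u * (t ^ k * a * (t ^ k)⁻¹)) (by
    rw [hp, hp, hp, p_inv hp, hpa]; omega)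
  have h4 : u * (t ^ k * a * (t ^ k)⁻¹) * t ^ k = u * t ^ k * a := by group
  rw [h4] at h3
  exact (h1.trans h2).trans h3.symm

theorem exists_base {S : Set G} (hfin : S.Finite) (hS : Subgroup.closure S = ⊤) (a t : G)
    {p : G → ℤ} (hp : ∀ x y, p (x * y) = p x + p y) (hpa : p a = 0) (hpt : p t = 1)
    (htor : ∀ g, p g = 0 → IsOfFinOrder g)
    (hinj : Function.Injective (fun k : ℤ => t ^ k * a * (t ^ k)⁻¹)) (n : ℕ) :
    ∃ x0 : G, ∃ E : Set G, E.Finite ∧ ∀ g ∉ E, Conn S (Ball S n) x0 g := by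
  obtain ⟨C, hC⟩ := finite_subset_ball hS (T := {a, t}) (by simp)
  have ha : a ∈ Ball S C := hC a (by simp)
  have ht : t ∈ Ball S C := hC t (by simp)
  obtain ⟨C', hC'⟩ : ∃ C' : ℕ, ∀ s ∈ S, |p s| ≤ C' := by
    obtain ⟨b, hb⟩ := (hfin.image (fun s => (p s).natAbs)).bddAbove
    refine ⟨b, fun s hs => ?_⟩
    have := hb ⟨s, hs, rfl⟩
    simp only at this
    rw [Int.abs_eq_natAbs]; exact_mod_cast this
  set J : ℤ := C' * ((n + C : ℕ) : ℤ) with hJ
  have hJ1 : ∀ u, J < |p u| → u ∉ Ball S (n + C) := by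
    intro u hu h
    have := p_ball hp hC' h
    omega
  -- bad elements of the kernel
  set y : G → G := fun u => u * t ^ (- p u) with hy
  have hpy : ∀ u, p (y u) = 0 := by
    intro u; simp only [hy]; rw [hp, p_zpow hp, hpt]; ring
  set E1 : Set G := y '' Ball S (n + C) ∪ Ball S (n + n) with hE1
  have hE1f : E1.Finite := ((ball_finite hfin _).image _).union (ball_finite hfin _)
  have hline : ∀ u, y u ∉ E1 → Conn S (Ball S n) (y u) u ∧ Far S n (y u) := by
    intro u hu
    have hfar : Far S n (y u) := far_of_notMem (fun h => hu (Or.inr h))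
    refine ⟨?_, hfar⟩
    have hj : ∀ j : ℤ, y u * t ^ j ∉ Ball S (n + C) := by
      intro j h
      apply hu
      left
      refine ⟨_, h, ?_⟩
      simp only [hy]
      rw [hp, hp, p_zpow hp, p_zpow hp, hpt]
      group
    have hu2 : u = y u * t ^ (p u) := by simp only [hy]; group
    rcases Int.eq_nat_or_neg (p u) with ⟨k, hk | hk⟩
    · have := conn_line ht (y u) k (fun j _ => by simpa using hj j) hfar.notMem
      rwa [← zpow_natCast, ← hk, ← hu2] at this
    · have := conn_line (inv_mem_ball ht) (y u) k (fun j _ => by simpa using hj (-j))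
        hfar.notMem
      rwa [inv_pow, ← zpow_natCast, ← zpow_neg, ← hk, ← hu2] at this
  -- every element with large height is connected to a good element
  have hgood : ∀ u, J < |p u| → ∃ v, y v ∉ E1 ∧ Conn S (Ball S n) u v := by
    intro u hu
    have key : ∀ ε : ℤ, (ε = 1 ∨ ε = -1) → (∀ k : ℕ, Conn S (Ball S n) u
        (u * (t ^ (ε * k) * a * (t ^ (ε * k))⁻¹))) → ∃ v, y v ∉ E1 ∧ Conn S (Ball S n) u v := by
      intro ε hε h
      have hi : Function.Injective
          (fun k : ℕ => y (u * (t ^ (ε * k) * a * (t ^ (ε * k))⁻¹))) := by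
        intro k l hkl
        simp only [hy] at hkl
        rw [hp, hp, hp, hp, hp, hp, p_inv hp, p_inv hp, hpa] at hkl
        have e1 : p u + (p (t ^ (ε * k)) + 0 + -p (t ^ (ε * k))) = p u := by ring
        have e2 : p u + (p (t ^ (ε * l)) + 0 + -p (t ^ (ε * l))) = p u := by ring
        rw [e1, e2] at hkl
        have := hinj (mul_left_cancel (mul_right_cancel hkl))
        rcases hε with rfl | rfl <;> omega
      obtain ⟨_, ⟨k, rfl⟩, hk⟩ := (Set.infinite_range_of_injective hi).exists_notMem_finite hE1f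
      exact ⟨_, hk, h k⟩
    rcases lt_abs.1 hu with h | h
    · refine key 1 (Or.inl rfl) (fun k => ?_)
      have := conn_half ha ht hp hpa hpt (J := J)
        (fun v hv => hJ1 v (lt_abs.2 (Or.inl hv))) u h k
      simpa using this
    · refine key (-1) (Or.inr rfl) (fun k => ?_)
      have := conn_half (p := fun x => - p x) ha (inv_mem_ball ht)
        (fun x y => by rw [hp]; ring) (by simp [hpa]) (by simp [p_inv hp, hpt]) (J := J)
        (fun v hv => hJ1 v (lt_abs.2 (Or.inr hv))) u h k
      simpa using this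
  obtain ⟨v0, hv0, _⟩ := hgood (t ^ (J + 1)) (by
    rw [p_zpow hp, hpt]; exact lt_abs.2 (Or.inl (by omega)))
  have hall : ∀ v, y v ∉ E1 → Conn S (Ball S n) (y v0) v := by
    intro v hv
    have h1 := hline v hv
    have h2 := hline v0 hv0
    exact (h2.2.conn_torsion hS h1.2 (htor _ (hpy _)) (htor _ (hpy _))
      (htor _ (by rw [hp, hpy, hpy]; rfl))).trans h1.1
  refine ⟨y v0, Set.image2 (fun e (j : ℤ) => e * t ^ j) E1 (Set.Icc (-J) J),
    hE1f.image2 _ (Set.finite_Icc _ _), fun g hg => ?_⟩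
  by_cases h1 : y g ∈ E1
  · have h2 : J < |p g| := by
      by_contra h3
      apply hg
      refine ⟨y g, h1, p g, abs_le.1 (not_lt.1 h3), ?_⟩
      simp only [hy]; group
    obtain ⟨v, hv, hc⟩ := hgood g h2
    exact (hall v hv).trans hc.symm
  · exact hall g h1

theorem oneEnded_of {S : Finset G} (hS : Subgroup.closure (S : Set G) = ⊤) (a t : G)
    {p : G → ℤ} (hp : ∀ x y, p (x * y) = p x + p y) (hpa : p a = 0) (hpt : p t = 1)
    (htor : ∀ g, p g = 0 → IsOfFinOrder g)
    (hinj : Function.Injective (fun k : ℤ => t ^ k * a * (t ^ k)⁻¹)) : OneEnded S := by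
  intro K
  obtain ⟨n, hn⟩ := finite_subset_ball hS K.finite_toSet
  obtain ⟨x0, E, hE, hall⟩ := exists_base S.finite_toSet hS a t hp hpa hpt htor hinj n
  have : Infinite G := Infinite.of_injective _ hinj
  have hall' : ∀ g ∉ E, Conn (S : Set G) (K : Set G) x0 g := fun g hg => (hall g hg).mono hn
  obtain ⟨g0, hg0⟩ := hE.infinite_compl.nonempty
  have hx0 : x0 ∉ (K : Set G) := (hall' g0 hg0).left
  refine ⟨(mulCayley (S : Set G)).componentComplMk hx0, ?_, ?_⟩
  · refine hE.infinite_compl.mono (fun g hg => ?_)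
    exact ⟨(hall' g hg).right, (hall' g hg).comp_eq.symm⟩
  · intro C hC
    obtain ⟨g, ⟨hgK, rfl⟩, hg⟩ := hC.exists_notMem_finite hE
    exact (hall' g hg).comp_eq.symm

end Pool.Agent.P.MP_ed39a4_al
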