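import Mathlib
import Pool.Agent.P.MP_ed39a4_al.Ball
import Pool.Agent.P.MP_ed39a4_al.Ends

set_option autoImplicit false

namespace Pool.Agent.P.MP_ed39a4_al.RD

open Pool.Agent.P.MP_ed39a4_al

abbrev F := ZMod 2

theorem F_cases (x : F) : x = 0 ∨ x = 1 := by revert x; decide

theorem F_add_self (x : F) : x + x = 0 := by revert x; decide

theorem F_neg (x : F) : -x = x := by revert x; decide

theorem F_mul_self (x : F) : x * x = x := by revert x; decide

/-- lamps `u`, central part `τ`, cursor `p` -/
@[ext]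
structure W (d : ℤ → F) where
  u : ℤ → F
  τ : ℤ → ℤ → F
  p : ℤ

variable {d : ℤ → F}

instance : Mul (W d) :=
  ⟨fun a b => ⟨fun x => a.u x + b.u (x - a.p),
    fun x z => a.τ x z + b.τ (x - a.p) (z - a.p) + d (z - x) * a.u z * b.u (x - a.p),
    a.p + b.p⟩⟩

instance : One (W d) := ⟨⟨fun _ => 0, fun _ _ => 0, 0⟩⟩

instance : Inv (W d) :=
  ⟨fun a => ⟨fun x => - a.u (x + a.p),
    fun x z => - a.τ (x + a.p) (z + a.p) + d (z - x) * a.u (z + a.p) * a.u (x + a.p), - a.p⟩⟩

@[simp] theorem mul_u (a b : W d) (x : ℤ) : (a * b).u x = a.u x + b.u (x - a.p) := rfl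
@[simp] theorem mul_τ (a b : W d) (x z : ℤ) : (a * b).τ x z =
    a.τ x z + b.τ (x - a.p) (z - a.p) + d (z - x) * a.u z * b.u (x - a.p) := rfl
@[simp] theorem mul_p (a b : W d) : (a * b).p = a.p + b.p := rfl
@[simp] theorem one_u (x : ℤ) : (1 : W d).u x = 0 := rfl
@[simp] theorem one_τ (x z : ℤ) : (1 : W d).τ x z = 0 := rfl
@[simp] theorem one_p : (1 : W d).p = 0 := rfl
@[simp] theorem inv_u (a : W d) (x : ℤ) : (a⁻¹).u x = - a.u (x + a.p) := rfl
@[simp] theorem inv_τ (a : W d) (x z : ℤ) : (a⁻¹).τ x z =
    - a.τ (x + a.p) (z + a.p) + d (z - x) * a.u (z + a.p) * a.u (x + a.p) := rfl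
@[simp] theorem inv_p (a : W d) : (a⁻¹).p = - a.p := rfl

instance : Group (W d) :=
  Group.ofLeftAxioms
    (fun a b c => by
      ext x z
      · simp only [mul_u, mul_p, sub_add_eq_sub_sub]; ring
      · simp only [mul_u, mul_τ, mul_p, sub_add_eq_sub_sub, sub_sub_sub_cancel_right]; ring
      · simp only [mul_p]; ring)
    (fun a => by
      ext x z
      · simp
      · simp
      · simp)
    (fun a => by
      ext x z
      · simp only [mul_u, inv_u, inv_p, one_u, sub_neg_eq_add]; ring
      · simp only [mul_τ, inv_u, inv_τ, inv_p, one_τ, sub_neg_eq_add]; ring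
      · simp)

/-- the lamp generator -/
def ga (d : ℤ → F) : W d := ⟨fun x => if x = 0 then 1 else 0, fun _ _ => 0, 0⟩

/-- the shift by `j` -/
def sh (d : ℤ → F) (j : ℤ) : W d := ⟨fun _ => 0, fun _ _ => 0, j⟩

@[simp] theorem sh_u (j x : ℤ) : (sh d j).u x = 0 := rfl
@[simp] theorem sh_τ (j x z : ℤ) : (sh d j).τ x z = 0 := rfl
@[simp] theorem sh_p (j : ℤ) : (sh d j).p = j := rfl
@[simp] theorem ga_u (x : ℤ) : (ga d).u x = if x = 0 then 1 else 0 := rfl
@[simp] theorem ga_τ (x z : ℤ) : (ga d).τ x z = 0 := rfl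
@[simp] theorem ga_p : (ga d).p = 0 := rfl

theorem sh_add (i j : ℤ) : sh d (i + j) = sh d i * sh d j := by
  ext x z <;> simp

theorem sh_zero : sh d 0 = 1 := rfl

theorem sh_inv (i : ℤ) : (sh d i)⁻¹ = sh d (-i) := by
  ext x z <;> simp

theorem sh_zpow (k : ℤ) : (sh d 1) ^ k = sh d k := by
  induction k using Int.induction_on with
  | zero => simp [sh_zero]
  | succ k ih => rw [zpow_add_one, ih, ← sh_add]
  | pred k ih => rw [zpow_sub_one, ih, sh_inv, ← sh_add]; rfl

/-- the standard generators -/
def std (d : ℤ → F) : Set (W d) := {ga d, sh d 1}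

theorem sh_mem_ball {S : Set (W d)} {c : ℕ} (ht : sh d 1 ∈ Ball S c) (n : ℕ) (j : ℤ)
    (hj : |j| ≤ n) : sh d j ∈ Ball S (c * n) := by
  have key : ∀ m : ℕ, sh d m ∈ Ball S (c * m) := by
    intro m
    induction m with
    | zero => simpa [sh_zero] using one_mem_ball S 0
    | succ m ih =>
      have := mul_mem_ball ih ht
      rw [← sh_add] at this
      simpa [mul_add] using this
  obtain ⟨m, rfl | rfl⟩ := Int.eq_nat_or_neg j
  · refine ball_mono (Nat.mul_le_mul_left c ?_) (key m)
    simpa using hj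
  · rw [← sh_inv]
    refine inv_mem_ball (ball_mono (Nat.mul_le_mul_left c ?_) (key m))
    simpa using hj

theorem sh_mem_std (n : ℕ) (j : ℤ) (hj : |j| ≤ n) : sh d j ∈ Ball (std d) n := by
  have := sh_mem_ball (S := std d) (c := 1) (letter_mem_ball (Or.inl (by simp [std]))) n j hj
  simpa using this

theorem ga_mem_std : ga d ∈ Ball (std d) 1 := letter_mem_ball (Or.inl (by simp [std]))

/-- support within radius `c` -/
def Small (c : ℕ) (y : W d) : Prop :=
  |y.p| ≤ c ∧ (∀ x, y.u x ≠ 0 → |x| ≤ c) ∧
    (∀ x z, y.τ x z ≠ 0 → |x| ≤ c ∧ |z| ≤ c ∧ d (z - x) ≠ 0)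

theorem small_of_ball (hd0 : ∀ n ≤ 0, d n = 0) {n : ℕ} {y : W d} (hy : y ∈ Ball (std d) n) :
    Small n y := by
  induction n generalizing y with
  | zero => rw [ball_zero hy]; simp [Small]
  | succ n ih =>
    have mono : ∀ y : W d, Small n y → Small (n + 1) y := by
      rintro y ⟨h1, h2, h3⟩
      refine ⟨by push_cast; omega, fun x hx => ?_, fun x z hx => ?_⟩
      · have := h2 x hx; push_cast; omega
      · have := h3 x z hx; push_cast; refine ⟨by omega, by omega, this.2.2⟩
    rcases ball_succ hy with h1 | ⟨g', h1, x, hx, rfl⟩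
    · exact mono _ (ih h1)
    · obtain ⟨h2, h3, h4⟩ := mono _ (ih h1)
      have h2' := (ih h1).1
      have hx' : x = ga d ∨ x = sh d 1 ∨ x = sh d (-1) := by
        rcases hx with hx | hx
        · simp only [std, Set.mem_insert_iff, Set.mem_singleton_iff] at hx
          tauto
        · simp only [std, Set.mem_insert_iff, Set.mem_singleton_iff] at hx
          rcases hx with hx | hx
          · left
            rw [inv_eq_iff_eq_inv] at hx
            rw [hx]
            ext x z
            · simp
            · simp only [inv_τ, ga_τ, ga_u, ga_p, add_zero, neg_zero, zero_add]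
              by_cases h1 : x = 0 <;> by_cases h2 : z = 0 <;> simp [h1, h2, hd0]
            · simp
          · right; right
            rw [inv_eq_iff_eq_inv] at hx
            rw [hx, sh_inv]
      rcases hx' with rfl | rfl | rfl
      · refine ⟨by simpa using h2, fun x hx => ?_, fun x z hx => ?_⟩
        · by_cases h5 : g'.u x = 0
          · simp [h5] at hx
            have : x = g'.p := by omega
            rw [this]; exact h2
          · exact h3 x h5
        · by_cases h5 : g'.τ x z = 0
          · simp [h5] at hx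
            have : x = g'.p := by omega
            exact ⟨by rw [this]; exact h2, h3 z hx.2.2, hx.2.1⟩
          · exact h4 x z h5
      · refine ⟨?_, by simpa using h3, by simpa using h4⟩
        simp only [mul_p, sh_p]; push_cast
        have := abs_le.1 h2'
        rw [abs_le]; omega
      · refine ⟨?_, by simpa using h3, by simpa using h4⟩
        simp only [mul_p, sh_p]; push_cast
        have := abs_le.1 h2'
        rw [abs_le]; omega

/-- the central generator -/
def cz (d : ℤ → F) (z : ℤ) : W d :=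
  ⟨fun _ => 0, fun x y => if x = 0 ∧ y = z then d z else 0, 0⟩

theorem cz_mem (hd0 : ∀ n ≤ 0, d n = 0) (z : ℕ) (hz : 0 < z) :
    cz d z ∈ Ball (std d) (4 * z + 4) := by
  have h1 : sh d z * ga d * sh d (-z) * ga d ∈ Ball (std d) (z + 1 + z + 1) :=
    mul_mem_ball (mul_mem_ball (mul_mem_ball (sh_mem_std z z (by simp)) ga_mem_std)
      (sh_mem_std z (-z) (by simp))) ga_mem_std
  have h2 := mul_mem_ball h1 h1
  have h3 : sh d z * ga d * sh d (-z) * ga d * (sh d z * ga d * sh d (-z) * ga d) = cz d z := by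
    have hz' : (z : ℤ) ≠ 0 := by omega
    have hz'' : (0 : ℤ) ≠ z := by omega
    have hdz : d (-z) = 0 := hd0 _ (by omega)
    have hd00 : d 0 = 0 := hd0 _ le_rfl
    ext x y
    · simp [cz, F_add_self]
    · simp only [cz, mul_τ, mul_u, mul_p, sh_u, sh_τ, sh_p, ga_u, ga_τ, ga_p, sub_eq_zero,
        add_zero, zero_add, mul_zero, zero_mul, add_neg_cancel, sub_zero]
      by_cases a1 : x = 0 <;> by_cases a2 : x = z <;> by_cases a3 : y = 0 <;>
        by_cases a4 : y = z <;> simp_all [F_add_self]
    · simp [cz]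
  rw [h3] at h2
  exact ball_mono (by omega) h2

/-- a central row -/
theorem row_mem (hd0 : ∀ n ≤ 0, d n = 0) (r : ℕ) (ρ : ℤ → F)
    (hρ : ∀ z, ρ z ≠ 0 → d z ≠ 0 ∧ z ≤ r) :
    (⟨fun _ => 0, fun x y => if x = 0 then ρ y else 0, 0⟩ : W d) ∈
      Ball (std d) (r * (4 * r + 4)) := by
  induction r generalizing ρ with
  | zero =>
    have : (⟨fun _ => 0, fun x y => if x = 0 then ρ y else 0, 0⟩ : W d) = 1 := by
      ext x y
      · simp
      · simp only [one_τ, ite_eq_right_iff]
        intro _
        by_contra h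
        exact (hρ y h).1 (hd0 y (by simpa using (hρ y h).2))
      · simp
    rw [this]; exact one_mem_ball _ _
  | succ r ih =>
    have h1 := ih (fun z => if z = r + 1 then 0 else ρ z) (fun z hz => by
      by_cases h : z = r + 1
      · simp [h] at hz
      · simp only [h, if_false] at hz
        have := hρ z hz
        push_cast at this
        exact ⟨this.1, by omega⟩)
    by_cases h : ρ (r + 1) = 0
    · refine ball_mono (by nlinarith) (?_ : _ ∈ Ball (std d) (r * (4 * r + 4)))
      convert h1 using 5 with x y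
      by_cases h2 : y = r + 1
      · simp [h2, h]
      · simp [h2]
    · have h2 := mul_mem_ball h1 (cz_mem hd0 (r + 1) (by omega))
      refine ball_mono (by nlinarith) (?_ : _ ∈ Ball (std d) (r * (4 * r + 4) + (4 * (r + 1) + 4)))
      convert h2 using 1
      have h3 : ρ (r + 1) = 1 := (F_cases _).resolve_left h
      have h4 : d (r + 1) = 1 := (F_cases _).resolve_left (hρ _ h).1
      ext x y
      · simp [cz]
      · simp only [cz, mul_τ]
        push_cast
        by_cases a1 : x = 0 <;> by_cases a2 : y = r + 1 <;> simp [a1, a2, h3, h4]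
      · simp [cz]

/-- cost per site -/
def KK (r : ℕ) : ℕ := 2 + r * (4 * r + 4)

theorem sweep0 (hd0 : ∀ n ≤ 0, d n = 0) (r n : ℕ) (u : ℤ → F) (τ : ℤ → ℤ → F)
    (hu : ∀ x, u x ≠ 0 → 0 ≤ x ∧ x < n)
    (hτ : ∀ x z, τ x z ≠ 0 → 0 ≤ x ∧ x < n ∧ d (z - x) ≠ 0 ∧ z - x ≤ r) :
    (⟨u, τ, n⟩ : W d) ∈ Ball (std d) (n * KK r) := by
  induction n generalizing u τ with
  | zero =>
    have : (⟨u, τ, (0 : ℕ)⟩ : W d) = 1 := by
      ext x y
      · by_contra h
        have := hu x h
        omega
      · by_contra h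
        have := hτ x y h
        omega
      · simp
    rw [this]; exact one_mem_ball _ _
  | succ n ih =>
    have h1 := ih (fun x => if x = n then 0 else u x) (fun x z => if x = n then 0 else τ x z)
      (fun x hx => by
        by_cases h : x = n
        · simp [h] at hx
        · simp only [h, if_false] at hx
          have := hu x hx
          push_cast at this
          omega)
      (fun x z hx => by
        by_cases h : x = n
        · simp [h] at hx
        · simp only [h, if_false] at hx
          have := hτ x z hx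
          push_cast at this
          refine ⟨this.1, by omega, this.2.2⟩)
    have h2 := row_mem hd0 r (fun z => τ n (z + n)) (fun z hz => by
      have := hτ _ _ hz
      simpa using this.2.2)
    have h3 : (⟨fun x => if x = 0 then u n else 0, fun _ _ => 0, 0⟩ : W d) ∈ Ball (std d) 1 := by
      rcases F_cases (u n) with h | h
      · have : (⟨fun x => if x = 0 then u n else 0, fun _ _ => 0, 0⟩ : W d) = 1 := by
          ext x y <;> simp [h]
        rw [this]; exact one_mem_ball _ _
      · rw [h]; exact ga_mem_std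
    have h4 := mul_mem_ball (mul_mem_ball (mul_mem_ball h1 h2) h3) (sh_mem_std 1 1 (by simp))
    refine ball_mono (by unfold KK; ring_nf; omega) (?_ : _ ∈ Ball (std d) (n * KK r + r * (4 * r + 4) + 1 + 1))
    convert h4 using 1
    ext x y
    · simp only [mul_u, mul_p, sh_u, add_zero, sub_eq_zero]
      by_cases a1 : x = n <;> simp [a1]
    · simp only [mul_u, mul_τ, mul_p, sh_u, sh_τ, add_zero, sub_eq_zero, mul_zero]
      by_cases a1 : x = n
      · subst a1
        by_cases a2 : y = n
        · simp [a2]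
        · by_cases a3 : u y = 0
          · simp [a3]
          · have := hu y a3
            have : d (y - n) = 0 := hd0 _ (by push_cast at this; omega)
            simp [this]
      · simp [a1]
    · simp

theorem sweep (hd0 : ∀ n ≤ 0, d n = 0) (r ρ : ℕ) (u : ℤ → F) (τ : ℤ → ℤ → F)
    (hu : ∀ x, u x ≠ 0 → |x| ≤ ρ)
    (hτ : ∀ x z, τ x z ≠ 0 → |x| ≤ ρ ∧ d (z - x) ≠ 0 ∧ z - x ≤ r) :
    (⟨u, τ, 0⟩ : W d) ∈ Ball (std d) ((2 * ρ + 1) * (KK r + 1)) := by
  have h1 := sweep0 hd0 r (2 * ρ + 1) (fun x => u (x - ρ)) (fun x z => τ (x - ρ) (z - ρ))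
    (fun x hx => by
      have := abs_le.1 (hu _ hx)
      push_cast; omega)
    (fun x z hx => by
      have := hτ _ _ hx
      have h2 := abs_le.1 this.1
      push_cast
      refine ⟨by omega, by omega, by simpa using this.2.1, by omega⟩)
  have h2 := mul_mem_ball (mul_mem_ball (sh_mem_std ρ (-ρ) (by simp)) h1)
    (sh_mem_std (ρ + 1) (-(ρ + 1)) (by rw [abs_neg]; push_cast; exact le_of_eq (abs_of_nonneg (by positivity))))
  refine ball_mono (by ring_nf; omega) (?_ : _ ∈ Ball (std d) (ρ + (2 * ρ + 1) * KK r + (ρ + 1)))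
  convert h2 using 1
  ext x y
  · simp
  · simp
  · simp; ring

end Pool.Agent.P.MP_ed39a4_al.RD
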