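import Mathlib
import Pool.Agent.P.MP_ed39a4_al.Heis

set_option autoImplicit false

namespace Pool.Agent.P.MP_ed39a4_al.RD

def Zone (γ : ℤ) (M : ℕ) (f : ℤ → F) : Prop := ∀ x, f x ≠ 0 → γ ≤ x ∧ x ≤ γ + M

theorem zone_zero (γ : ℤ) (M : ℕ) : Zone γ M (fun _ => 0) := fun _ h => absurd rfl h

theorem Zone.add {γ : ℤ} {M : ℕ} {f g : ℤ → F} (hf : Zone γ M f) (hg : Zone γ M g) :
    Zone γ M (fun x => f x + g x) := by
  intro x hx
  by_cases h : f x = 0
  · exact hg x (by simpa [h] using hx)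
  · exact hf x h

/-- states reachable after `s` alternating visits, the last one on side `θ` -/
def Rch (α β : ℤ) (M : ℕ) : ℕ → Bool → (ℤ → F) → (ℤ → F) → (ℤ → ℤ → F) → Prop
  | 0, _, U, V, T => (∀ x, U x = 0) ∧ (∀ x, V x = 0) ∧ ∀ x z, T x z = 0
  | s + 1, true, U, V, T => Zone β M V ∧ ∃ V0, Rch α β M s false U V0 T
  | s + 1, false, U, V, T => Zone α M U ∧ ∃ U0 T0, Rch α β M s true U0 V T0 ∧
      ∀ x z, T x z = T0 x z + (U x + U0 x) * V z

variable {α β : ℤ} {M : ℕ}

theorem Rch.zone {s : ℕ} {θ : Bool} {U V : ℤ → F} {T : ℤ → ℤ → F} (h : Rch α β M s θ U V T) :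
    Zone α M U ∧ Zone β M V ∧ ∀ x z, T x z ≠ 0 → α ≤ x ∧ β ≤ z := by
  induction s generalizing θ U V T with
  | zero =>
    obtain ⟨h1, h2, h3⟩ := h
    exact ⟨fun x hx => absurd (h1 x) hx, fun x hx => absurd (h2 x) hx,
      fun x z hx => absurd (h3 x z) hx⟩
  | succ s ih =>
    cases θ
    · obtain ⟨h1, U0, T0, h2, h3⟩ := h
      obtain ⟨h4, h5, h6⟩ := ih h2
      refine ⟨h1, h5, fun x z hx => ?_⟩
      by_cases h7 : T0 x z = 0
      · rw [h3, h7, zero_add] at hx
        exact ⟨((h1.add h4) x (left_ne_zero_of_mul hx)).1, (h5 z (right_ne_zero_of_mul hx)).1⟩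
      · exact h6 x z h7
    · obtain ⟨h1, V0, h2⟩ := h
      obtain ⟨h4, h5, h6⟩ := ih h2
      exact ⟨h4, h1, h6⟩

theorem Rch.succ {s : ℕ} {θ : Bool} {U V : ℤ → F} {T : ℤ → ℤ → F} (h : Rch α β M s θ U V T) :
    Rch α β M (s + 1) θ U V T := by
  induction s generalizing θ U V T with
  | zero =>
    obtain ⟨h1, h2, h3⟩ := h
    cases θ
    · exact ⟨fun x hx => absurd (h1 x) hx, U, T, ⟨h1, h2, h3⟩, by simp [h2]⟩
    · exact ⟨fun x hx => absurd (h2 x) hx, V, h1, h2, h3⟩
  | succ s ih =>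
    cases θ
    · obtain ⟨h1, U0, T0, h2, h3⟩ := h
      exact ⟨h1, U0, T0, ih h2, h3⟩
    · obtain ⟨h1, V0, h2⟩ := h
      exact ⟨h1, V0, ih h2⟩

theorem Rch.mono {s s' : ℕ} (hs : s ≤ s') {θ : Bool} {U V : ℤ → F} {T : ℤ → ℤ → F}
    (h : Rch α β M s θ U V T) : Rch α β M s' θ U V T := by
  induction hs with
  | refl => exact h
  | step _ ih => exact ih.succ

/-- matrices with `j` columns -/
def Cols (α β : ℤ) (M j : ℕ) (T : ℤ → ℤ → F) : Prop :=
  ∀ x z, T x z ≠ 0 → α ≤ x ∧ x ≤ α + M ∧ β ≤ z ∧ z < β + j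

theorem Cols.drop {j : ℕ} {T : ℤ → ℤ → F} (hT : Cols α β M (j + 1) T) :
    Cols α β M j (fun x z => if z = β + j then 0 else T x z) := by
  intro x z hx
  by_cases h : z = β + j
  · simp [h] at hx
  · simp only [h, if_false] at hx
    have := hT x z hx
    push_cast at this
    omega

theorem Cols.col {j : ℕ} {T : ℤ → ℤ → F} (hT : Cols α β M j T) (z : ℤ) :
    Zone α M (fun x => T x z) := fun x hx => ⟨(hT x z hx).1, (hT x z hx).2.1⟩

theorem zone_single {j : ℕ} (hj : j ≤ M) :
    Zone β M (fun z => if z = β + j then (1 : F) else 0) := by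
  intro z hz
  have : z = β + j := by simpa using hz
  omega

theorem covA (j : ℕ) (hj : j ≤ M + 1) (U V : ℤ → F) (T : ℤ → ℤ → F) (hU : Zone α M U)
    (hV : Zone β M V) (hT : Cols α β M j T) : Rch α β M (2 * j + 2) true U V T := by
  induction j generalizing U V T with
  | zero =>
    refine ⟨hV, fun _ => 0, hU, fun _ => 0, fun _ _ => 0, by simp [Rch], fun x z => ?_⟩
    by_contra h
    have := hT x z (by simpa using h)
    omega
  | succ j ih =>
    refine ⟨hV, fun z => if z = β + j then 1 else 0, hU, fun x => U x + T x (β + j), _,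
      ih (by omega) _ _ _ (hU.add (hT.col _)) (zone_single (by omega)) hT.drop, fun x z => ?_⟩
    by_cases h : z = β + j
    · simp only [h, if_true]; grind
    · simp [h]

theorem covB (j : ℕ) (hj : j ≤ M + 1) (V1 : ℤ → F) (hV1 : Zone β M V1) (T : ℤ → ℤ → F)
    (hT : Cols α β M j T) : ∃ U0, ∀ V, Zone β M V →
      Rch α β M (2 * j + 1) true U0 V (fun x z => T x z + U0 x * V1 z) := by
  induction j generalizing T with
  | zero =>
    refine ⟨fun _ => 0, fun V hV => ⟨hV, fun _ => 0, by simp, by simp, fun x z => ?_⟩⟩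
    by_contra h
    have := hT x z (by simpa using h)
    omega
  | succ j ih =>
    obtain ⟨U0, h1⟩ := ih (by omega) _ hT.drop
    have h2 := h1 _ (hV1.add (zone_single (j := j) (by omega)))
    refine ⟨fun x => U0 x + T x (β + j), fun V hV => ⟨hV, _, h2.zone.1.add (hT.col _), U0, _, h2,
      fun x z => ?_⟩⟩
    by_cases h : z = β + j
    · simp only [h, if_true]; grind
    · simp only [h, if_false]; grind

theorem cover (j : ℕ) (hj : j ≤ M + 1) (U V : ℤ → F) (T : ℤ → ℤ → F) (hU : Zone α M U)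
    (hV : ∀ z, V z ≠ 0 → β ≤ z ∧ z < β + j) (hT : Cols α β M j T) (θ : Bool) {s : ℕ}
    (hs : 2 * j + 2 ≤ s) : Rch α β M s θ U V T := by
  have hV' : Zone β M V := fun z hz => by
    have := hV z hz
    omega
  refine Rch.mono hs ?_
  cases θ
  · obtain ⟨U0, h1⟩ := covB (α := α) j hj V hV' (fun x z => T x z + U x * V z) (fun x z hx => by
      by_cases h : T x z = 0
      · simp only [h, zero_add] at hx
        have h1 := hU x (left_ne_zero_of_mul hx)
        have h2 := hV z (right_ne_zero_of_mul hx)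
        omega
      · exact hT x z h)
    refine ⟨hU, U0, _, h1 V hV', fun x z => ?_⟩
    grind
  · exact covA j hj U V T hU hV' hT

theorem rankP (j : ℕ) {U V : ℤ → F} {T : ℤ → ℤ → F} (h : Rch α β M (2 * j + 1) true U V T)
    (V1 : ℤ → F) : ∃ E : Finset (ℤ → F), E.card ≤ j ∧
      ∀ x, (fun z => T x z + U x * V1 z) ∈ Submodule.span F (E : Set (ℤ → F)) := by
  classical
  induction j generalizing U V T with
  | zero =>
    obtain ⟨_, V0, h1, _, h3⟩ := h
    refine ⟨∅, le_rfl, fun x => ?_⟩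
    have : (fun z => T x z + U x * V1 z) = 0 := by
      ext z; simp [h1, h3]
    rw [this]; exact Submodule.zero_mem _
  | succ j ih =>
    obtain ⟨_, V0, _, U0, T0, h1, h2⟩ := h
    obtain ⟨E, h3, h4⟩ := ih h1
    refine ⟨insert (fun z => V0 z + V1 z) E, (Finset.card_insert_le _ _).trans (by omega),
      fun x => ?_⟩
    have : (fun z => T x z + U x * V1 z) =
        (fun z => T0 x z + U0 x * V1 z) + (U x + U0 x) • (fun z => V0 z + V1 z) := by
      ext z
      simp only [h2, Pi.add_apply, Pi.smul_apply, smul_eq_mul]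
      grind
    rw [this]
    refine Submodule.add_mem _ (Submodule.span_mono (by simp) (h4 x)) (Submodule.smul_mem _ _ ?_)
    exact Submodule.subset_span (by simp)

theorem rankQ (j : ℕ) {U V : ℤ → F} {T : ℤ → ℤ → F} (h : Rch α β M (2 * j + 2) true U V T) :
    ∃ E : Finset (ℤ → F), E.card ≤ j ∧ ∀ x, T x ∈ Submodule.span F (E : Set (ℤ → F)) := by
  classical
  induction j generalizing U V T with
  | zero =>
    obtain ⟨_, V0, _, U0, T0, ⟨_, h2, h3⟩, h4⟩ := h
    refine ⟨∅, le_rfl, fun x => ?_⟩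
    have : T x = 0 := by
      ext z; simp [h2, h3, h4]
    rw [this]; exact Submodule.zero_mem _
  | succ j ih =>
    obtain ⟨_, V0, _, U0, T0, h1, h2⟩ := h
    obtain ⟨E, h3, h4⟩ := ih h1
    refine ⟨insert V0 E, (Finset.card_insert_le _ _).trans (by omega), fun x => ?_⟩
    have : T x = T0 x + (U x + U0 x) • V0 := by
      ext z
      simp only [h2, Pi.add_apply, Pi.smul_apply, smul_eq_mul]
    rw [this]
    refine Submodule.add_mem _ (Submodule.span_mono (by simp) (h4 x)) (Submodule.smul_mem _ _ ?_)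
    exact Submodule.subset_span (by simp)

theorem tri_rank (m : ℕ) (E : Finset (ℤ → F)) (y : Fin m → ℤ → F)
    (hy : ∀ i, y i ∈ Submodule.span F (E : Set (ℤ → F)))
    (h1 : ∀ i : Fin m, y i (β + i) = 1)
    (h2 : ∀ i j : Fin m, i < j → y i (β + j) = 0) : m ≤ E.card := by
  have hli : LinearIndependent F y := by
    rw [Fintype.linearIndependent_iff]
    intro g hg
    by_contra hne
    push Not at hne
    obtain ⟨i, hi, hmax⟩ := Finset.exists_max_image (Finset.univ.filter (fun i => g i ≠ 0)) id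
      (by obtain ⟨i, hi⟩ := hne; exact ⟨i, by simpa using hi⟩)
    have h3 := congrFun hg (β + i)
    rw [Finset.sum_apply, Finset.sum_eq_single i] at h3
    · simp [h1] at h3
      simp [h3] at hi
    · intro j _ hj
      rcases lt_or_gt_of_ne hj with h | h
      · simp [h2 j i h]
      · have : g j = 0 := by
          by_contra h4
          have := hmax j (by simpa using h4)
          simp only [id] at this
          omega
        simp [this]
    · simp
  have := linearIndependent_le_span_aux' y hli (E : Set (ℤ → F)) (by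
    rintro _ ⟨i, rfl⟩; exact hy i)
  simpa using this

theorem rank_lower {m s : ℕ} (hm : 1 ≤ m) {θ : Bool} {U V : ℤ → F} {T : ℤ → ℤ → F}
    (h : Rch α β M s θ U V T) (hU : ∀ i : ℕ, i < m → U (α + i) = 0)
    (hV : ∀ i : ℕ, i < m → V (β + i) = 0) (h1 : ∀ i : ℕ, i < m → T (α + i) (β + i) = 1)
    (h2 : ∀ i j : ℕ, i < j → j < m → T (α + i) (β + j) = 0) : 2 * m + 2 ≤ s := by
  by_contra hs
  obtain ⟨m, rfl⟩ : ∃ m', m = m' + 1 := ⟨m - 1, by omega⟩
  have h3 := h.mono (show s ≤ 2 * m + 2 + 1 by omega)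
  cases θ
  · obtain ⟨_, U0, T0, h4, h5⟩ := h3
    obtain ⟨E, h6, h7⟩ := rankQ m h4
    have := tri_rank (β := β) (m + 1) E (fun i => T0 (α + i)) (fun i => h7 _)
      (fun i => by
        have := h5 (α + i) (β + i)
        rw [h1 i i.2, hV i i.2] at this
        simpa using this.symm)
      (fun i j hij => by
        have := h5 (α + i) (β + j)
        rw [h2 i j hij j.2, hV j j.2] at this
        simpa using this.symm)
    omega
  · obtain ⟨_, V0, _, U0, T0, h4, h5⟩ := h3
    obtain ⟨E, h6, h7⟩ := rankP m h4 V0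
    have := tri_rank (β := β) (m + 1) E (fun i z => T0 (α + i) z + U0 (α + i) * V0 z)
      (fun i => h7 _)
      (fun i => by
        have := h5 (α + i) (β + i)
        rw [h1 i i.2, hU i i.2] at this
        simpa using this.symm)
      (fun i j hij => by
        have := h5 (α + i) (β + j)
        rw [h2 i j hij j.2, hU i i.2] at this
        simpa using this.symm)
    omega

end Pool.Agent.P.MP_ed39a4_al.RD
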