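import Mathlib
import Pool.Agent.P.MP_ed39a4_al.Heis

set_option autoImplicit false

namespace Pool.Agent.P.MP_ed39a4_al.RD

open Pool.Agent.P.MP_ed39a4_al

variable {d : ℤ → F}

/-- side: `true` is right, `false` is left -/
def sg (θ : Bool) : ℤ := if θ then 1 else -1

@[simp] theorem sg_true : sg true = 1 := rfl
@[simp] theorem sg_false : sg false = -1 := rfl
theorem sg_not (θ : Bool) : sg (!θ) = - sg θ := by cases θ <;> simp

def Letter (S : Set (W d)) (x : W d) : Prop := x ∈ S ∨ x⁻¹ ∈ S

theorem Letter.inv {S : Set (W d)} {x : W d} (h : Letter S x) : Letter S x⁻¹ := by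
  unfold Letter at *
  rw [inv_inv]; tauto

/-- words with a schedule of alternating visits to the two sides -/
inductive Sw (S : Set (W d)) (X c : ℕ) : Bool → Bool → ℕ → ℕ → W d → Prop
  | start (θ : Bool) : Sw S X c θ false 0 0 1
  | mid {θ : Bool} {s n : ℕ} {q x : W d} : Sw S X c θ false s n q → Letter S x → |q.p| ≤ X →
      Sw S X c θ false s (n + 1) (q * x)
  | enter {θ : Bool} {s n : ℕ} {q : W d} : Sw S X c (!θ) false s n q →
      |sg θ * q.p - X| ≤ c → Sw S X c θ true s n q
  | vis {θ : Bool} {s n : ℕ} {q x : W d} : Sw S X c θ true s n q → Letter S x →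
      -X ≤ sg θ * q.p → Sw S X c θ true s (n + 1) (q * x)
  | exit {θ : Bool} {s n : ℕ} {q : W d} : Sw S X c θ true s n q →
      |sg θ * q.p - X| ≤ c → Sw S X c θ false (s + 1) n q

variable {S : Set (W d)} {X c : ℕ}

theorem Sw.ball {θ b : Bool} {s n : ℕ} {q : W d} (h : Sw S X c θ b s n q) : q ∈ Ball S n := by
  induction h with
  | start θ => exact one_mem_ball _ _
  | mid _ hx _ ih => exact mul_mem_ball ih (letter_mem_ball hx)
  | enter _ _ ih => exact ih
  | vis _ hx _ ih => exact mul_mem_ball ih (letter_mem_ball hx)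
  | exit _ _ ih => exact ih

theorem abs_sg (θ : Bool) (y : ℤ) : |sg θ * y| = |y| := by cases θ <;> simp

theorem Sw.reopen {θ b : Bool} {s n : ℕ} {q : W d} (h : Sw S X c θ b s n q) (hb : b = false) :
    Sw S X c (!θ) false s n q ∨ ∃ s', Sw S X c θ true s' n q := by
  induction h with
  | start θ => exact Or.inl (Sw.start _)
  | @mid θ s n q x _ hx hp ih =>
    rcases ih rfl with h | ⟨s', h⟩
    · exact Or.inl (h.mid hx hp)
    · refine Or.inr ⟨s', h.vis hx ?_⟩
      rw [← abs_sg θ] at hp
      exact (abs_le.1 hp).1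
  | enter _ _ _ => exact absurd hb (by simp)
  | vis _ _ _ _ => exact absurd hb (by simp)
  | exit h _ _ => exact Or.inr ⟨_, h⟩

theorem exists_sw (hS : ∀ x, Letter S x → |x.p| ≤ c) (hcX : c ≤ X) {n : ℕ} {q : W d}
    (hq : q ∈ Ball S n) :
    ∃ n' ≤ n, (|q.p| ≤ X ∧ ∃ θ s, Sw S X c θ false s n' q) ∨
      ∃ θ s, X < sg θ * q.p ∧ Sw S X c θ true s n' q := by
  induction n generalizing q with
  | zero =>
    rw [ball_zero hq]
    exact ⟨0, le_rfl, Or.inl ⟨by simp, true, 0, Sw.start _⟩⟩
  | succ n ih =>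
    rcases ball_succ hq with h1 | ⟨q', h1, x, hx, rfl⟩
    · obtain ⟨n', h2, h3⟩ := ih h1
      exact ⟨n', by omega, h3⟩
    · obtain ⟨n', h2, h3⟩ := ih h1
      refine ⟨n' + 1, by omega, ?_⟩
      have hxp := abs_le.1 (hS x hx)
      rcases h3 with ⟨h3, θ, s, h4⟩ | ⟨θ, s, h3, h4⟩
      · have h5 := h4.mid hx h3
        by_cases h6 : |(q' * x).p| ≤ X
        · exact Or.inl ⟨h6, θ, s, h5⟩
        · right
          have h7 : ∃ θ', X < sg θ' * (q' * x).p := by
            rcases le_or_gt 0 (q' * x).p with h | h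
            · rw [abs_of_nonneg h] at h6
              exact ⟨true, by simp only [sg_true]; omega⟩
            · rw [abs_of_neg h] at h6
              exact ⟨false, by simp only [sg_false]; omega⟩
          obtain ⟨θ', h7⟩ := h7
          have h8 : |sg θ' * (q' * x).p - X| ≤ c := by
            have := abs_le.1 h3
            rw [abs_le]
            simp only [mul_p] at h7 ⊢
            cases θ' <;> simp only [sg_true, sg_false] at h7 ⊢ <;> omega
          have h9 : Sw S X c (!θ') false s (n' + 1) (q' * x) ∨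
              ∃ s', Sw S X c θ' true s' (n' + 1) (q' * x) := by
            by_cases h : θ = θ'
            · subst h
              exact h5.reopen rfl
            · left
              have : θ = !θ' := by cases θ <;> cases θ' <;> simp_all
              rw [← this]; exact h5
          rcases h9 with h9 | ⟨s', h9⟩
          · exact ⟨θ', s, h7, h9.enter h8⟩
          · exact ⟨θ', s', h7, h9⟩
      · have h5 := h4.vis hx (by omega)
        by_cases h6 : X < sg θ * (q' * x).p
        · exact Or.inr ⟨θ, s, h6, h5⟩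
        · left
          have h8 : |sg θ * (q' * x).p - X| ≤ c := by
            rw [abs_le]
            simp only [mul_p] at h6 ⊢
            cases θ <;> simp only [sg_true, sg_false] at h3 h6 ⊢ <;> omega
          refine ⟨?_, θ, s + 1, h5.exit h8⟩
          rw [abs_le] at h8 ⊢
          cases θ <;> simp only [sg_true, sg_false] at h3 h6 h8 ⊢ <;> omega

theorem exists_sw_mid (hS : ∀ x, Letter S x → |x.p| ≤ c) (hcX : c ≤ X) {n : ℕ} {q : W d}
    (hq : q ∈ Ball S n) (hp : q.p = 0) : ∃ n' ≤ n, ∃ θ s, Sw S X c θ false s n' q := by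
  obtain ⟨n', h1, ⟨_, h2⟩ | ⟨θ, s, h2, _⟩⟩ := exists_sw hS hcX hq
  · exact ⟨n', h1, h2⟩
  · rw [hp] at h2
    omega

theorem Sw.travel {v : ℕ} (hv : ∀ x, Letter S x → |x.p| ≤ v) (hcX : c ≤ X) {θ b : Bool}
    {s n : ℕ} {q : W d} (h : Sw S X c θ b s n q) :
    ((s : ℤ) - if b then 0 else 1) * (2 * X - 2 * c) + (X - c) - sg θ * q.p ≤ v * n ∧
      ((s : ℤ) - if b then 0 else 1) * (2 * X - 2 * c) ≤ v * n := by
  induction h with
  | start θ => simp; omega
  | @mid θ s n q x _ hx hp ih =>
    have := abs_le.1 (hv x hx)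
    simp only [mul_p, Nat.cast_add, Nat.cast_one, mul_add, mul_one]
    refine ⟨?_, by omega⟩
    cases θ <;> simp only [sg_true, sg_false] at ih ⊢ <;> omega
  | @enter θ s n q _ hp ih =>
    rw [sg_not] at ih
    have := abs_le.1 hp
    simp only [Bool.false_eq_true, if_false, if_true, sub_zero] at ih ⊢
    constructor <;> nlinarith
  | @vis θ s n q x _ hx hp ih =>
    have := abs_le.1 (hv x hx)
    simp only [mul_p, Nat.cast_add, Nat.cast_one, mul_add, mul_one, if_true] at ih ⊢
    refine ⟨?_, by omega⟩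
    cases θ <;> simp only [sg_true, sg_false] at ih ⊢ <;> omega
  | @exit θ s n q _ hp ih =>
    simpa using ih

theorem pow_p (x : W d) (i : ℕ) : (x ^ i).p = i * x.p := by
  induction i with
  | zero => simp
  | succ i ih => rw [pow_succ, mul_p, ih]; push_cast; ring

theorem Sw.move {θ : Bool} {s n : ℕ} {q x : W d} (h : Sw S X c θ false s n q) (hx : Letter S x)
    (i : ℕ) (hi : ∀ j : ℕ, j < i → |q.p + j * x.p| ≤ X) :
    Sw S X c θ false s (n + i) (q * x ^ i) := by
  induction i with
  | zero => simpa using h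
  | succ i ih =>
    rw [pow_succ, ← mul_assoc, ← add_assoc]
    refine (ih (fun j hj => hi j (by omega))).mid hx ?_
    rw [mul_p, pow_p]
    exact hi i (by omega)

theorem Sw.visit {θ : Bool} {s n : ℕ} {q : W d} (h : Sw S X c (!θ) false s n q)
    (hp : sg θ * q.p = X) : Sw S X c θ false (s + 1) n q :=
  (h.enter (by simp [hp])).exit (by simp [hp])

/-- the fast letter in direction `θ` -/
def dir (g : W d) (θ : Bool) : W d := if θ then g else g⁻¹

theorem dir_not (g : W d) (θ : Bool) : dir g (!θ) = (dir g θ)⁻¹ := by cases θ <;> simp [dir]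

theorem dir_p (g : W d) (θ : Bool) : (dir g θ).p = sg θ * g.p := by cases θ <;> simp [dir]

theorem Letter.dir {g : W d} (h : Letter S g) (θ : Bool) : Letter S (dir g θ) := by
  cases θ
  · exact h.inv
  · exact h

theorem sg_sg (θ : Bool) (y : ℤ) : sg θ * (sg θ * y) = y := by cases θ <;> simp

section fast
variable {g : W d} {v N : ℕ} (hg : Letter S g) (hgv : g.p = v) (hX : X = v * N)
include hg hgv hX

theorem Sw.go {θ θ' : Bool} {s n : ℕ} {q : W d} (h : Sw S X c θ' false s n q) (a i : ℕ)
    (hp : q.p = - sg θ * (v * a)) (ha : a ≤ N) (hi : i ≤ a + N) :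
    Sw S X c θ' false s (n + i) (q * dir g θ ^ i) := by
  refine h.move (hg.dir θ) i (fun j hj => ?_)
  rw [hp, dir_p, hgv, ← abs_sg θ, hX]
  have : sg θ * (-sg θ * (v * a) + j * (sg θ * v)) = v * (j - a) := by
    cases θ <;> simp <;> ring
  rw [this, abs_mul, abs_of_nonneg (Int.natCast_nonneg v)]
  push_cast
  refine mul_le_mul_of_nonneg_left ?_ (Int.natCast_nonneg v)
  rw [abs_le]; omega

theorem Sw.prepend {θ b : Bool} {s n : ℕ} {q : W d} (h : Sw S X c θ b s n q) :
    Sw S X c θ b (s + 1) (n + 2 * N) q := by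
  induction h with
  | start θ =>
    have h1 := (Sw.start (S := S) (X := X) (c := c) (!θ)).go hg hgv hX (θ := θ) 0 N (by simp)
      (by omega) (by omega)
    have h2 := h1.visit (by
      rw [one_mul, pow_p, dir_p, hgv, hX, mul_left_comm, sg_sg]; push_cast; ring)
    have h3 := h2.go hg hgv hX (θ := !θ) N N (by
      rw [one_mul, pow_p, dir_p, hgv, sg_not]; ring) le_rfl (by omega)
    rw [dir_not, one_mul, inv_pow, mul_inv_cancel] at h3
    convert h3 using 1
    ring
  | mid _ hx hp ih =>
    rw [Nat.add_right_comm]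
    exact ih.mid hx hp
  | enter _ hp ih => exact ih.enter hp
  | vis _ hx hp ih =>
    rw [Nat.add_right_comm]
    exact ih.vis hx hp
  | exit _ hp ih => exact ih.exit hp

theorem Sw.extend {θ' : Bool} {s n : ℕ} {q : W d} (h : Sw S X c θ' false s n q) (hp : q.p = 0)
    (θ : Bool) : Sw S X c θ false (s + 2) (n + 3 * N) (q * dir g θ ^ N) := by
  by_cases hθ : θ' = θ
  · subst hθ
    have h1 := h.go hg hgv hX (θ := !θ') 0 N (by simp [hp]) (by omega) (by omega)
    have h2 : Sw S X c (!θ') false (s + 1) (n + N) (q * dir g (!θ') ^ N) := by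
      refine Sw.visit (by simpa using h1) ?_
      rw [mul_p, hp, zero_add, pow_p, dir_p, hgv, hX, mul_left_comm, sg_sg]; push_cast; ring
    have h3 := h2.go hg hgv hX (θ := θ') N (N + N) (by
      rw [mul_p, hp, zero_add, pow_p, dir_p, hgv, sg_not]; ring) le_rfl le_rfl
    have h4 : q * dir g (!θ') ^ N * dir g θ' ^ (N + N) = q * dir g θ' ^ N := by
      rw [dir_not, inv_pow, pow_add]; group
    rw [h4] at h3
    have h5 := h3.visit (by
      rw [mul_p, hp, zero_add, pow_p, dir_p, hgv, hX, mul_left_comm, sg_sg]; push_cast; ring)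
    convert h5 using 1
    ring
  · have h0 : θ' = !θ := by cases θ <;> cases θ' <;> simp_all
    subst h0
    have h1 := (h.prepend hg hgv hX).go hg hgv hX (θ := θ) 0 N (by simp [hp]) (by omega)
      (by omega)
    have h5 := h1.visit (by
      rw [mul_p, hp, zero_add, pow_p, dir_p, hgv, hX, mul_left_comm, sg_sg]; push_cast; ring)
    convert h5 using 1
    ring

end fast

end Pool.Agent.P.MP_ed39a4_al.RD
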