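import Mathlib
import Pool.Agent.P.MP_ed39a4_al.Sched
import Pool.Agent.P.MP_ed39a4_al.Rch

set_option autoImplicit false

namespace Pool.Agent.P.MP_ed39a4_al.RD

open Pool.Agent.P.MP_ed39a4_al

variable {d : ℤ → F}

/-- the geometric hypotheses; `B = X + c + M + 1` is the left end of the right zone -/
structure Geo (d : ℤ → F) (S : Set (W d)) (r c X M Λ : ℕ) (B : ℤ) : Prop where
  hB : B = X + c + M + 1
  d0 : ∀ n ≤ 0, d n = 0
  d1 : ∀ n : ℤ, r < n → n ≤ Λ → d n ≠ 0 → 2 * B + M ≤ n ∧ n ≤ 2 * B + 2 * M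
  d2 : ∀ n : ℤ, 2 * B + M ≤ n → n ≤ 2 * B + 2 * M → d n = 1
  small : ∀ x, Letter S x → Small c x
  gen : ∀ s ∈ std d, s ∈ Ball S c
  cX : c ≤ X
  lam : 2 * B + 4 * M ≤ Λ

def CL (B : ℤ) (M : ℕ) (x : ℤ) : Prop := -B - 2 * M ≤ x ∧ x ≤ -B
def CR (B : ℤ) (M : ℕ) (x : ℤ) : Prop := B ≤ x ∧ x ≤ B + 2 * M
def Ign (B : ℤ) (M r : ℕ) (x z : ℤ) : Prop :=
  (CL B M x ∨ CR B M x ∨ CL B M z ∨ CR B M z) ∧ z - x ≤ r
def Bri (B : ℤ) (M : ℕ) (x z : ℤ) : Prop :=
  (CL B M x ∨ CR B M z) ∧ 2 * B + M ≤ z - x ∧ z - x ≤ 2 * B + 2 * M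

instance (B : ℤ) (M : ℕ) (x : ℤ) : Decidable (CL B M x) := by unfold CL; infer_instance
instance (B : ℤ) (M : ℕ) (x : ℤ) : Decidable (CR B M x) := by unfold CR; infer_instance
instance (B : ℤ) (M r : ℕ) (x z : ℤ) : Decidable (Ign B M r x z) := by unfold Ign; infer_instance
instance (B : ℤ) (M : ℕ) (x z : ℤ) : Decidable (Bri B M x z) := by unfold Bri; infer_instance

structure Inv (B : ℤ) (M r : ℕ) (θ b : Bool) (q q' : W d) (U V : ℤ → F) (T : ℤ → ℤ → F) :
    Prop where
  p : q'.p = q.p
  u0 : ∀ x, ¬ CL B M x → ¬ CR B M x → q'.u x = q.u x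
  uL : ∀ x, CL B M x → q'.u x = if b = true ∧ θ = false then q.u x else U x
  uR : ∀ x, CR B M x → q'.u x = if b = true ∧ θ = true then q.u x else V x
  τ0 : ∀ x z, ¬ Ign B M r x z → ¬ Bri B M x z →
    q'.τ x z = q.τ x z + d (z - x) * q.u z * (q'.u x + q.u x)
  τ1 : ∀ x z, Bri B M x z →
    q'.τ x z = if CL B M x then T x z + q'.u z * (q'.u x + U x) else 0

variable {S : Set (W d)} {r c X M Λ : ℕ} {B : ℤ}

theorem Inv.diff {θ b : Bool} {q q' : W d} {U V : ℤ → F} {T : ℤ → ℤ → F}
    (h : Inv B M r θ b q q' U V T) {x : ℤ} (hx : q'.u x + q.u x ≠ 0) :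
    (CL B M x ∧ ¬ (b = true ∧ θ = false)) ∨ (CR B M x ∧ ¬ (b = true ∧ θ = true)) := by
  by_cases h1 : CL B M x
  · refine Or.inl ⟨h1, fun h2 => hx ?_⟩
    rw [h.uL x h1, if_pos h2, F_add_self]
  · by_cases h2 : CR B M x
    · refine Or.inr ⟨h2, fun h3 => hx ?_⟩
      rw [h.uR x h2, if_pos h3, F_add_self]
    · exact absurd (by rw [h.u0 x h1 h2, F_add_self]) hx

theorem Inv.step (G : Geo d S r c X M Λ B) {θ b : Bool} {q q' y : W d} {U V : ℤ → F}
    {T : ℤ → ℤ → F} (h : Inv B M r θ b q q' U V T) (hy : Small c y)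
    (hL : ¬ (b = true ∧ θ = false) → -X ≤ q.p) (hR : ¬ (b = true ∧ θ = true) → q.p ≤ X)
    (hΛ : |q.p| + c + B + 2 * M ≤ Λ) (hV : Zone B M V) :
    Inv B M r θ b (q * y) (q' * y) U V T := by
  have hB := G.hB
  have hcX := G.cX
  have hy1 : ∀ x, y.u (x - q.p) ≠ 0 → q.p - c ≤ x ∧ x ≤ q.p + c := fun x hx => by
    have := abs_le.1 (hy.2.1 _ hx)
    omega
  have hq1 := le_abs_self q.p
  have hq2 := neg_abs_le q.p
  refine ⟨by simp [h.p], fun x h1 h2 => by simp [h.p, h.u0 x h1 h2], fun x h1 => ?_,
    fun x h1 => ?_, fun x z h1 h2 => ?_, fun x z h1 => ?_⟩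
  · simp only [mul_u, h.p, h.uL x h1]
    split_ifs with h2
    · rfl
    · by_cases h3 : y.u (x - q.p) = 0
      · simp [h3]
      · have := hy1 x h3
        have := hL h2
        unfold CL at h1
        omega
  · simp only [mul_u, h.p, h.uR x h1]
    split_ifs with h2
    · rfl
    · by_cases h3 : y.u (x - q.p) = 0
      · simp [h3]
      · have := hy1 x h3
        have := hR h2
        unfold CR at h1
        omega
  · have e1 : d (z - x) * (q'.u z + q.u z) * y.u (x - q.p) = 0 := by
      by_contra h3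
      have h4 := hy1 x (right_ne_zero_of_mul h3)
      have h5 := h.diff (right_ne_zero_of_mul (left_ne_zero_of_mul h3))
      have h6 := G.d1 (z - x)
      have h7 := left_ne_zero_of_mul (left_ne_zero_of_mul h3)
      simp only [h7, ne_eq, not_false_eq_true, forall_const] at h6
      unfold Ign Bri CL CR at *
      rcases h5 with ⟨h5, h8⟩ | ⟨h5, h8⟩
      · have := hL h8
        omega
      · omega
    have e2 : d (z - x) * y.u (z - q.p) * (q'.u x + q.u x) = 0 := by
      by_contra h3
      have h4 := hy1 z (right_ne_zero_of_mul (left_ne_zero_of_mul h3))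
      have h5 := h.diff (right_ne_zero_of_mul h3)
      have h6 := G.d1 (z - x)
      have h7 := left_ne_zero_of_mul (left_ne_zero_of_mul h3)
      simp only [h7, ne_eq, not_false_eq_true, forall_const] at h6
      unfold Ign Bri CL CR at *
      rcases h5 with ⟨h5, h8⟩ | ⟨h5, h8⟩
      · omega
      · have := hR h8
        omega
    simp only [mul_u, mul_τ, h.p, h.τ0 x z h1 h2]
    grind
  · have e0 : y.τ (x - q.p) (z - q.p) = 0 := by
      by_contra h3
      have h4 := hy.2.2 _ _ h3
      have h5 := abs_le.1 h4.1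
      have h6 := abs_le.1 h4.2.1
      unfold Bri at h1
      omega
    have e1 : d (z - x) = 1 := G.d2 _ h1.2.1 h1.2.2
    simp only [mul_u, mul_τ, h.p, h.τ1 x z h1, e0, e1]
    split_ifs with h2
    · have e2 : y.u (z - q.p) * (q'.u x + y.u (x - q.p) + U x) = 0 := by
        by_cases h3 : b = true ∧ θ = false
        · have : y.u (z - q.p) = 0 := by
            by_contra h4
            have := hy1 z h4
            have := hR (by simp [h3.2])
            unfold Bri CL at *
            omega
          simp [this]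
        · have : y.u (x - q.p) = 0 := by
            by_contra h4
            have := hy1 x h4
            have := hL h3
            unfold CL at *
            omega
          rw [this, h.uL x h2, if_neg h3, add_zero, F_add_self, mul_zero]
      grind
    · have e2 : q'.u z * y.u (x - q.p) = 0 := by
        by_contra h4
        have h5 := hy1 x (right_ne_zero_of_mul h4)
        have h6 : CR B M z := h1.1.resolve_left h2
        by_cases h3 : b = true ∧ θ = false
        · have h7 := left_ne_zero_of_mul h4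
          rw [h.uR z h6, if_neg (by simp [h3.2])] at h7
          have := hV z h7
          unfold Bri CL at *
          omega
        · have := hL h3
          unfold Bri CR at *
          omega
      grind

/-- toggle the lamps in `A` (absolute positions) -/
def tog (q : W d) (A : ℤ → F) : W d :=
  ⟨fun x => q.u x + A x, fun x z => q.τ x z + d (z - x) * q.u z * A x, q.p⟩

theorem Inv.tog0 (G : Geo d S r c X M Λ B) {θ b : Bool} {q q' : W d} {U V : ℤ → F}
    {T : ℤ → ℤ → F} (h : Inv B M r θ b q q' U V T) {A : ℤ → F}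
    (hA : ∀ x, A x ≠ 0 → CL B M x ∨ CR B M x) (x z : ℤ) (h1 : ¬ Ign B M r x z)
    (h2 : ¬ Bri B M x z) :
    (tog q' A).τ x z = q.τ x z + d (z - x) * q.u z * ((tog q' A).u x + q.u x) := by
  have hB := G.hB
  have hΛ := G.lam
  have e1 : d (z - x) * (q'.u z + q.u z) * A x = 0 := by
    by_contra h3
    have h4 := hA x (right_ne_zero_of_mul h3)
    have h5 := h.diff (right_ne_zero_of_mul (left_ne_zero_of_mul h3))
    have h6 := G.d1 (z - x)
    have h7 := left_ne_zero_of_mul (left_ne_zero_of_mul h3)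
    simp only [h7, ne_eq, not_false_eq_true, forall_const] at h6
    unfold Ign Bri CL CR at *
    omega
  simp only [tog, h.τ0 x z h1 h2]
  grind

theorem Inv.enterL (G : Geo d S r c X M Λ B) {q q' : W d} {U V : ℤ → F}
    {T : ℤ → ℤ → F} (h : Inv B M r true false q q' U V T) :
    Inv B M r false true q (tog q' (fun x => if CL B M x then q'.u x + q.u x else 0)) U V T := by
  have hB := G.hB
  refine ⟨h.p, fun x h1 h2 => by simp [tog, h1, h.u0 x h1 h2], fun x h1 => ?_, fun x h1 => ?_,
    h.tog0 G (fun x hx => Or.inl (by by_contra h1; simp [h1] at hx)), fun x z h1 => ?_⟩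
  · simp only [tog, h1, if_true, and_self]; grind
  · have : ¬ CL B M x := by unfold CL CR at *; omega
    simp [tog, this, h.uR x h1]
  · have e1 : d (z - x) = 1 := G.d2 _ h1.2.1 h1.2.2
    have e2 : ¬ CL B M z := by unfold Bri CL CR at *; omega
    simp only [tog, h.τ1 x z h1, e1, e2, if_false]
    split_ifs with h2
    · grind
    · simp

theorem Inv.enterR (G : Geo d S r c X M Λ B) {q q' : W d} {U V : ℤ → F}
    {T : ℤ → ℤ → F} (h : Inv B M r false false q q' U V T) :
    Inv B M r true true q (tog q' (fun x => if CR B M x then q'.u x + q.u x else 0)) U V T := by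
  have hB := G.hB
  refine ⟨h.p, fun x h1 h2 => by simp [tog, h2, h.u0 x h1 h2], fun x h1 => ?_, fun x h1 => ?_,
    h.tog0 G (fun x hx => Or.inr (by by_contra h1; simp [h1] at hx)), fun x z h1 => ?_⟩
  · have : ¬ CR B M x := by unfold CL CR at *; omega
    simp [tog, this, h.uL x h1]
  · simp only [tog, h1, if_true, and_self]; grind
  · have e2 : ¬ CR B M x := by unfold Bri CL CR at *; omega
    simp only [tog, h.τ1 x z h1, e2, if_false]
    split_ifs with h2 h3
    · simp [h.uL x h2, F_add_self]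
    · simp [h.uL x h2, F_add_self]
    · simp

theorem Inv.exitL (G : Geo d S r c X M Λ B) {q q' : W d} {U0 U V : ℤ → F}
    {T0 T : ℤ → ℤ → F} (h : Inv B M r false true q q' U0 V T0) (hU0 : Zone (-B - M) M U0)
    (hU : Zone (-B - M) M U) (hT : ∀ x z, T x z = T0 x z + (U x + U0 x) * V z) :
    Inv B M r false false q (tog q' (fun x => if CL B M x then q'.u x + U x else 0)) U V T := by
  have hB := G.hB
  refine ⟨h.p, fun x h1 h2 => by simp [tog, h1, h.u0 x h1 h2], fun x h1 => ?_, fun x h1 => ?_,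
    h.tog0 G (fun x hx => Or.inl (by by_contra h1; simp [h1] at hx)), fun x z h1 => ?_⟩
  · simp only [tog, h1, if_true, Bool.false_eq_true, false_and, if_false]; grind
  · have : ¬ CL B M x := by unfold CL CR at *; omega
    simp [tog, this, h.uR x h1]
  · have e1 : d (z - x) = 1 := G.d2 _ h1.2.1 h1.2.2
    have e2 : ¬ CL B M z := by unfold Bri CL CR at *; omega
    simp only [tog, h.τ1 x z h1, e1, e2, if_false, hT]
    split_ifs with h2
    · have e3 : (U x + U0 x) * (q'.u z + V z) = 0 := by
        by_cases h3 : U x + U0 x = 0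
        · simp [h3]
        · have h4 := (hU.add hU0) x h3
          have h5 : CR B M z := by unfold Bri CR at *; omega
          rw [h.uR z h5]
          simp [F_add_self]
      grind
    · simp

theorem Inv.exitR (G : Geo d S r c X M Λ B) {q q' : W d} {U V0 V : ℤ → F}
    {T : ℤ → ℤ → F} (h : Inv B M r true true q q' U V0 T) :
    Inv B M r true false q (tog q' (fun x => if CR B M x then q'.u x + V x else 0)) U V T := by
  have hB := G.hB
  refine ⟨h.p, fun x h1 h2 => by simp [tog, h2, h.u0 x h1 h2], fun x h1 => ?_, fun x h1 => ?_,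
    h.tog0 G (fun x hx => Or.inr (by by_contra h1; simp [h1] at hx)), fun x z h1 => ?_⟩
  · have : ¬ CR B M x := by unfold CL CR at *; omega
    simp [tog, this, h.uL x h1]
  · simp only [tog, h1, if_true, Bool.false_eq_true, false_and, if_false]; grind
  · have e2 : ¬ CR B M x := by unfold Bri CL CR at *; omega
    simp only [tog, h.τ1 x z h1, e2, if_false]
    split_ifs with h2 h3
    · simp [h.uL x h2, F_add_self]
    · simp [h.uL x h2, F_add_self]
    · simp

end Pool.Agent.P.MP_ed39a4_al.RD
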