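import Mathlib
import Pool.Agent.P.MP_ed39a4_al.Modify

set_option autoImplicit false

namespace Pool.Agent.P.MP_ed39a4_al.RD

open Pool.Agent.P.MP_ed39a4_al

variable {d : ℤ → F}

/-- a central element -/
def cen (d : ℤ → F) (ζ : ℤ → ℤ → F) : W d := ⟨fun _ => 0, ζ, 0⟩

def Cl (B : ℤ) (M : ℕ) (θ : Bool) (x : ℤ) : Prop := B ≤ sg θ * x ∧ sg θ * x ≤ B + 2 * M

theorem cl_true {B : ℤ} {M : ℕ} {x : ℤ} : Cl B M true x ↔ CR B M x := by simp [Cl, CR]

theorem cl_false {B : ℤ} {M : ℕ} {x : ℤ} : Cl B M false x ↔ CL B M x := by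
  simp only [Cl, CL, sg_false]; omega

def Loc (d : ℤ → F) (B : ℤ) (M r : ℕ) (θ : Bool) (ζ : ℤ → ℤ → F) : Prop :=
  ∀ x z, ζ x z ≠ 0 → (Cl B M θ x ∨ Cl B M θ z) ∧ z - x ≤ r ∧ d (z - x) ≠ 0

def Vis (θ : Bool) (s : ℕ) (θ' : Bool) : Prop := (θ' = θ ∧ 1 ≤ s) ∨ 2 ≤ s

/-- cost of one local operation -/
def Th (r c M : ℕ) : ℕ := c * ((2 * (2 * c + 3 * M + 1 + r) + 1) * (KK r + 1))

def Reach (S : Set (W d)) (B : ℤ) (M r : ℕ) (θ : Bool) (s n : ℕ) (q' : W d) : Prop :=
  ∀ ζ : Bool → ℤ → ℤ → F, (∀ θ', Loc d B M r θ' (ζ θ')) →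
    (∀ θ', ¬ Vis θ s θ' → ∀ x z, ζ θ' x z = 0) →
    cen d (fun x z => ζ true x z + ζ false x z) * q' ∈ Ball S n

variable {S : Set (W d)} {r c X M Λ : ℕ} {B : ℤ}

theorem local_mem (G : Geo d S r c X M Λ B) {θ : Bool} {p : ℤ} (hp : |sg θ * p - X| ≤ c)
    {A : ℤ → F} (hA : ∀ x, A x ≠ 0 → Cl B M θ x) {ζ : ℤ → ℤ → F} (hζ : Loc d B M r θ ζ) :
    (⟨fun x => A (x + p), fun x z => ζ (x + p) (z + p), 0⟩ : W d) ∈ Ball S (Th r c M) := by
  have hB := G.hB
  have hp' := abs_le.1 hp
  refine ball_comp G.gen (sweep G.d0 r (2 * c + 3 * M + 1 + r) _ _ (fun x hx => ?_)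
    (fun x z hx => ?_))
  · have := hA _ hx
    rw [abs_le]
    unfold Cl at this
    cases θ <;> simp only [sg_true, sg_false] at * <;> push_cast <;> omega
  · obtain ⟨h1, h2, h3⟩ := hζ _ _ hx
    have h4 : 0 < z + p - (x + p) := by
      by_contra h
      exact h3 (G.d0 _ (by omega))
    refine ⟨?_, by simpa using h3, by omega⟩
    rw [abs_le]
    unfold Cl at h1
    cases θ <;> simp only [sg_true, sg_false] at * <;> push_cast <;> omega

theorem Reach.letter {θ : Bool} {s n : ℕ} {q' x : W d} (h : Reach S B M r θ s n q')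
    (hx : Letter S x) : Reach S B M r θ s (n + 1) (q' * x) := by
  intro ζ h1 h2
  rw [← mul_assoc]
  exact mul_mem_ball (h ζ h1 h2) (letter_mem_ball hx)

theorem Reach.exit (G : Geo d S r c X M Λ B) {θ : Bool} {s n : ℕ} {q' : W d}
    (h : Reach S B M r θ s n q') (hp : |sg θ * q'.p - X| ≤ c) {A : ℤ → F}
    (hA : ∀ x, A x ≠ 0 → Cl B M θ x) : Reach S B M r θ s (n + Th r c M) (tog q' A) := by
  intro ζ h1 h2
  have h3 := mul_mem_ball (h ζ h1 h2) (local_mem G hp hA (ζ := fun _ _ => 0)
    (fun _ _ h => absurd rfl h))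
  convert h3 using 1
  ext x z <;> simp [cen, tog, add_assoc]

theorem Reach.enter (G : Geo d S r c X M Λ B) {θ : Bool} {s n : ℕ} {q' : W d}
    (h : Reach S B M r (!θ) s n q') (hp : |sg θ * q'.p - X| ≤ c) {A : ℤ → F}
    (hA : ∀ x, A x ≠ 0 → Cl B M θ x) : Reach S B M r θ (s + 1) (n + Th r c M) (tog q' A) := by
  intro ζ h1 h2
  have h4 := h (fun θ' => if θ' = θ then fun _ _ => 0 else ζ θ') (fun θ' => by
      split_ifs
      · exact fun _ _ h => absurd rfl h
      · exact h1 θ') (fun θ' h5 x z => by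
      split_ifs with h6
      · rfl
      · refine h2 θ' ?_ x z
        unfold Vis at *
        have : θ' = !θ := by cases θ <;> cases θ' <;> simp_all
        simp only [this, true_and] at h5
        simp only [h6, false_and, false_or]
        omega)
  have h3 := mul_mem_ball h4 (local_mem G hp hA (h1 θ))
  convert h3 using 1
  ext x z
  · simp [cen, tog]
  · cases θ <;> simp [cen, tog] <;> ring
  · simp [cen, tog]

theorem modify (G : Geo d S r c X M Λ B) {θ b : Bool} {s n : ℕ} {q : W d}
    (h : Sw S X c θ b s n q) (hn : c * n + c + B + 2 * M ≤ Λ) (U V : ℤ → F) (T : ℤ → ℤ → F)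
    (hr : Rch (-B - M) B M s (if b = true then !θ else θ) U V T) :
    ∃ q', Inv B M r θ b q q' U V T ∧
      Reach S B M r θ (s + if b = true then 1 else 0)
        (n + (2 * s + if b = true then 1 else 0) * Th r c M) q' := by
  have hpb : ∀ {θ b : Bool} {s n : ℕ} {q : W d}, Sw S X c θ b s n q → |q.p| ≤ c * n :=
    fun h => p_ball (p := fun q : W d => q.p) (fun _ _ => rfl)
      (fun s hs => (G.small s (Or.inl hs)).1) h.ball
  induction h generalizing U V T with
  | start θ =>
    obtain ⟨h1, h2, h3⟩ := hr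
    refine ⟨1, ⟨rfl, by simp, by simp [h1], by simp [h2], by simp, by simp [h3]⟩, ?_⟩
    intro ζ _ h5
    have h6 : ∀ θ', ¬ Vis θ 0 θ' := by simp [Vis]
    have : cen d (fun x z => ζ true x z + ζ false x z) * 1 = 1 := by
      ext x z <;> simp [cen, h5 _ (h6 _)]
    rw [this]
    exact one_mem_ball _ _
  | @mid θ s n q x h0 hx hp ih =>
    obtain ⟨q', h1, h2⟩ := ih (by push_cast at hn; nlinarith) U V T hr
    have h3 := hpb h0
    have h4 := abs_le.1 hp
    refine ⟨q' * x, h1.step G (G.small x hx) (fun _ => h4.1) (fun _ => h4.2)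
      (by push_cast at hn; nlinarith) hr.zone.2.1, ?_⟩
    rw [Nat.add_right_comm]
    exact h2.letter hx
  | @vis θ s n q x h0 hx hp ih =>
    obtain ⟨q', h1, h2⟩ := ih (by push_cast at hn; nlinarith) U V T hr
    have h3 := hpb h0
    refine ⟨q' * x, h1.step G (G.small x hx) (fun h => ?_) (fun h => ?_)
      (by push_cast at hn; nlinarith) hr.zone.2.1, ?_⟩
    · have : θ = true := by simpa using h
      simpa [this] using hp
    · have : θ = false := by simpa using h
      simpa [this] using hp
    · rw [Nat.add_right_comm]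
      exact h2.letter hx
  | @enter θ s n q h0 hp ih =>
    obtain ⟨q', h1, h2⟩ := ih hn U V T (by simpa using hr)
    simp only [Bool.false_eq_true, if_false, add_zero] at h2
    simp only [if_true]
    rw [add_mul, one_mul, ← add_assoc]
    cases θ
    · exact ⟨_, h1.enterL G, h2.enter G (by rw [h1.p]; exact hp)
        (fun x hx => cl_false.2 (by by_contra h; simp [h] at hx))⟩
    · exact ⟨_, h1.enterR G, h2.enter G (by rw [h1.p]; exact hp)
        (fun x hx => cl_true.2 (by by_contra h; simp [h] at hx))⟩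
  | @exit θ s n q h0 hp ih =>
    simp only [Bool.false_eq_true, if_false, add_zero] at hr ⊢
    have e : n + 2 * (s + 1) * Th r c M = n + (2 * s + 1) * Th r c M + Th r c M := by ring
    rw [e]
    cases θ
    · obtain ⟨hU, U0, T0, h3, h4⟩ := hr
      obtain ⟨q', h1, h2⟩ := ih hn U0 V T0 (by simpa using h3)
      exact ⟨_, h1.exitL G h3.zone.1 hU h4, h2.exit G (by rw [h1.p]; exact hp)
        (fun x hx => cl_false.2 (by by_contra h; simp [h] at hx))⟩
    · obtain ⟨hV, V0, h3⟩ := hr
      obtain ⟨q', h1, h2⟩ := ih hn U V0 T (by simpa using h3)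
      exact ⟨_, h1.exitR G, h2.exit G (by rw [h1.p]; exact hp)
        (fun x hx => cl_true.2 (by by_contra h; simp [h] at hx))⟩

/-- equality away from the two clusters -/
structure Rel (B : ℤ) (M r : ℕ) (q h : W d) : Prop where
  p : q.p = h.p
  u : ∀ x, ¬ CL B M x → ¬ CR B M x → q.u x = h.u x
  τ : ∀ x z, ¬ Ign B M r x z → ¬ Bri B M x z → q.τ x z = h.τ x z

/-- supported in the window with a triangle of size `m` -/
structure Pk (B : ℤ) (M m : ℕ) (g : W d) : Prop where
  u : ∀ x, g.u x ≠ 0 → -B - M ≤ x ∧ x < B + m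
  τ : ∀ x z, g.τ x z ≠ 0 → -B - M ≤ x ∧ z < B + m ∧ d (z - x) ≠ 0

theorem dsupp (G : Geo d S r c X M Λ B) {n : ℕ} {q : W d} (hq : q ∈ Ball S n) :
    ∀ x z, q.τ x z ≠ 0 → d (z - x) ≠ 0 := by
  induction n generalizing q with
  | zero => rw [ball_zero hq]; simp
  | succ n ih =>
    rcases ball_succ hq with h1 | ⟨q', h1, y, hy, rfl⟩
    · exact ih h1
    · intro x z hx hd
      apply hx
      have e1 : q'.τ x z = 0 := by
        by_contra h; exact ih h1 x z h hd
      have e2 : y.τ (x - q'.p) (z - q'.p) = 0 := by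
        by_contra h
        exact ((G.small y hy).2.2 _ _ h).2.2 (by simpa using hd)
      simp [e1, e2, hd]

theorem upper (G : Geo d S r c X M Λ B) {θ : Bool} {s n m : ℕ} {q g : W d}
    (h : Sw S X c θ false s n q) (hn : c * n + c + B + 2 * M ≤ Λ) (hm : m ≤ M + 1)
    (hs : 2 * m + 2 ≤ s) (hg : Pk B M m g) (hq : Rel B M r q g) :
    g ∈ Ball S (n + 2 * s * Th r c M) := by
  have hB := G.hB
  have hΛ := G.lam
  have hr := cover (α := -B - M) (β := B) m hm (fun x => if CL B M x then g.u x else 0)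
    (fun x => if CR B M x then g.u x else 0) (fun x z => if Bri B M x z then g.τ x z else 0)
    (fun x hx => by
      have h1 : CL B M x := by by_contra h; simp [h] at hx
      have h2 := hg.u x (by simpa [h1] using hx)
      unfold CL at h1
      omega)
    (fun x hx => by
      have h1 : CR B M x := by by_contra h; simp [h] at hx
      have h2 := hg.u x (by simpa [h1] using hx)
      unfold CR at h1
      omega)
    (fun x z hx => by
      have h1 : Bri B M x z := by by_contra h; simp [h] at hx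
      have h2 := hg.τ x z (by simpa [h1] using hx)
      unfold Bri at h1
      omega) θ hs
  obtain ⟨q', h1, h2⟩ := modify G h hn _ _ _ (by simpa using hr)
  simp only [Bool.false_eq_true, if_false, add_zero] at h2
  have hvis : ∀ θ', Vis θ s θ' := fun _ => Or.inr (by omega)
  have h3 := dsupp G (h2 (fun _ _ _ => 0) (fun _ _ _ h => absurd rfl h) (fun _ _ _ _ => rfl))
  have h4 : ∀ x z, q'.τ x z ≠ 0 → d (z - x) ≠ 0 := by simpa [cen] using h3
  have h5 : ∀ x z, g.τ x z + q'.τ x z ≠ 0 → d (z - x) ≠ 0 := fun x z hx => by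
    by_cases h : g.τ x z = 0
    · exact h4 x z (by simpa [h] using hx)
    · exact (hg.τ x z h).2.2
  have h6 := h2 (fun θ' x z => if Ign B M r x z ∧ ((CR B M x ∨ CR B M z) ↔ θ' = true) then
      g.τ x z + q'.τ x z else 0) (fun θ' x z hx => by
      have h7 : Ign B M r x z ∧ ((CR B M x ∨ CR B M z) ↔ θ' = true) := by
        by_contra h; simp only [h, if_false] at hx; exact hx rfl
      simp only [h7, and_self, if_true] at hx
      refine ⟨?_, h7.1.2, h5 x z hx⟩
      cases θ'
      · simp only [cl_false]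
        have := h7.1.1
        have := h7.2
        tauto
      · simp only [cl_true]
        exact h7.2.2 rfl) (fun θ' h => absurd (hvis θ') h)
  convert h6 using 1
  have hu : ∀ x, g.u x = q'.u x := by
    intro x
    by_cases a1 : CL B M x
    · simp [h1.uL x a1, a1]
    · by_cases a2 : CR B M x
      · simp [h1.uR x a2, a2]
      · rw [h1.u0 x a1 a2, hq.u x a1 a2]
  ext x z
  · simp [cen, hu]
  · simp only [cen, mul_τ, sub_zero, mul_zero, zero_mul, add_zero]
    by_cases a1 : Ign B M r x z
    · by_cases a2 : CR B M x ∨ CR B M z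
      · simp only [a1, a2, true_and, iff_self, if_true, true_iff, Bool.false_eq_true, if_false]
        grind
      · simp only [a1, a2, true_and, iff_self, if_true, false_iff, Bool.false_eq_true, if_false,
          not_true_eq_false]
        grind
    · simp only [a1, false_and, if_false, add_zero, zero_add]
      by_cases a2 : Bri B M x z
      · rw [h1.τ1 x z a2]
        split_ifs with a3
        · simp [h1.uL x a3, a3, F_add_self]
        · by_contra a4
          have := hg.τ x z a4
          unfold Bri CL CR at *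
          omega
      · rw [h1.τ0 x z a1 a2, hq.τ x z a1 a2]
        have e : d (z - x) * q.u z * (q'.u x + q.u x) = 0 := by
          by_contra h3
          have h5 := h1.diff (right_ne_zero_of_mul h3)
          have h6 := G.d1 (z - x)
          have h7 := left_ne_zero_of_mul (left_ne_zero_of_mul h3)
          have h8 := right_ne_zero_of_mul (left_ne_zero_of_mul h3)
          have h9 : CL B M z ∨ CR B M z ∨ (-B - M ≤ z ∧ z < B + m) := by
            by_contra h
            push Not at h
            rw [hq.u z h.1 h.2.1] at h8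
            have := hg.u z h8
            omega
          simp only [h7, ne_eq, not_false_eq_true, forall_const] at h6
          unfold Ign Bri CL CR at *
          omega
        rw [e, add_zero]
  · simp [cen, h1.p, hq.p]

end Pool.Agent.P.MP_ed39a4_al.RD
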