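import Mathlib
import Pool.Agent.P.MP_ed39a4_al.Upper

set_option autoImplicit false

namespace Pool.Agent.P.MP_ed39a4_al.RD

open Pool.Agent.P.MP_ed39a4_al

variable {d : ℤ → F} {S : Set (W d)} {r c X M Λ : ℕ} {B : ℤ}

/-- restriction to a zone -/
def res (γ : ℤ) (M : ℕ) (f : ℤ → F) : ℤ → F := fun x => if γ ≤ x ∧ x ≤ γ + M then f x else 0

theorem res_zone (γ : ℤ) (M : ℕ) (f : ℤ → F) : Zone γ M (res γ M f) := by
  intro x hx
  by_contra h
  simp only [res, h, if_false] at hx
  exact hx rfl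

theorem sw_rch (G : Geo d S r c X M Λ B) {θ b : Bool} {s n : ℕ} {q : W d}
    (h : Sw S X c θ b s n q) :
    ∃ T, Rch (-B - M) B M (s + if b = true then 1 else 0) θ (res (-B - M) M q.u) (res B M q.u) T ∧
      ∀ x z, -B - M ≤ x → x ≤ -B → B ≤ z → z ≤ B + M → 2 * B + M ≤ z - x → q.τ x z = T x z := by
  have hB := G.hB
  have hcX := G.cX
  have hy1 : ∀ y, Letter S y → ∀ p x, y.u (x - p) ≠ 0 → p - c ≤ x ∧ x ≤ p + c :=
    fun y hy p x hx => by
      have := abs_le.1 ((G.small y hy).2.1 _ hx)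
      omega
  have hy2 : ∀ y, Letter S y → ∀ p x z, 2 * B + M ≤ z - x → y.τ (x - p) (z - p) = 0 :=
    fun y hy p x z hx => by
      by_contra h3
      have h4 := (G.small y hy).2.2 _ _ h3
      have h5 := abs_le.1 h4.1
      have h6 := abs_le.1 h4.2.1
      omega
  have hL : ∀ q y : W d, Letter S y → -X ≤ q.p →
      res (-B - M) M (q * y).u = res (-B - M) M q.u := by
    intro q y hy hp
    ext x
    simp only [res, mul_u]
    split_ifs with h
    · by_cases h1 : y.u (x - q.p) = 0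
      · simp [h1]
      · have := hy1 y hy _ _ h1
        omega
    · rfl
  have hR : ∀ q y : W d, Letter S y → q.p ≤ X → res B M (q * y).u = res B M q.u := by
    intro q y hy hp
    ext x
    simp only [res, mul_u]
    split_ifs with h
    · by_cases h1 : y.u (x - q.p) = 0
      · simp [h1]
      · have := hy1 y hy _ _ h1
        omega
    · rfl
  have hτ : ∀ q y : W d, Letter S y → -X ≤ q.p → ∀ x z, x ≤ -B → 2 * B + M ≤ z - x →
      (q * y).τ x z = q.τ x z := by
    intro q y hy hp x z h1 h2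
    have : y.u (x - q.p) = 0 := by
      by_contra h1
      have := hy1 y hy _ _ h1
      omega
    simp [this, hy2 y hy _ _ _ h2]
  induction h with
  | start θ => exact ⟨fun _ _ => 0, ⟨by simp [res], by simp [res], by simp⟩, by simp⟩
  | @mid θ s n q y _ hy hp ih =>
    obtain ⟨T, h1, h2⟩ := ih
    have hp' := abs_le.1 hp
    refine ⟨T, by rw [hL q y hy hp'.1, hR q y hy hp'.2]; exact h1, fun x z a1 a2 a3 a4 a5 => ?_⟩
    rw [hτ q y hy hp'.1 x z a2 a5, h2 x z a1 a2 a3 a4 a5]
  | @enter θ s n q _ hp ih =>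
    obtain ⟨T, h1, h2⟩ := ih
    refine ⟨T, ?_, h2⟩
    cases θ
    · exact ⟨res_zone _ _ _, _, T, h1, by simp [F_add_self]⟩
    · exact ⟨res_zone _ _ _, _, h1⟩
  | @vis θ s n q y _ hy hp ih =>
    obtain ⟨T, h1, h2⟩ := ih
    cases θ
    · obtain ⟨_, U0, T0, h3, h4⟩ := h1
      have hp' : q.p ≤ X := by simpa using hp
      rw [hR q y hy hp']
      refine ⟨_, ⟨res_zone _ _ _, U0, T0, h3, fun _ _ => rfl⟩, fun x z a1 a2 a3 a4 a5 => ?_⟩
      have e1 : d (z - x) = 1 := G.d2 _ a5 (by omega)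
      have e2 : -B - M ≤ x ∧ x ≤ -B - M + M := by omega
      simp only [mul_τ, hy2 y hy _ _ _ a5, e1, h2 x z a1 a2 a3 a4 a5, h4, res, e2, a3, a4, mul_u,
        and_self, if_true]
      ring
    · obtain ⟨_, V0, h3⟩ := h1
      have hp' : -X ≤ q.p := by simpa using hp
      rw [hL q y hy hp']
      refine ⟨T, ⟨res_zone _ _ _, V0, h3⟩, fun x z a1 a2 a3 a4 a5 => ?_⟩
      rw [hτ q y hy hp' x z a2 a5, h2 x z a1 a2 a3 a4 a5]
  | @exit θ s n q _ hp ih => exact ih

theorem lower (G : Geo d S r c X M Λ B) {θ : Bool} {s n m : ℕ} {q : W d}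
    (h : Sw S X c θ false s n q) (hm1 : 1 ≤ m) (hm : m ≤ M + 1)
    (hU : ∀ i : ℕ, i < m → q.u (-B - M + i) = 0) (hV : ∀ i : ℕ, i < m → q.u (B + i) = 0)
    (h1 : ∀ i : ℕ, i < m → q.τ (-B - M + i) (B + i) = 1)
    (h2 : ∀ i j : ℕ, i < j → j < m → q.τ (-B - M + i) (B + j) = 0) : 2 * m + 2 ≤ s := by
  obtain ⟨T, h3, h4⟩ := sw_rch G h
  refine rank_lower hm1 h3 (fun i hi => by simp [res, hU i hi]) (fun i hi => by simp [res, hV i hi])
    (fun i hi => ?_) (fun i j hi hj => ?_)
  · rw [← h4 _ _ (by omega) (by omega) (by omega) (by omega) (by omega), h1 i hi]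
  · rw [← h4 _ _ (by omega) (by omega) (by omega) (by omega) (by omega), h2 i j hi hj]

theorem Rel.symm {q h : W d} (h1 : Rel B M r q h) : Rel B M r h q :=
  ⟨h1.p.symm, fun x a b => (h1.u x a b).symm, fun x z a b => (h1.τ x z a b).symm⟩

theorem Rel.trans {q h g : W d} (h1 : Rel B M r q h) (h2 : Rel B M r h g) : Rel B M r q g :=
  ⟨h1.p.trans h2.p, fun x a b => (h1.u x a b).trans (h2.u x a b),
    fun x z a b => (h1.τ x z a b).trans (h2.τ x z a b)⟩

theorem Rel.letter (G : Geo d S r c X M Λ B) {q h y : W d} (h1 : Rel B M r q h)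
    (hy : Letter S y) (hp : |h.p| ≤ X) : Rel B M r (q * y) (h * y) := by
  have hB := G.hB
  have hΛ := G.lam
  have hp' := abs_le.1 hp
  refine ⟨by simp [h1.p], fun x a b => by simp [h1.p, h1.u x a b], fun x z a b => ?_⟩
  have e : d (z - x) * (q.u z + h.u z) * y.u (x - h.p) = 0 := by
    by_contra h3
    have h4 := abs_le.1 ((G.small y hy).2.1 _ (right_ne_zero_of_mul h3))
    have h5 : CL B M z ∨ CR B M z := by
      by_contra h
      push Not at h
      apply h3
      rw [h1.u z h.1 h.2, F_add_self]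
      simp
    have h6 := G.d1 (z - x)
    have h7 := left_ne_zero_of_mul (left_ne_zero_of_mul h3)
    simp only [h7, ne_eq, not_false_eq_true, forall_const] at h6
    unfold Ign Bri CL CR at *
    omega
  simp only [mul_τ, h1.p, h1.τ x z a b]
  grind

theorem Pk.letter (G : Geo d S r c X M Λ B) {m : ℕ} {g y : W d} (h1 : Pk B M m g)
    (hy : Letter S y) (hp : |g.p| ≤ X) : Pk B M m (g * y) := by
  have hB := G.hB
  have hp' := abs_le.1 hp
  have hu : ∀ x, y.u (x - g.p) ≠ 0 → -B - M ≤ x ∧ x < B + m := fun x hx => by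
    have := abs_le.1 ((G.small y hy).2.1 _ hx)
    omega
  refine ⟨fun x hx => ?_, fun x z hx => ?_⟩
  · by_cases h : g.u x = 0
    · exact hu x (by simpa [h] using hx)
    · exact h1.u x h
  · by_cases h : g.τ x z = 0
    · by_cases h' : y.τ (x - g.p) (z - g.p) = 0
      · simp only [mul_τ, h, h', zero_add] at hx
        exact ⟨(hu x (right_ne_zero_of_mul hx)).1,
          (h1.u z (right_ne_zero_of_mul (left_ne_zero_of_mul hx))).2,
          left_ne_zero_of_mul (left_ne_zero_of_mul hx)⟩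
      · have h4 := (G.small y hy).2.2 _ _ h'
        have h5 := abs_le.1 h4.1
        have h6 := abs_le.1 h4.2.1
        exact ⟨by omega, by omega, by simpa using h4.2.2⟩
    · exact h1.τ x z h

theorem iter {Φ : ℕ → W d → Prop} {y : W d}
    (hs : ∀ n q, Φ n q → |q.p| ≤ X → Φ (n + 1) (q * y)) {q : W d} (h : Φ 0 q) (i : ℕ)
    (hi : ∀ j : ℕ, j < i → |q.p + j * y.p| ≤ X) : Φ i (q * y ^ i) := by
  induction i with
  | zero => simpa using h
  | succ i ih =>
    rw [pow_succ, ← mul_assoc]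
    refine hs _ _ (ih (fun j hj => hi j (by omega))) ?_
    rw [mul_p, pow_p]
    exact hi i (by omega)

theorem go_bound {g : W d} {v N : ℕ} (hgv : g.p = v) (hX : X = v * N) (θ : Bool) (p : ℤ) (a : ℕ)
    (hp : p = - sg θ * (v * a)) (ha : a ≤ N) (j : ℕ) (hj : j < N) :
    |p + j * (dir g θ).p| ≤ X := by
  rw [hp, dir_p, hgv, ← abs_sg θ, hX]
  have : sg θ * (-sg θ * (v * a) + j * (sg θ * v)) = v * (j - a) := by
    cases θ <;> simp <;> ring
  rw [this, abs_mul, abs_of_nonneg (Int.natCast_nonneg v)]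
  push_cast
  refine mul_le_mul_of_nonneg_left ?_ (Int.natCast_nonneg v)
  rw [abs_le]; omega

/-- elements supported strictly between the clusters, with cursor at the origin -/
structure Fam (B : ℤ) (h : W d) : Prop where
  p : h.p = 0
  u : ∀ x, h.u x ≠ 0 → |x| < B
  τ : ∀ x z, h.τ x z ≠ 0 → |x| < B ∧ |z| < B ∧ d (z - x) ≠ 0

theorem exists_fam (G : Geo d S r c X M Λ B) {m : ℕ} (hm : m ≤ M + 1) {g : W d}
    (hg : Pk B M m g) (hp : g.p = 0) : ∃ h, Fam B h ∧ Rel B M r h g := by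
  have hB := G.hB
  have hΛ := G.lam
  refine ⟨⟨fun x => if |x| < B then g.u x else 0,
    fun x z => if |x| < B ∧ |z| < B then g.τ x z else 0, 0⟩, ⟨rfl, fun x hx => ?_,
    fun x z hx => ?_⟩, hp.symm, fun x a b => ?_, fun x z a b => ?_⟩
  · by_contra h; simp [h] at hx
  · have h : |x| < B ∧ |z| < B := by
      by_contra h; simp only [h, if_false] at hx; exact hx rfl
    simp only [h, and_self, if_true] at hx
    exact ⟨h.1, h.2, (hg.τ x z hx).2.2⟩
  · simp only [ite_eq_left_iff]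
    intro h
    by_contra h1
    have := hg.u x (Ne.symm h1)
    rw [abs_lt] at h
    unfold CL CR at *
    omega
  · simp only [ite_eq_left_iff]
    intro h
    by_contra h1
    have h2 := hg.τ x z (Ne.symm h1)
    have h3 := G.d1 (z - x)
    have h4 : 0 < z - x := by
      by_contra h
      exact h2.2.2 (G.d0 _ (by omega))
    simp only [h2.2.2, ne_eq, not_false_eq_true, forall_const] at h3
    rw [abs_lt, abs_lt] at h
    unfold Ign Bri CL CR at *
    omega

theorem fam_mem (G : Geo d S r c X M Λ B) {h : W d} (hh : Fam B h) :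
    h ∈ Ball S (c * ((2 * (X + c + M) + 1) * (KK r + 1))) := by
  have hB := G.hB
  have hΛ := G.lam
  have := ball_comp G.gen (sweep G.d0 r (X + c + M) h.u h.τ (fun x hx => by
    have := hh.u x hx
    push_cast; omega) (fun x z hx => by
    obtain ⟨h1, h2, h3⟩ := hh.τ x z hx
    refine ⟨by push_cast; omega, h3, ?_⟩
    have h4 := G.d1 (z - x)
    simp only [h3, ne_eq, not_false_eq_true, forall_const] at h4
    rw [abs_lt] at h1 h2
    omega))
  convert this using 1
  ext x z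
  · rfl
  · rfl
  · exact hh.p

/-- every element of the family has a word of length at most `n` with at least `s` visits -/
def Good (S : Set (W d)) (r c X M : ℕ) (B : ℤ) (s n : ℕ) : Prop :=
  ∀ h, Fam B h → ∃ θ s' n' q, s ≤ s' ∧ n' ≤ n ∧ Sw S X c θ false s' n' q ∧ Rel B M r q h

theorem Good.mono {s n n' : ℕ} (h : Good S r c X M B s n) (hn : n ≤ n') :
    Good S r c X M B s n' := by
  intro g hg
  obtain ⟨θ, s', n', q, h1, h2, h3⟩ := h g hg
  exact ⟨θ, s', n', q, h1, by omega, h3⟩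

theorem good_zero (G : Geo d S r c X M Λ B) :
    Good S r c X M B 0 (c * ((2 * (X + c + M) + 1) * (KK r + 1))) := by
  intro h hh
  obtain ⟨n', h1, θ, s, h2⟩ :=
    exists_sw_mid (fun x hx => (G.small x hx).1) G.cX (fam_mem G hh) hh.p
  exact ⟨θ, s, n', h, by omega, h1, h2, rfl, fun _ _ _ => rfl, fun _ _ _ _ => rfl⟩

section fast
variable {g : W d} {v N : ℕ} (hg : Letter S g) (hgv : g.p = v) (hX : X = v * N)
include hg hgv hX

theorem Good.succ {s n : ℕ} (h : Good S r c X M B s n) :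
    Good S r c X M B (s + 1) (n + 2 * N) := by
  intro y hy
  obtain ⟨θ, s', n', q, h1, h2, h3, h4⟩ := h y hy
  exact ⟨θ, s' + 1, n' + 2 * N, q, by omega, by omega, h3.prepend hg hgv hX, h4⟩

theorem rim (G : Geo d S r c X M Λ B) {m n smax : ℕ} (hm : m ≤ M + 1)
    (hgood : Good S r c X M B (2 * m) n)
    (hsm : ∀ θ s n' q, Sw S X c θ false s n' q → n' ≤ n → s + 2 ≤ smax)
    (hn : c * (n + 3 * N) + c + B + 2 * M ≤ Λ) {y : W d} (hy : Pk B M m y) (h1 : X < |y.p|)
    (h2 : |y.p| ≤ X + c) : y ∈ Ball S (n + 3 * N + 2 * smax * Th r c M + c * c) := by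
  obtain ⟨θ, hθ⟩ : ∃ θ, |y.p| = sg θ * y.p := by
    rcases le_or_gt 0 y.p with h | h
    · exact ⟨true, by simp [abs_of_nonneg h]⟩
    · exact ⟨false, by simp [abs_of_neg h]⟩
  set y1 := y * sh d (sg θ * X - y.p) with hy1
  have p1 : y1.p = sg θ * X := by simp [hy1]
  have k1 : Pk B M m y1 := ⟨by simpa [hy1] using hy.u, by simpa [hy1] using hy.τ⟩
  have k2 : Pk B M m (y1 * dir g (!θ) ^ N) :=
    iter (X := X) (Φ := fun _ q => Pk B M m q) (fun _ q hq hp => hq.letter G (hg.dir _) hp) k1 N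
      (go_bound hgv hX (!θ) _ N (by rw [p1, sg_not, hX]; push_cast; ring) le_rfl)
  have p2 : (y1 * dir g (!θ) ^ N).p = 0 := by
    rw [mul_p, pow_p, dir_p, p1, sg_not, hgv, hX]; push_cast; ring
  obtain ⟨h, h3, h4⟩ := exists_fam G hm k2 p2
  obtain ⟨θ', s, n', q, h5, h6, h7, h8⟩ := hgood h h3
  have h9 := h8.trans h4
  have h10 := h7.extend hg hgv hX (h9.p.trans p2) θ
  have h11 : Rel B M r (q * dir g θ ^ N) (y1 * dir g (!θ) ^ N * dir g θ ^ N) :=
    iter (X := X) (Φ := fun i q' => Rel B M r (q * dir g θ ^ i) q') (fun i q' hq hp => by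
      rw [pow_succ, ← mul_assoc]
      exact hq.letter G (hg.dir _) hp) (by simpa using h9) N
      (go_bound hgv hX θ _ 0 (by simp [p2]) (by omega))
  rw [dir_not, inv_pow, inv_mul_cancel_right] at h11
  have h12 := upper G h10 (by push_cast; nlinarith) hm (by omega) k1 h11
  have h13 : y = y1 * sh d (y.p - sg θ * X) := by
    rw [hy1, mul_assoc, ← sh_add]
    simp [sh_zero]
  have h14 := sh_mem_ball (G.gen _ (by simp [std])) c (y.p - sg θ * X) (by
    rw [← abs_sg θ, mul_sub, sg_sg, abs_le]; omega)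
  rw [h13]
  refine ball_mono ?_ (mul_mem_ball h12 h14)
  have := hsm _ _ _ _ h7 h6
  have := Nat.mul_le_mul_right (Th r c M) (Nat.mul_le_mul_left 2 this)
  omega

end fast

/-- the deep element -/
theorem deep (G : Geo d S r c X M Λ B) {m n : ℕ} (hm1 : 1 ≤ m) (hm : m ≤ M + 1)
    (hbad : ¬ Good S r c X M B (2 * m + 2) n) :
    ∃ g0 h, Fam B h ∧ Rel B M r h g0 ∧ Pk B M m g0 ∧ g0.p = 0 ∧ g0 ∉ Ball S n := by
  have hB := G.hB
  unfold Good at hbad
  push Not at hbad
  obtain ⟨h, h1, h2⟩ := hbad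
  have hu : ∀ x, B ≤ |x| → h.u x = 0 := fun x hx => by
    by_contra h3
    have := h1.u x h3
    omega
  have hτ : ∀ x z, B ≤ |z| → h.τ x z = 0 := fun x z hx => by
    by_contra h3
    have := h1.τ x z h3
    omega
  set g0 : W d := ⟨h.u, fun x z => h.τ x z +
    if -B - M ≤ x ∧ x < -B - M + m ∧ z = x + (2 * B + M) then 1 else 0, 0⟩ with hg0
  have hrel : Rel B M r h g0 := by
    refine ⟨h1.p, fun _ _ _ => rfl, fun x z a b => ?_⟩
    have : ¬ (-B - M ≤ x ∧ x < -B - M + m ∧ z = x + (2 * B + M)) := by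
      unfold Bri CL at b
      omega
    simp only [hg0, this, if_false, add_zero]
  refine ⟨g0, h, h1, hrel, ⟨fun x hx => ?_, fun x z hx => ?_⟩, rfl, fun h3 => ?_⟩
  · have := abs_lt.1 (h1.u x hx)
    omega
  · by_cases h3 : h.τ x z = 0
    · have h4 : -B - M ≤ x ∧ x < -B - M + m ∧ z = x + (2 * B + M) := by
        by_contra h4
        simp only [hg0, h3, h4, if_false, add_zero] at hx
        exact hx rfl
      refine ⟨h4.1, by omega, ?_⟩
      rw [G.d2 _ (by omega) (by omega)]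
      exact one_ne_zero
    · obtain ⟨h4, h5, h6⟩ := h1.τ x z h3
      rw [abs_lt] at h4 h5
      exact ⟨by omega, by omega, h6⟩
  · obtain ⟨n', h4, θ, s, h5⟩ := exists_sw_mid (fun x hx => (G.small x hx).1) G.cX h3 rfl
    refine h2 θ s n' g0 (lower G h5 hm1 hm (fun i hi => hu _ ?_) (fun i hi => hu _ ?_)
      (fun i hi => ?_) (fun i j hi hj => ?_)) h4 h5 hrel.symm
    · rw [le_abs]; omega
    · rw [le_abs]; omega
    · have : -B - M ≤ -B - M + i ∧ -B - M + i < -B - M + m ∧ B + i = -B - M + i + (2 * B + M) := by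
        omega
      simp only [hg0, this, and_self, if_true]
      rw [hτ _ _ (by rw [le_abs]; omega), zero_add]
    · have : ¬ (-B - M ≤ -B - M + i ∧ -B - M + i < -B - M + m ∧
          B + j = -B - M + i + (2 * B + M)) := by omega
      simp only [hg0, this, if_false]
      rw [hτ _ _ (by rw [le_abs]; omega), zero_add]

end Pool.Agent.P.MP_ed39a4_al.RD
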