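import Mathlib
import Pool.Agent.P.MP_ed39a4_al.Ends

set_option autoImplicit false

namespace Pool.Agent.P.MP_ed39a4_al

open SimpleGraph

variable {G : Type} [Group G]

/-- radius of the sphere that gets disconnected -/
def nf (m D : ℕ) : ℕ := m * (D + 1 + m) + 1

/-- radius up to which the local splitting has to be visible -/
def Rf (m D : ℕ) : ℕ := m * (m * (m * (nf m D + m)) + nf m D + m) + m + m * (nf m D + m) + 2 * m + 1

/-- a local splitting at scale `m` -/
structure LocalSplit (a t : G) (p : G → ℤ) (m : ℕ) where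
  D : ℕ
  F : Set G
  c : G → ZMod 2
  F_ball : ∀ g ∈ F, g ∈ Ball {a, t} D
  F_p : ∀ g ∈ F, p g = 0
  c_a : ∀ g, c (g * a) = c g
  c_t : ∀ g ∈ Ball {a, t} (Rf m D), g ∉ F → c (g * t⁻¹) = c g
  c_ne : c t⁻¹ ≠ c 1

theorem LocalSplit.const {a t : G} {p : G → ℤ} {m : ℕ} (L : LocalSplit a t p m) {q e : ℕ}
    {u x : G} (hu : u ∈ Ball {a, t} e) (hu2 : u ∉ Ball {a, t} (L.D + 1 + q))
    (hx : x ∈ Ball {a, t} q) (hR : e + q ≤ Rf m L.D) : L.c (u * x) = L.c u := by
  induction q generalizing x with
  | zero => rw [ball_zero hx, mul_one]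
  | succ q ih =>
    have hu' : u ∉ Ball {a, t} (L.D + 1 + q) := fun h => hu2 (ball_mono (by omega) h)
    rcases ball_succ hx with h1 | ⟨x', h1, y, hy, rfl⟩
    · exact ih hu' h1 (by omega)
    · rw [← ih hu' h1 (by omega), ← mul_assoc]
      have hv : u * x' ∉ L.F := by
        intro h
        apply hu2
        have := mul_mem_ball (L.F_ball _ h) (inv_mem_ball h1)
        rw [mul_inv_cancel_right] at this
        exact ball_mono (by omega) this
      have hw : u * x' * y ∉ L.F := by
        intro h
        apply hu2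
        have := mul_mem_ball (L.F_ball _ h) (inv_mem_ball hx)
        rw [mul_assoc u, mul_inv_cancel_right] at this
        exact ball_mono (by omega) this
      have hv2 : u * x' ∈ Ball {a, t} (Rf m L.D) := ball_mono (by omega) (mul_mem_ball hu h1)
      have hw2 : u * x' * y ∈ Ball {a, t} (Rf m L.D) := by
        rw [mul_assoc]; exact ball_mono (by omega) (mul_mem_ball hu hx)
      simp only [Set.mem_insert_iff, Set.mem_singleton_iff] at hy
      rcases hy with (h | h) | (h | h)
      · rw [h, L.c_a]
      · rw [← L.c_t _ hw2 hw, h]; simp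
      · rw [← L.c_a (u * x' * y), inv_eq_iff_eq_inv.1 h]; simp
      · rw [← L.c_t _ hv2 hv, inv_eq_iff_eq_inv.1 h]

theorem not_connectedSpheres {S : Finset G} (hS : Subgroup.closure (S : Set G) = ⊤) (a t : G)
    (hat : Subgroup.closure ({a, t} : Set G) = ⊤)
    {p : G → ℤ} (hp : ∀ x y, p (x * y) = p x + p y) (hpa : p a = 0) (hpt : p t = 1)
    (hL : ∀ m, Nonempty (LocalSplit a t p m)) : ¬ ConnectedSpheres S := by
  rintro ⟨R0, hR0⟩
  obtain ⟨C1, hC1⟩ := finite_subset_ball hS (T := {a, t}) (by simp)
  obtain ⟨C2, hC2⟩ := finite_subset_ball hat S.finite_toSet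
  set m := C1 + C2 + R0 with hm
  obtain ⟨L⟩ := hL m
  have h1 : ∀ s ∈ ({a, t} : Set G), s ∈ Ball (S : Set G) m :=
    fun s hs => ball_mono (by omega) (hC1 s hs)
  have h2 : ∀ s ∈ (S : Set G), s ∈ Ball ({a, t} : Set G) m :=
    fun s hs => ball_mono (by omega) (hC2 s hs)
  set n := nf m L.D with hn
  have hnpos : n = m * (L.D + 1 + m) + 1 := rfl
  set B := m * (m * (n + m)) + n + m with hB
  have hRf : Rf m L.D = m * B + m + m * (n + m) + 2 * m + 1 := rfl
  -- `c` is constant along edges of the annulus
  have hedge : ∀ g s, (s ∈ (S : Set G) ∨ s⁻¹ ∈ (S : Set G)) → n ≤ wordLength S g →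
      wordLength S g ≤ B → L.c (g * s) = L.c g := by
    intro g s hs hg1 hg2
    have hs' : s ∈ Ball ({a, t} : Set G) m := by
      simpa using ball_comp h2 (letter_mem_ball hs)
    refine L.const (e := m * B) (q := m) (ball_comp h2 ((wordLength_le_iff hS).1 hg2)) ?_ hs'
      (by omega)
    intro h
    have := (wordLength_le_iff hS).2 (ball_comp h1 h)
    omega
  have hK : {h : G | wordLength S h < n} = Ball (S : Set G) (n - 1) := by
    ext h
    rw [← wordLength_le_iff hS]
    simp only [Set.mem_ofPred_eq]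
    omega
  -- descent to the sphere of radius `n`
  have hdesc : ∀ l, n ≤ l → l ≤ B → ∀ g, wordLength S g = l →
      ∃ q, wordLength S q = n ∧ Conn (S : Set G) (Ball (S : Set G) (n - 1)) g q ∧
        L.c q = L.c g := by
    intro l hl
    induction l, hl using Nat.le_induction with
    | base =>
      intro _ g hg
      refine ⟨g, hg, Conn.refl ?_, rfl⟩
      rw [← wordLength_le_iff hS]; omega
    | succ l hl ih =>
      intro hlB g hg
      rcases ball_succ ((wordLength_le_iff hS).1 hg.le) with h | ⟨g', h, x, hx, rfl⟩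
      · rw [← wordLength_le_iff hS] at h; omega
      · have h3 : wordLength S g' = l := by
          have h4 := (wordLength_le_iff hS).2 h
          have h5 := (wordLength_le_iff hS).2
            (mul_mem_ball ((wordLength_le_iff hS).1 (le_refl (wordLength S g')))
              (letter_mem_ball hx))
          omega
        obtain ⟨q, hq1, hq2, hq3⟩ := ih (by omega) g' h3
        refine ⟨q, hq1, (Conn.step hq2.left ?_ hx).symm.trans hq2, ?_⟩
        · rw [← wordLength_le_iff hS]; omega
        · rw [hq3, hedge g' x hx (by omega) (by omega)]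
  -- points of the sphere on both sides
  have hpabs : ∀ s ∈ ({a, t} : Set G), |p s| ≤ (1 : ℕ) := by
    intro s hs
    rcases hs with h | h
    · rw [h, hpa]; simp
    · rw [Set.mem_singleton_iff.1 h, hpt]; simp
  set k := m * (n + m) with hk
  have hside : ∀ τ : G, (τ = t ∨ τ = t⁻¹) →
      ∃ q ∈ sphereInf S n 0, L.c q = L.c (τ ^ k) := by
    intro τ hτ
    have hτ1 : τ ∈ Ball ({a, t} : Set G) 1 := by
      apply letter_mem_ball
      rcases hτ with h | h
      · left; simp [h]
      · right; simp [h]
    have hτS : τ ∈ Ball (S : Set G) m := by simpa using ball_comp h1 hτ1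
    have hpτ : ∀ j : ℕ, |p (τ ^ j)| = j := by
      intro j
      rw [← zpow_natCast, p_zpow hp]
      rcases hτ with h | h
      · rw [h, hpt]; simp
      · rw [h, p_inv hp, hpt]; simp
    have hpowball : ∀ j : ℕ, τ ^ j ∈ Ball ({a, t} : Set G) j := by
      intro j
      induction j with
      | zero => simpa using one_mem_ball _ _
      | succ j ih => rw [pow_succ]; exact mul_mem_ball ih hτ1
    have hfar : ∀ j, k ≤ j → τ ^ j ∉ Ball (S : Set G) (n - 1 + m) := by
      intro j hj h
      have h3 := p_ball hp hpabs (ball_comp h2 h)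
      rw [hpτ] at h3
      have h4 : j ≤ 1 * (m * (n - 1 + m)) := by exact_mod_cast h3
      have h5 : n - 1 + m + 1 = n + m := by omega
      have h6 : m * (n + m) = m * (n - 1 + m) + m := by rw [← h5]; ring
      have h7 : m ≠ 0 := by
        intro h0
        rw [h0] at hτS
        have := hpτ 1
        rw [ball_zero hτS, one_pow, p_one hp] at this
        simp at this
      omega
    have hwl : n ≤ wordLength S (τ ^ k) := by
      have := hfar k le_rfl
      rw [← wordLength_le_iff hS] at this
      omega
    have hwl2 : wordLength S (τ ^ k) ≤ B := by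
      have := (wordLength_le_iff hS).2 (ball_comp h1 (hpowball k))
      omega
    obtain ⟨q, hq1, hq2, hq3⟩ := hdesc _ hwl hwl2 _ rfl
    refine ⟨q, ⟨hq1.ge, hq1.le, ?_⟩, hq3⟩
    unfold InInfiniteComponent
    rw [hK]
    refine ⟨(mulCayley (S : Set G)).componentComplMk hq2.left, ⟨hq2.right, hq2.comp_eq.symm⟩, ?_⟩
    have hinj : Function.Injective (fun j : ℕ => τ ^ k * τ ^ j) := by
      intro i j hij
      have h3 := congrArg (fun x => |p x|) (mul_left_cancel hij)
      simp only [hpτ] at h3
      exact_mod_cast h3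
    refine (Set.infinite_range_of_injective hinj).mono ?_
    rintro _ ⟨j, rfl⟩
    have hc := conn_line hτS (τ ^ k) j (fun i _ => by
      rw [← pow_add]; exact hfar _ (by omega)) hq2.left
    exact ⟨hc.right, hc.comp_eq.symm⟩
  have hkpos : 0 < k := by
    by_contra h0
    have h3 : m = 0 := by
      have : m * (n + m) = 0 := by omega
      rcases Nat.mul_eq_zero.1 this with h | h <;> omega
    have := h1 t (by simp)
    rw [h3] at this
    rw [ball_zero this, p_one hp] at hpt
    simp at hpt
  have hpowball : ∀ j : ℕ, t ^ j ∈ Ball ({a, t} : Set G) j := by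
    intro j
    induction j with
    | zero => simpa using one_mem_ball _ _
    | succ j ih => rw [pow_succ]; exact mul_mem_ball ih (letter_mem_ball (by simp))
  have hpt' : ∀ j : ℕ, p (t ^ j) = j := by
    intro j; rw [← zpow_natCast, p_zpow hp, hpt]; simp
  have hplus : ∀ j ≤ k, L.c (t ^ j) = L.c 1 := by
    intro j
    induction j with
    | zero => simp
    | succ j ih =>
      intro hj
      rw [← ih (by omega), ← L.c_t _ (ball_mono (by omega) (hpowball (j + 1)))
        (fun h => by have := L.F_p _ h; rw [hpt'] at this; omega), pow_succ]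
      simp
  have hminus : ∀ j, j + 1 ≤ k → L.c (t⁻¹ ^ (j + 1)) = L.c t⁻¹ := by
    intro j
    induction j with
    | zero => simp
    | succ j ih =>
      intro hj
      rw [← ih (by omega), pow_succ, L.c_t]
      · rw [inv_pow]; exact ball_mono (by omega) (inv_mem_ball (hpowball (j + 1)))
      · intro h
        have := L.F_p _ h
        rw [inv_pow, p_inv hp, hpt'] at this
        omega
  obtain ⟨q1, hq1, hc1⟩ := hside t (Or.inl rfl)
  obtain ⟨q2, hq2, hc2⟩ := hside t⁻¹ (Or.inr rfl)
  obtain ⟨r, hr, hconn⟩ := hR0 n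
  have hsub : sphereInf S n 0 ⊆ sphereInf S n r := fun g hg => ⟨hg.1, by have := hg.2.1; omega,
    hg.2.2⟩
  have hconst : ∀ u v : sphereInf S n r,
      ((mulCayley (S : Set G)).induce (sphereInf S n r)).Reachable u v → L.c u = L.c v := by
    rintro u v ⟨w⟩
    induction w with
    | nil => rfl
    | @cons x y z h _ ih =>
      rw [← ih]
      have h3 : (mulCayley (S : Set G)).Adj x.1 y.1 := h
      rw [mulCayley_adj] at h3
      have h4 := hedge x.1 (x.1⁻¹ * y.1) (by simpa using h3.2) x.2.1
        (by have := x.2.2.1; omega)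
      simpa using h4.symm
  have h5 := hconst ⟨q1, hsub hq1⟩ ⟨q2, hsub hq2⟩ (hconn _ _)
  simp only at h5
  obtain ⟨j, hj⟩ : ∃ j, k = j + 1 := ⟨k - 1, by omega⟩
  rw [hc1, hc2, hplus k le_rfl, hj, hminus j (by omega)] at h5
  exact L.c_ne h5.symm

end Pool.Agent.P.MP_ed39a4_al
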