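import Mathlib
import Pool.Agent.P.MP_ed39a4_al.Spheres

set_option autoImplicit false

namespace Pool.Agent.P.MP_ed39a4_al

theorem exists_perm_of_ncard {Q : Type} (P P' : Set Q) (hP : P.Finite) (hP' : P'.Finite)
    (h : P.ncard = P'.ncard) :
    ∃ σ : Equiv.Perm Q, (∀ q ∈ P, q ∈ P' → σ q = q) ∧ ∀ q, q ∈ P ↔ σ q ∈ P' := by
  classical
  have := hP.fintype
  have hc : Fintype.card P = hP'.toFinset.card := by
    rw [← Set.ncard_eq_toFinset_card P' hP', ← h, ← Nat.card_eq_fintype_card]; rfl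
  obtain ⟨g, hg⟩ := Set.MapsTo.exists_equiv_extend_of_card_eq (α := P) hc
    (s := {x : P | x.1 ∈ P'}) (f := Subtype.val) (fun x hx => by simpa using hx)
    (Subtype.val_injective.injOn)
  obtain ⟨σ, hσ⟩ := Equiv.Perm.exists_extending_pair (α := P) (f := Subtype.val)
    (g := fun x => (g x : Q)) Subtype.val_injective (Subtype.val_injective.comp g.injective)
  refine ⟨σ, fun q hq hq' => ?_, fun q => ⟨fun hq => ?_, fun hq => ?_⟩⟩
  · rw [hσ ⟨q, hq⟩]; exact hg ⟨q, hq⟩ hq'
  · rw [hσ ⟨q, hq⟩]; exact hP'.mem_toFinset.1 (g ⟨q, hq⟩).2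
  · obtain ⟨x, hx⟩ := g.surjective ⟨σ q, by simpa using hq⟩
    have h1 := hσ x
    rw [hx] at h1
    rw [← σ.injective h1]; exact x.2

variable {Γ : Type} [Group Γ]

section cosets
variable (F : Subgroup Γ)

abbrev RQ := Quotient (QuotientGroup.rightRel F)

def rq (x : Γ) : RQ F := Quotient.mk _ x

theorem rq_eq {x y : Γ} : rq F x = rq F y ↔ y * x⁻¹ ∈ F := by
  unfold rq; rw [Quotient.eq, QuotientGroup.rightRel_apply]

theorem rq_out (q : RQ F) : rq F q.out = q := Quotient.out_eq q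

theorem mem_out (x : Γ) : x * (rq F x).out⁻¹ ∈ F := (rq_eq F).1 (rq_out F _)

theorem rq_mul {f : Γ} (hf : f ∈ F) (x : Γ) : rq F (f * x) = rq F x := by
  rw [rq_eq]; simpa using hf

theorem ncard_invariant (X : Set Γ) (hX : ∀ f ∈ F, ∀ x ∈ X, f * x ∈ X) :
    X.ncard = Nat.card F * (rq F '' X).ncard := by
  have e : X ≃ F × (rq F '' X) :=
    { toFun := fun x => (⟨x.1 * (rq F x.1).out⁻¹, mem_out F _⟩, ⟨rq F x.1, x.1, x.2, rfl⟩)
      invFun := fun y => ⟨y.1.1 * y.2.1.out, by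
        obtain ⟨x, hx, hq⟩ := y.2.2
        have h1 : y.2.1.out * x⁻¹ ∈ F := (rq_eq F).1 (by rw [rq_out]; exact hq)
        have := hX _ (F.mul_mem y.1.2 h1) x hx
        simpa [mul_assoc] using this⟩
      left_inv := fun x => by simp
      right_inv := fun y => by
        have h1 : rq F (y.1.1 * y.2.1.out) = y.2.1 := by rw [rq_mul F y.1.2, rq_out]
        ext
        · simp [h1]
        · simp [h1] }
  rw [← Nat.card_coe_set_eq, Nat.card_congr e, Nat.card_prod, Nat.card_coe_set_eq]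

noncomputable def liftFun (τ : RQ F → RQ F) (x : Γ) : Γ :=
  x * (rq F x).out⁻¹ * (τ (rq F x)).out

theorem rq_liftFun (τ : RQ F → RQ F) (x : Γ) : rq F (liftFun F τ x) = τ (rq F x) := by
  unfold liftFun; rw [rq_mul F (mem_out F x), rq_out]

theorem liftFun_liftFun (τ τ' : RQ F → RQ F) (h : ∀ q, τ' (τ q) = q) (x : Γ) :
    liftFun F τ' (liftFun F τ x) = x := by
  have := rq_liftFun F τ x
  unfold liftFun at this ⊢
  rw [this, h]; group

noncomputable def liftPerm (τ : Equiv.Perm (RQ F)) : Equiv.Perm Γ where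
  toFun := liftFun F τ
  invFun := liftFun F τ.symm
  left_inv := liftFun_liftFun F _ _ (by simp)
  right_inv := liftFun_liftFun F _ _ (by simp)

theorem exists_sigma [Finite F] (X X' : Set Γ) (hX : X.Finite) (hX' : X'.Finite)
    (hc : X.ncard = X'.ncard) (h1 : ∀ f ∈ F, ∀ x ∈ X, f * x ∈ X)
    (h2 : ∀ f ∈ F, ∀ x ∈ X', f * x ∈ X') :
    ∃ σ : Equiv.Perm Γ, (∀ f ∈ F, ∀ x, σ (f * x) = f * σ x) ∧ (∀ x ∈ X, x ∈ X' → σ x = x) ∧
      ∀ x, x ∈ X ↔ σ x ∈ X' := by
  have hc' : (rq F '' X).ncard = (rq F '' X').ncard := by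
    rw [ncard_invariant F X h1, ncard_invariant F X' h2] at hc
    exact Nat.eq_of_mul_eq_mul_left Nat.card_pos hc
  obtain ⟨τ, ht1, ht2⟩ := exists_perm_of_ncard _ _ (hX.image _) (hX'.image _) hc'
  have hmem : ∀ (Y : Set Γ), (∀ f ∈ F, ∀ x ∈ Y, f * x ∈ Y) → ∀ x, x ∈ Y ↔ rq F x ∈ rq F '' Y := by
    intro Y hY x
    refine ⟨fun hx => ⟨x, hx, rfl⟩, ?_⟩
    rintro ⟨y, hy, h⟩
    simpa using hY _ ((rq_eq F).1 h) y hy
  refine ⟨liftPerm F τ, fun f hf x => ?_, fun x hx hx' => ?_, fun x => ?_⟩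
  · show liftFun F τ (f * x) = f * liftFun F τ x
    unfold liftFun
    rw [rq_mul F hf]; group
  · show liftFun F τ x = x
    unfold liftFun
    rw [ht1 _ ⟨x, hx, rfl⟩ ⟨x, hx', rfl⟩]; group
  · show _ ↔ liftFun F τ x ∈ X'
    rw [hmem X h1, hmem X' h2, rq_liftFun, ht2]

end cosets

def bk (a t : Γ) (k : ℕ) : Γ := t ^ k * a * (t ^ k)⁻¹

def HH (a t : Γ) (i : ℕ) : Subgroup Γ := Subgroup.closure {g | ∃ k < i, g = bk a t k}

theorem bk_zero (a t : Γ) : bk a t 0 = a := by simp [bk]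

theorem bk_succ (a t : Γ) (k : ℕ) : bk a t (k + 1) = t * bk a t k * t⁻¹ := by
  unfold bk; group

theorem bk_mem (a t : Γ) {k i : ℕ} (h : k < i) : bk a t k ∈ HH a t i :=
  Subgroup.subset_closure ⟨k, h, rfl⟩

theorem HH_mono (a t : Γ) {i j : ℕ} (h : i ≤ j) : HH a t i ≤ HH a t j :=
  Subgroup.closure_mono (fun _ ⟨k, hk, hg⟩ => ⟨k, by omega, hg⟩)

theorem conj_mem_HH (a t : Γ) {i : ℕ} {h : Γ} (hh : h ∈ HH a t i) :
    t * h * t⁻¹ ∈ HH a t (i + 1) := by
  induction hh using Subgroup.closure_induction with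
  | mem x hx =>
    obtain ⟨k, hk, rfl⟩ := hx
    rw [← bk_succ]; exact bk_mem a t (by omega)
  | one => simp
  | mul x y _ _ hx hy =>
    have := (HH a t (i + 1)).mul_mem hx hy
    simpa [mul_assoc] using this
  | inv x _ hx =>
    have := (HH a t (i + 1)).inv_mem hx
    simpa [mul_assoc] using this

theorem map_bk {G : Type} [Group G] (f : G →* Γ) (a t : G) (k : ℕ) :
    f (bk a t k) = bk (f a) (f t) k := by simp [bk]

theorem map_HH {G : Type} [Group G] (f : G →* Γ) (a t : G) (i : ℕ) :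
    (HH a t i).map f = HH (f a) (f t) i := by
  unfold HH
  rw [MonoidHom.map_closure]
  congr 1
  ext g
  constructor
  · rintro ⟨_, ⟨k, hk, rfl⟩, rfl⟩; exact ⟨k, hk, map_bk f a t k⟩
  · rintro ⟨k, hk, rfl⟩; exact ⟨_, ⟨k, hk, rfl⟩, map_bk f a t k⟩

theorem bk_mem_ball (a t : Γ) (k : ℕ) : bk a t k ∈ Ball {a, t} (2 * k + 1) := by
  induction k with
  | zero => rw [bk_zero]; exact letter_mem_ball (by simp)
  | succ k ih =>
    rw [bk_succ]
    have h1 : t ∈ Ball ({a, t} : Set Γ) 1 := letter_mem_ball (by simp)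
    exact ball_mono (by omega) (mul_mem_ball (mul_mem_ball h1 ih) (inv_mem_ball h1))

abbrev Phi := FreeGroup Bool
def fa : Phi := FreeGroup.of false
def ft : Phi := FreeGroup.of true

/-- left multiplication on the first coordinate -/
def lam : Γ →* Equiv.Perm (Γ × ZMod 2) where
  toFun g := (Equiv.mulLeft g).prodCongr (Equiv.refl _)
  map_one' := by ext x <;> simp
  map_mul' g h := by ext x <;> simp [mul_assoc]

theorem lam_apply (g : Γ) (z : Γ × ZMod 2) : lam g z = (g * z.1, z.2) := rfl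

open Classical in
/-- the twisted permutation for `t` -/
noncomputable def tau (F : Subgroup Γ) (t : Γ) (σ : Equiv.Perm Γ) : Equiv.Perm (Γ × ZMod 2) where
  toFun z := (t * σ z.1, z.2 + if z.1 ∈ F then 1 else 0)
  invFun z := (σ.symm (t⁻¹ * z.1), z.2 - if σ.symm (t⁻¹ * z.1) ∈ F then 1 else 0)
  left_inv z := by simp
  right_inv z := by simp

open Classical in
theorem tau_apply (F : Subgroup Γ) (t : Γ) (σ : Equiv.Perm Γ) (z : Γ × ZMod 2) :
    tau F t σ z = (t * σ z.1, z.2 + if z.1 ∈ F then 1 else 0) := rfl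

theorem step_group (ev : Phi →* Γ) (i R : ℕ) [hA : Finite (HH (ev fa) (ev ft) (i + 1))] :
    ∃ (M : Subgroup Phi) (_ : M.Normal) (_ : M.FiniteIndex) (c : Phi → ZMod 2),
      (∀ h ∈ HH fa ft (i + 1), ev h = 1 → h ∈ M) ∧
      (∀ w, ∀ m ∈ M, c (w * m) = c w) ∧
      (∀ h ∈ HH fa ft (i + 1), ∀ w, c (h * w) = c w) ∧
      (∀ w ∈ Ball {fa, ft} R, ev w ∉ HH (ev fa) (ev ft) i → c (ft * w) = c w) ∧
      c ft ≠ c 1 := by
  classical
  set a := ev fa with ha
  set t := ev ft with ht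
  set A := HH a t (i + 1) with hAdef
  set F := HH a t i with hF
  have hFA : F ≤ A := HH_mono a t (by omega)
  have : Finite F := Finite.of_injective _ (Subgroup.inclusion_injective hFA)
  set X : Set Γ := Set.image2 (· * ·) (A : Set Γ) (Ball {a, t} R) with hX
  have hXf : X.Finite := (Set.toFinite (A : Set Γ)).image2 _ (ball_finite (by simp) R)
  have hXA : ∀ f ∈ A, ∀ x ∈ X, f * x ∈ X := by
    rintro f hf _ ⟨α, hα, y, hy, rfl⟩
    exact ⟨f * α, A.mul_mem hf hα, y, hy, by simp [mul_assoc]⟩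
  have hXA' : ∀ f ∈ A, ∀ x, x ∈ X ↔ f * x ∈ X := fun f hf x =>
    ⟨hXA f hf x, fun h => by simpa using hXA _ (A.inv_mem hf) _ h⟩
  have hXB : ∀ y ∈ Ball ({a, t} : Set Γ) R, y ∈ X := fun y hy => ⟨1, A.one_mem, y, hy, by simp⟩
  set X' : Set Γ := (fun x => t * x) ⁻¹' X with hX'
  have hX'2 : X' = (fun x => t⁻¹ * x) '' X := by
    ext x
    constructor
    · intro h; exact ⟨t * x, h, by simp⟩
    · rintro ⟨y, hy, rfl⟩; simpa [hX'] using hy
  obtain ⟨σ, hs1, hs2, hs3⟩ := exists_sigma F X X' hXf (by rw [hX'2]; exact hXf.image _)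
    (by rw [hX'2, Set.ncard_image_of_injective _ (mul_right_injective _)])
    (fun f hf => hXA f (hFA hf)) (by
      intro f hf x hx
      have := hXA _ (conj_mem_HH a t hf) _ hx
      simpa [hX', mul_assoc] using this)
  set ρ : Phi →* Equiv.Perm (Γ × ZMod 2) :=
    FreeGroup.lift (fun b => if b then tau F t σ else lam a) with hρ
  have hρa : ρ fa = lam a := by simp [hρ, fa]
  have hρt : ρ ft = tau F t σ := by simp [hρ, ft]
  have hconj : ∀ f ∈ F, tau F t σ * lam f * (tau F t σ)⁻¹ = lam (t * f * t⁻¹) := by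
    intro f hf
    rw [mul_inv_eq_iff_eq_mul]
    ext z
    · simp only [Equiv.Perm.mul_apply, tau_apply, lam_apply, hs1 f hf]; group
    · simp only [Equiv.Perm.mul_apply, tau_apply, lam_apply, F.mul_mem_cancel_left hf]
  have hbk : ∀ k < i + 1, ρ (bk fa ft k) = lam (bk a t k) := by
    intro k
    induction k with
    | zero => intro _; rw [bk_zero, bk_zero, hρa]
    | succ k ih =>
      intro hk
      rw [bk_succ, bk_succ, map_mul, map_mul, map_inv, ih (by omega), hρt,
        hconj _ (bk_mem a t (by omega))]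
  have hH : ∀ h ∈ HH fa ft (i + 1), ρ h = lam (ev h) := by
    intro h hh
    induction hh using Subgroup.closure_induction with
    | mem x hx => obtain ⟨k, hk, rfl⟩ := hx; rw [hbk k hk, map_bk ev]
    | one => simp
    | mul x y _ _ hx hy => simp [hx, hy]
    | inv x _ hx => simp [hx]
  have hinv : ∀ w, ∀ z : Γ × ZMod 2, (ρ w z).1 ∈ X ↔ z.1 ∈ X := by
    intro w
    induction w using FreeGroup.induction_on with
    | C1 => simp
    | of b =>
      intro z
      cases b
      · change (ρ fa z).1 ∈ X ↔ _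
        rw [hρa, lam_apply]
        exact (hXA' a (by simpa [bk_zero] using bk_mem a t (k := 0) (i := i + 1) (by omega)) _).symm
      · change (ρ ft z).1 ∈ X ↔ _
        rw [hρt, tau_apply]
        exact (hs3 z.1).symm
    | inv_of b ih =>
      intro z
      rw [← ih (ρ (FreeGroup.of b)⁻¹ z)]
      simp
    | mul x y hx hy => intro z; rw [map_mul, Equiv.Perm.mul_apply, hx, hy]
  let ρ' : Phi →* Equiv.Perm {z : Γ × ZMod 2 // z.1 ∈ X} :=
    { toFun := fun w => (ρ w).subtypePerm (hinv w)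
      map_one' := by ext z <;> simp
      map_mul' := fun x y => by ext z <;> simp }
  have hZ : Finite {z : Γ × ZMod 2 // z.1 ∈ X} := by
    have := hXf.to_subtype
    exact Finite.of_injective (fun z => ((⟨z.1.1, z.2⟩ : X), z.1.2))
      (fun z w h => by simp at h; exact Subtype.ext (Prod.ext h.1 h.2))
  have hfirst : ∀ n ≤ R, ∀ w ∈ Ball {fa, ft} n, (ρ w (1, 0)).1 = ev w := by
    intro n
    induction n with
    | zero => intro _ w hw; rw [ball_zero hw]; simp
    | succ n ih =>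
      intro hn w hw
      rcases ball_succ' hw with h1 | ⟨w', h1, x, hx, rfl⟩
      · exact ih (by omega) w h1
      · have h2 := ih (by omega) w' h1
        have hm : ∀ s ∈ ({fa, ft} : Set Phi), ev s ∈ ({a, t} : Set Γ) := by
          intro s hs
          rcases hs with h | h
          · rw [h]; simp [ha]
          · rw [Set.mem_singleton_iff.1 h]; simp [ht]
        have h3 : ev w' ∈ X := hXB _ (ball_mono (by omega) (map_mem_ball ev hm h1))
        have h4 : ev (x * w') ∈ X := hXB _ (ball_mono hn (map_mem_ball ev hm hw))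
        rw [map_mul, Equiv.Perm.mul_apply, map_mul]
        rw [map_mul] at h4
        simp only [Set.mem_insert_iff, Set.mem_singleton_iff] at hx
        rcases hx with (h | h) | (h | h)
        · rw [h, hρa, lam_apply, h2]
        · rw [h] at h4
          rw [h, hρt, tau_apply, h2, hs2 _ h3 h4]
        · rw [inv_eq_iff_eq_inv.1 h, map_inv, hρa, ← map_inv, lam_apply, h2, map_inv]
        · rw [inv_eq_iff_eq_inv.1 h] at h4 ⊢
          rw [map_inv] at h4
          rw [map_inv, hρt, map_inv]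
          have h5 : σ (t⁻¹ * ev w') = t⁻¹ * ev w' := hs2 _ h4 (by simpa [hX'] using h3)
          change σ.symm (t⁻¹ * (ρ w' (1, 0)).1) = _
          rw [h2, Equiv.symm_apply_eq, h5]
  refine ⟨ρ'.ker, inferInstance, inferInstance, fun w => (ρ w (1, 0)).2, ?_, ?_, ?_, ?_, ?_⟩
  · intro h hh h1
    rw [MonoidHom.mem_ker]
    ext z
    · simp [ρ', hH h hh, h1]
    · simp [ρ', hH h hh, h1]
  · intro w m hm
    have h1 : ρ m (1, 0) = (1, 0) := by
      have := congrArg (fun π : Equiv.Perm {z : Γ × ZMod 2 // z.1 ∈ X} =>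
        (π ⟨(1, 0), hXB 1 (one_mem_ball _ _)⟩).1) (MonoidHom.mem_ker.1 hm)
      simpa [ρ'] using this
    simp [h1]
  · intro h hh w
    simp [hH h hh, lam_apply]
  · intro w hw hw2
    simp only [map_mul, Equiv.Perm.mul_apply, hρt, tau_apply, hfirst R le_rfl w hw]
    simp [hw2]
  · simp [hρt, tau_apply]

end Pool.Agent.P.MP_ed39a4_al
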