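import Mathlib
import Pool.Agent.P.MP_ed39a4_al.Step

set_option autoImplicit false

namespace Pool.Agent.P.MP_ed39a4_al

def NN (M : Subgroup Phi) (i : ℕ) : Subgroup Phi :=
  Subgroup.normalClosure ((M ⊓ HH fa ft (i + 1) : Subgroup Phi) : Set Phi)

instance (M : Subgroup Phi) (i : ℕ) : (NN M i).Normal := Subgroup.normalClosure_normal

theorem closure_fa_ft : Subgroup.closure ({fa, ft} : Set Phi) = ⊤ := by
  rw [← FreeGroup.closure_range_of]
  congr 1
  ext x
  simp only [Set.mem_insert_iff, Set.mem_singleton_iff, Set.mem_range, Bool.exists_bool, fa, ft]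
  constructor
  · rintro (h | h) <;> simp [h]
  · rintro (h | h) <;> simp [h]

theorem closure_map {Γ : Type} [Group Γ] (ev : Phi →* Γ) (hev : Function.Surjective ev) :
    Subgroup.closure ({ev fa, ev ft} : Set Γ) = ⊤ := by
  rw [← Set.image_pair, ← MonoidHom.map_closure, closure_fa_ft]
  exact Subgroup.map_top_of_surjective _ hev

theorem finite_HH {Γ : Type} [Group Γ] (ev : Phi →* Γ) (M : Subgroup Phi) [M.FiniteIndex]
    (j : ℕ) (h : ∀ x ∈ M, x ∈ HH fa ft j → ev x = 1) : Finite (HH (ev fa) (ev ft) j) := by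
  rw [← map_HH]
  let f : HH fa ft j →* Γ := ev.comp (HH fa ft j).subtype
  have h1 : M.subgroupOf (HH fa ft j) ≤ f.ker := fun x hx => h x.1 hx x.2
  have h2 : f.ker.FiniteIndex := Subgroup.finiteIndex_of_le h1
  have h3 : Finite f.range := by
    apply Nat.finite_of_card_ne_zero
    rw [← Subgroup.index_ker]
    exact h2.index_ne_zero
  have h4 : f.range = (HH fa ft j).map ev := by
    simp only [f, MonoidHom.range_comp, Subgroup.range_subtype]
  rw [← h4]
  exact h3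

theorem step_free (i : ℕ) (M : FiniteIndexNormalSubgroup Phi) :
    ∃ M' : FiniteIndexNormalSubgroup Phi, M'.toSubgroup ≤ M.toSubgroup ∧
      NN M.toSubgroup i ≤ M'.toSubgroup ∧ ∃ (D : ℕ) (c : Phi → ZMod 2),
      (∀ h ∈ HH fa ft i, ∃ w ∈ Ball {fa, ft} D, w⁻¹ * h ∈ NN M.toSubgroup i) ∧
      (∀ w, ∀ m ∈ M'.toSubgroup, c (w * m) = c w) ∧
      (∀ h ∈ HH fa ft (i + 1), ∀ w, c (h * w) = c w) ∧
      (∀ w ∈ Ball {fa, ft} (Rf i D), (∀ h ∈ HH fa ft i, h⁻¹ * w ∉ NN M.toSubgroup i) →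
        c (ft * w) = c w) ∧
      c ft ≠ c 1 := by
  set N := NN M.toSubgroup i with hN
  let ev : Phi →* Phi ⧸ N := QuotientGroup.mk' N
  have hev : Function.Surjective ev := QuotientGroup.mk'_surjective N
  have hker : ∀ x, ev x = 1 ↔ x ∈ N := fun x => QuotientGroup.eq_one_iff x
  have heq : ∀ x y, ev x = ev y ↔ x⁻¹ * y ∈ N := fun x y => QuotientGroup.eq
  have hA : Finite (HH (ev fa) (ev ft) (i + 1)) := finite_HH ev M.toSubgroup (i + 1)
    (fun x h1 h2 => (hker x).2 (Subgroup.subset_normalClosure ⟨h1, h2⟩))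
  have hF : Finite (HH (ev fa) (ev ft) i) :=
    Finite.of_injective _ (Subgroup.inclusion_injective (HH_mono _ _ (Nat.le_succ i)))
  obtain ⟨D, hD⟩ := finite_subset_ball (closure_map ev hev)
    (Set.toFinite (HH (ev fa) (ev ft) i : Set (Phi ⧸ N)))
  obtain ⟨M1, hn, hf, c, h1, h2, h3, h4, h5⟩ := step_group ev i (Rf i D)
  have hNM : N ≤ M.toSubgroup := Subgroup.normalClosure_le_normal (fun x hx => hx.1)
  have hNM1 : N ≤ M1 := Subgroup.normalClosure_le_normal (fun x hx =>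
    h1 x hx.2 ((hker x).2 (Subgroup.subset_normalClosure hx)))
  refine ⟨.ofSubgroup (M.toSubgroup ⊓ M1), inf_le_left, le_inf hNM hNM1, D, c, ?_,
    fun w m hm => h2 w m hm.2, h3, ?_, h5⟩
  · intro h hh
    have h6 : ev h ∈ HH (ev fa) (ev ft) i := by rw [← map_HH]; exact ⟨h, hh, rfl⟩
    obtain ⟨w, hw, hw2⟩ := exists_lift_ball ev (S := {fa, ft}) (by
      intro s hs
      rcases hs with h7 | h7
      · exact ⟨fa, by simp, h7.symm⟩
      · exact ⟨ft, by simp, (Set.mem_singleton_iff.1 h7).symm⟩) (hD _ h6)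
    exact ⟨w, hw, (heq _ _).1 hw2⟩
  · intro w hw hw2
    refine h4 w hw (fun h => ?_)
    rw [← map_HH] at h
    obtain ⟨x, hx, hx2⟩ := h
    exact hw2 x hx ((heq _ _).1 hx2)

def sgn0 : Phi →* Multiplicative (ZMod 2) :=
  FreeGroup.lift (fun b => if b then 1 else Multiplicative.ofAdd 1)

def deg0 : Phi →* Multiplicative ℤ :=
  FreeGroup.lift (fun b => if b then Multiplicative.ofAdd 1 else 1)

noncomputable def MM : ℕ → FiniteIndexNormalSubgroup Phi
  | 0 => .ofSubgroup sgn0.ker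
  | i + 1 => Classical.choose (step_free i (MM i))

theorem MM_spec (i : ℕ) : (MM (i + 1)).toSubgroup ≤ (MM i).toSubgroup ∧
      NN (MM i).toSubgroup i ≤ (MM (i + 1)).toSubgroup ∧ ∃ (D : ℕ) (c : Phi → ZMod 2),
      (∀ h ∈ HH fa ft i, ∃ w ∈ Ball {fa, ft} D, w⁻¹ * h ∈ NN (MM i).toSubgroup i) ∧
      (∀ w, ∀ m ∈ (MM (i + 1)).toSubgroup, c (w * m) = c w) ∧
      (∀ h ∈ HH fa ft (i + 1), ∀ w, c (h * w) = c w) ∧
      (∀ w ∈ Ball {fa, ft} (Rf i D), (∀ h ∈ HH fa ft i, h⁻¹ * w ∉ NN (MM i).toSubgroup i) →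
        c (ft * w) = c w) ∧
      c ft ≠ c 1 := Classical.choose_spec (step_free i (MM i))

theorem MM_anti {i j : ℕ} (h : i ≤ j) : (MM j).toSubgroup ≤ (MM i).toSubgroup := by
  induction j, h using Nat.le_induction with
  | base => exact le_rfl
  | succ j _ ih => exact (MM_spec j).1.trans ih

theorem NN_mono {i j : ℕ} (h : i ≤ j) : NN (MM i).toSubgroup i ≤ NN (MM j).toSubgroup j := by
  induction j, h using Nat.le_induction with
  | base => exact le_rfl
  | succ j _ ih =>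
    refine ih.trans (Subgroup.normalClosure_mono (fun x hx => ⟨?_, ?_⟩))
    · exact (MM_spec j).2.1 (Subgroup.subset_normalClosure hx)
    · exact HH_mono _ _ (by omega) hx.2

theorem NN_le (i j : ℕ) : NN (MM i).toSubgroup i ≤ (MM j).toSubgroup :=
  (NN_mono (le_max_left i j)).trans ((MM_spec _).2.1.trans (MM_anti (by omega)))

def Ninf : Subgroup Phi :=
  Subgroup.normalClosure (⋃ i, (NN (MM i).toSubgroup i : Set Phi))

instance : Ninf.Normal := Subgroup.normalClosure_normal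

theorem NN_le_Ninf (i : ℕ) : NN (MM i).toSubgroup i ≤ Ninf := fun _ hx =>
  Subgroup.subset_normalClosure (Set.mem_iUnion.2 ⟨i, hx⟩)

theorem Ninf_le (j : ℕ) : Ninf ≤ (MM j).toSubgroup :=
  Subgroup.normalClosure_le_normal (Set.iUnion_subset (fun i => NN_le i j))

theorem HH_le_ker (i : ℕ) : HH fa ft i ≤ deg0.ker := by
  unfold HH
  rw [Subgroup.closure_le]
  rintro _ ⟨k, _, rfl⟩
  simp [bk, deg0, fa, ft]

theorem Ninf_le_ker : Ninf ≤ deg0.ker :=
  Subgroup.normalClosure_le_normal (Set.iUnion_subset (fun i =>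
    Subgroup.normalClosure_le_normal (fun _ hx => HH_le_ker (i + 1) hx.2)))

abbrev GG : Type := Phi ⧸ Ninf
def pr : Phi →* GG := QuotientGroup.mk' Ninf
def ga : GG := pr fa
def gt : GG := pr ft

theorem pr_surj : Function.Surjective pr := QuotientGroup.mk'_surjective Ninf
theorem pr_eq {x y : Phi} : pr x = pr y ↔ x⁻¹ * y ∈ Ninf := QuotientGroup.eq

def deg (g : GG) : ℤ := Multiplicative.toAdd (QuotientGroup.lift Ninf deg0 Ninf_le_ker g)

theorem deg_mul (x y : GG) : deg (x * y) = deg x + deg y := by simp [deg]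
theorem deg_pr (x : Phi) : deg (pr x) = Multiplicative.toAdd (deg0 x) := rfl
theorem deg_a : deg ga = 0 := by rw [ga, deg_pr]; simp [deg0, fa]
theorem deg_t : deg gt = 1 := by rw [gt, deg_pr]; simp [deg0, ft]

theorem closure_gg : Subgroup.closure ({ga, gt} : Set GG) = ⊤ := closure_map pr pr_surj

theorem finite_HH_gg (j : ℕ) : Finite (HH ga gt j) := by
  have : Finite (HH ga gt (j + 1)) := finite_HH pr (MM j).toSubgroup (j + 1) (fun x h1 h2 =>
    (QuotientGroup.eq_one_iff x).2 (NN_le_Ninf j (Subgroup.subset_normalClosure ⟨h1, h2⟩)))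
  exact Finite.of_injective _ (Subgroup.inclusion_injective (HH_mono _ _ (Nat.le_succ j)))

/-- the data of level `i`, seen in the limit group -/
theorem level (i : ℕ) : ∃ (D : ℕ) (c : GG → ZMod 2),
    (∀ g ∈ HH ga gt i, g ∈ Ball {ga, gt} D) ∧
    (∀ h ∈ HH ga gt (i + 1), ∀ g, c (h * g) = c g) ∧
    (∀ g ∈ Ball {ga, gt} (Rf i D), g ∉ HH ga gt i → c (gt * g) = c g) ∧ c gt ≠ c 1 := by
  obtain ⟨_, _, D, c, h1, h2, h3, h4, h5⟩ := MM_spec i
  have hc : ∀ w, c (pr w).out = c w := by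
    intro w
    have h6 : w⁻¹ * (pr w).out ∈ Ninf := pr_eq.1 (QuotientGroup.out_eq' (pr w)).symm
    have := h2 w _ (Ninf_le (i + 1) h6)
    simpa using this
  have hm : ∀ s ∈ ({fa, ft} : Set Phi), pr s ∈ ({ga, gt} : Set GG) := by
    intro s hs
    rcases hs with h | h
    · rw [h]; simp [ga]
    · rw [Set.mem_singleton_iff.1 h]; simp [gt]
  refine ⟨D, fun g => c g.out, ?_, ?_, ?_, ?_⟩
  · intro g hg
    rw [ga, gt, ← map_HH] at hg
    obtain ⟨h, hh, rfl⟩ := hg
    obtain ⟨w, hw, hw2⟩ := h1 h hh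
    rw [← pr_eq.2 (NN_le_Ninf i hw2)]
    exact map_mem_ball pr hm hw
  · intro h hh g
    rw [ga, gt, ← map_HH] at hh
    obtain ⟨h, hh, rfl⟩ := hh
    obtain ⟨w, rfl⟩ := pr_surj g
    simp only [← map_mul, hc]
    exact h3 h hh w
  · intro g hg hg2
    obtain ⟨w, hw, rfl⟩ := exists_lift_ball pr (S := {fa, ft}) (by
      intro s hs
      rcases hs with h7 | h7
      · exact ⟨fa, by simp, h7.symm⟩
      · exact ⟨ft, by simp, (Set.mem_singleton_iff.1 h7).symm⟩) hg
    simp only [gt, ← map_mul, hc]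
    refine h4 w hw (fun h hh h6 => hg2 ?_)
    rw [ga, gt, ← map_HH]
    exact ⟨h, hh, pr_eq.2 (NN_le_Ninf i h6)⟩
  · have : (1 : GG) = pr 1 := rfl
    simp only [gt, this, hc]
    exact h5

theorem deg_HH (i : ℕ) (g : GG) (hg : g ∈ HH ga gt i) : deg g = 0 := by
  rw [ga, gt, ← map_HH] at hg
  obtain ⟨h, hh, rfl⟩ := hg
  rw [deg_pr, MonoidHom.mem_ker.1 (HH_le_ker i hh)]
  rfl

theorem localSplit (m : ℕ) : Nonempty (LocalSplit ga gt deg m) := by
  obtain ⟨D, c, h1, h2, h3, h4⟩ := level m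
  refine ⟨⟨D, HH ga gt m, fun g => c g⁻¹, h1, deg_HH m, fun g => ?_, fun g hg hg2 => ?_, ?_⟩⟩
  · rw [mul_inv_rev]
    refine h2 _ (Subgroup.inv_mem _ ?_) _
    simpa [bk_zero] using bk_mem ga gt (k := 0) (i := m + 1) (by omega)
  · rw [mul_inv_rev, inv_inv]
    exact h3 _ (inv_mem_ball hg) (fun h => hg2 (by simpa using h))
  · simpa using h4

theorem bk_notMem (i : ℕ) : bk ga gt i ∉ HH ga gt i := by
  induction i with
  | zero =>
    intro h
    have h1 : HH ga gt 0 = ⊥ := by simp [HH]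
    rw [h1, bk_zero, Subgroup.mem_bot] at h
    have h2 : fa ∈ (MM 0).toSubgroup := Ninf_le 0 ((QuotientGroup.eq_one_iff fa).1 h)
    have h3 : sgn0 fa = 1 := h2
    simp [sgn0, fa] at h3
  | succ i ih =>
    intro h
    obtain ⟨D, c, _, h2, h3, h4⟩ := level i
    have h5 := h3 _ (ball_mono (by unfold Rf; omega) (bk_mem_ball ga gt i)) ih
    have h6 := h2 _ (bk_mem ga gt (Nat.lt_succ_self i)) 1
    have h7 := h2 _ h gt
    rw [bk_succ] at h7
    simp only [mul_one, inv_mul_cancel_right] at h6 h7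
    exact h4 (by rw [← h7, h5, h6])

theorem conj_injective : Function.Injective (fun k : ℤ => gt ^ k * ga * (gt ^ k)⁻¹) := by
  have key : ∀ k l : ℤ, k < l → gt ^ k * ga * (gt ^ k)⁻¹ ≠ gt ^ l * ga * (gt ^ l)⁻¹ := by
    intro k l hkl h
    obtain ⟨d, hd⟩ := Int.eq_ofNat_of_zero_le (show 0 ≤ l - k by omega)
    have h1 : bk ga gt d = ga := by
      unfold bk
      rw [← zpow_natCast, ← hd]
      calc gt ^ (l - k) * ga * (gt ^ (l - k))⁻¹
          = (gt ^ k)⁻¹ * (gt ^ l * ga * (gt ^ l)⁻¹) * gt ^ k := by group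
        _ = ga := by rw [← h]; group
    apply bk_notMem d
    rw [h1]
    simpa [bk_zero] using bk_mem ga gt (k := 0) (i := d) (by omega)
  intro k l h
  rcases lt_trichotomy k l with h1 | h1 | h1
  · exact absurd h (key k l h1)
  · exact h1
  · exact absurd h.symm (key l k h1)

theorem conj_pow_mem {i : ℕ} {h : GG} (hh : h ∈ HH ga gt i) (k : ℕ) :
    gt ^ k * h * (gt ^ k)⁻¹ ∈ HH ga gt (i + k) := by
  induction k with
  | zero => simpa using hh
  | succ k ih =>
    have := conj_mem_HH ga gt ih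
    rw [pow_succ']
    simpa [mul_assoc, add_assoc] using this

theorem torsion (g : GG) (hg : deg g = 0) : IsOfFinOrder g := by
  have key : ∀ g : GG, ∃ i j : ℕ, gt ^ i * (g * gt ^ (- deg g)) * (gt ^ i)⁻¹ ∈ HH ga gt j := by
    intro g
    have hg : g ∈ Subgroup.closure ({ga, gt} : Set GG) := by rw [closure_gg]; trivial
    have shift : ∀ (x : GG) (e : ℤ), (∃ i j : ℕ, gt ^ i * x * (gt ^ i)⁻¹ ∈ HH ga gt j) →
        ∃ i j : ℕ, gt ^ i * (gt ^ e * x * (gt ^ e)⁻¹) * (gt ^ i)⁻¹ ∈ HH ga gt j := by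
      rintro x e ⟨i, j, h⟩
      rcases Int.eq_nat_or_neg e with ⟨k, rfl | rfl⟩
      · refine ⟨i, j + k, ?_⟩
        have := conj_pow_mem h k
        convert this using 1
        rw [zpow_natCast]; group
      · refine ⟨i + k, j, ?_⟩
        convert h using 1
        rw [zpow_neg, zpow_natCast]; group
    have mul : ∀ x y : GG, (∃ i j : ℕ, gt ^ i * x * (gt ^ i)⁻¹ ∈ HH ga gt j) →
        (∃ i j : ℕ, gt ^ i * y * (gt ^ i)⁻¹ ∈ HH ga gt j) →
        ∃ i j : ℕ, gt ^ i * (x * y) * (gt ^ i)⁻¹ ∈ HH ga gt j := by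
      rintro x y ⟨i, j, h⟩ ⟨i', j', h'⟩
      refine ⟨i + i', j + i' + (j' + i), ?_⟩
      have h1 := HH_mono ga gt (Nat.le_add_right (j + i') (j' + i)) (conj_pow_mem h i')
      have h2 := HH_mono ga gt (Nat.le_add_left (j' + i) (j + i')) (conj_pow_mem h' i)
      convert (HH ga gt _).mul_mem h1 h2 using 1
      group
    induction hg using Subgroup.closure_induction with
    | mem x hx =>
      rcases hx with h | h
      · refine ⟨0, 1, ?_⟩
        rw [h, deg_a]
        simpa [bk_zero] using bk_mem ga gt (k := 0) (i := 1) (by omega)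
      · refine ⟨0, 0, ?_⟩
        rw [Set.mem_singleton_iff.1 h, deg_t]
        simp
    | one => exact ⟨0, 0, by simp [p_one deg_mul]⟩
    | mul x y _ _ hx hy =>
      have := mul _ _ hx (shift _ (deg x) hy)
      convert this using 6
      rw [deg_mul]; group
    | inv x _ hx =>
      obtain ⟨i, j, h⟩ := shift _ (- deg x) hx
      refine ⟨i, j, ?_⟩
      convert (HH ga gt j).inv_mem h using 1
      rw [p_inv deg_mul]; group
  obtain ⟨i, j, h⟩ := key g
  rw [hg] at h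
  have := finite_HH_gg j
  have h1 : IsOfFinOrder (⟨_, h⟩ : HH ga gt j) := isOfFinOrder_of_finite _
  have h2 := (HH ga gt j).subtype.isOfFinOrder h1
  have h3 := (MulAut.conj (gt ^ i)⁻¹).toMonoidHom.isOfFinOrder h2
  convert h3 using 1
  change g = (gt ^ i)⁻¹ * (gt ^ i * (g * gt ^ (-0 : ℤ)) * (gt ^ i)⁻¹) * (gt ^ i)⁻¹⁻¹
  group

theorem main : ∃ (G : Type) (_ : Group G), Group.FG G ∧
    ∀ S : Finset G, Subgroup.closure (S : Set G) = ⊤ → OneEnded S ∧ ¬ ConnectedSpheres S := by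
  classical
  refine ⟨GG, inferInstance, ⟨⟨{ga, gt}, by simpa using closure_gg⟩⟩, fun S hS => ⟨?_, ?_⟩⟩
  · exact oneEnded_of hS ga gt deg_mul deg_a deg_t torsion conj_injective
  · exact not_connectedSpheres hS ga gt closure_gg deg_mul deg_a deg_t localSplit

end Pool.Agent.P.MP_ed39a4_al
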