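import Mathlib
import Pool.Agent.P.MP_ed39a4_al.Lower

set_option autoImplicit false

namespace Pool.Agent.P.MP_ed39a4_al.RD

open Pool.Agent.P.MP_ed39a4_al

variable {d : ℤ → F}

theorem pk_finite (hd0 : ∀ n ≤ 0, d n = 0) (B : ℤ) (M m : ℕ) (Y : ℤ) :
    {y : W d | Pk B M m y ∧ |y.p| ≤ Y}.Finite := by
  let I := Set.Icc (-B - M) (B + m)
  let f : W d → (I → F) × (I → I → F) × ℤ := fun y => (fun x => y.u x, fun x z => y.τ x z, y.p)
  refine Set.Finite.of_finite_image (f := f) ?_ ?_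
  · refine ((Set.finite_univ (α := I → F)).prod ((Set.finite_univ (α := I → I → F)).prod
      (Set.finite_Icc (-Y) Y))).subset ?_
    rintro _ ⟨y, hy, rfl⟩
    exact ⟨trivial, trivial, abs_le.1 hy.2⟩
  · intro y hy y' hy' h
    simp only [f, Prod.mk.injEq] at h
    obtain ⟨h1, h2, h3⟩ := h
    ext x z
    · by_cases hx : x ∈ I
      · exact congrFun h1 ⟨x, hx⟩
      · have e : ∀ w : W d, Pk B M m w → w.u x = 0 := fun w hw => by
          by_contra h
          have := hw.u x h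
          exact hx ⟨this.1, this.2.le⟩
        rw [e y hy.1, e y' hy'.1]
    · by_cases hx : x ∈ I ∧ z ∈ I
      · exact congrFun (congrFun h2 ⟨x, hx.1⟩) ⟨z, hx.2⟩
      · have e : ∀ w : W d, Pk B M m w → w.τ x z = 0 := fun w hw => by
          by_contra h
          obtain ⟨h4, h5, h6⟩ := hw.τ x z h
          have h7 : 0 < z - x := by
            by_contra h
            exact h6 (hd0 _ (by omega))
          exact hx ⟨⟨h4, by omega⟩, ⟨by omega, by omega⟩⟩
        rw [e y hy.1, e y' hy'.1]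
    · exact h3

theorem step (r c v D : ℕ) (hv1 : 1 ≤ v) (hvc : v ≤ c) : ∃ k M Λ : ℕ, r < k ∧ k + M ≤ Λ ∧
    ∀ (d : ℤ → F) (S : Set (W d)), (∀ n ≤ 0, d n = 0) →
      (∀ n : ℤ, r < n → n ≤ Λ → d n ≠ 0 → k ≤ n ∧ n ≤ k + M) →
      (∀ n : ℤ, k ≤ n → n ≤ k + M → d n = 1) → (∀ x, Letter S x → Small c x) →
      (∀ s ∈ std d, s ∈ Ball S c) → (∀ x, Letter S x → |x.p| ≤ v) →
      ∀ g, Letter S g → g.p = v →
      ∃ (P : Set (W d)) (n0 : ℕ) (g0 : W d), P.Finite ∧ g0 ∈ P ∧ (∃ n, g0 ∈ Ball S n) ∧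
        g0 ∉ Ball S (n0 + D) ∧ ∀ y ∈ P, y ∉ Ball S n0 → ∀ x, Letter S x → y * x ∈ P := by
  obtain ⟨C1, hC1⟩ : ∃ C1, C1 = c * (2 * (c + 1) * (KK r + 1)) := ⟨_, rfl⟩
  obtain ⟨M, hM⟩ : ∃ M, M = C1 + 3 := ⟨_, rfl⟩
  obtain ⟨sm, hsm⟩ : ∃ sm, sm = C1 + 4 + 4 * M + 3 := ⟨_, rfl⟩
  obtain ⟨Θ, hΘ⟩ : ∃ Θ, Θ = 2 * sm * Th r c M + c * c + D := ⟨_, rfl⟩
  obtain ⟨N, hN⟩ : ∃ N, N = (4 * M + 2) * c + M * Θ + Θ + 2 * c + M + 1 + r := ⟨_, rfl⟩
  obtain ⟨X, hX⟩ : ∃ X, X = v * N := ⟨_, rfl⟩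
  obtain ⟨nm, hnm⟩ : ∃ nm, nm = (C1 + 4 + 4 * M) * N := ⟨_, rfl⟩
  have hNX : N ≤ X := by rw [hX]; exact Nat.le_mul_of_pos_left N hv1
  have hN1 : Θ + 2 * c + M + 1 + r ≤ N := by omega
  refine ⟨2 * (X + c + M + 1) + M, M, c * (nm + 4 * N) + c + 2 * (X + c + M + 1) + 4 * M,
    by omega, by omega, ?_⟩
  intro d S d0 d1 d2 hsmall hgen hv g hg hgv
  obtain ⟨B, hB⟩ : ∃ B : ℤ, B = X + c + M + 1 := ⟨_, rfl⟩
  obtain ⟨Λ, hΛ⟩ : ∃ Λ, Λ = c * (nm + 4 * N) + c + 2 * (X + c + M + 1) + 4 * M := ⟨_, rfl⟩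
  rw [← hΛ] at d1
  have G : Geo d S r c X M Λ B := by
    refine ⟨hB, d0, fun n h1 h2 h3 => ?_, fun n h1 h2 => d2 n ?_ ?_, hsmall, hgen, by omega, ?_⟩
    · have := d1 n h1 h2 h3
      push_cast at this
      omega
    · push_cast; omega
    · push_cast; omega
    · rw [hΛ]; push_cast
      have : (0 : ℤ) ≤ c * (nm + 4 * N) := by positivity
      omega
  have hΛ' : ∀ n : ℕ, n ≤ nm + 4 * N → (c : ℤ) * n + c + B + 2 * M ≤ Λ := by
    intro n hn
    have h1 : c * n ≤ c * (nm + 4 * N) := Nat.mul_le_mul_left c hn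
    rw [hΛ]
    zify at h1
    push_cast
    omega
  have h0 : Good S r c X M B 2 ((C1 + 4) * N) := by
    refine (((good_zero G).succ hg hgv hX).succ hg hgv hX).mono ?_
    have h1 : 2 * (X + c + M) + 1 ≤ 2 * (c + 1) * N := by
      have : X ≤ c * N := by rw [hX]; exact Nat.mul_le_mul_right N hvc
      have e : 2 * (c + 1) * N = 2 * (c * N) + 2 * N := by ring
      omega
    have h2 := Nat.mul_le_mul_left c (Nat.mul_le_mul_right (KK r + 1) h1)
    have h3 : c * (2 * (c + 1) * N * (KK r + 1)) = C1 * N := by rw [hC1]; ring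
    rw [add_mul C1]
    omega
  have hfin : ¬ Good S r c X M B (2 * M + 2) ((C1 + 4) * N + M * (3 * N + Θ)) := by
    intro h
    obtain ⟨θ, s, n', q, h1, h2, h3, _⟩ := h 1 ⟨rfl, by simp, by simp⟩
    have h4 := (h3.travel hv G.cX).2
    simp only [Bool.false_eq_true, if_false] at h4
    have h5 : ((2 * M + 1 : ℕ) : ℤ) * (2 * X - 2 * c) ≤ (s - 1) * (2 * X - 2 * c) :=
      mul_le_mul_of_nonneg_right (by push_cast; omega) (by omega)
    have h6 : (v : ℤ) * (2 * N - 2 * c) ≤ 2 * X - 2 * c := by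
      have : (c : ℤ) ≤ v * c := le_mul_of_one_le_left (by positivity) (by omega)
      rw [hX]; push_cast; linarith
    have h7 : (v : ℤ) * ((2 * M + 1) * (2 * N - 2 * c)) ≤ v * n' := by
      have := mul_le_mul_of_nonneg_left h6 (show (0 : ℤ) ≤ 2 * M + 1 by positivity)
      push_cast at h5
      rw [mul_left_comm]
      linarith
    have h8 := le_of_mul_le_mul_left h7 (by omega)
    zify at h2 hN hM
    have h9 : (C1 : ℤ) = M - 3 := by omega
    rw [h9] at h2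
    have : (0 : ℤ) ≤ Θ := by positivity
    have : (0 : ℤ) ≤ c := by positivity
    have : (0 : ℤ) ≤ M := by positivity
    have : (0 : ℤ) ≤ r := by positivity
    linarith
  obtain ⟨j, hj, hj1, hj2⟩ : ∃ j < M, Good S r c X M B (2 * j + 2) ((C1 + 4) * N + j * (3 * N + Θ))
      ∧ ¬ Good S r c X M B (2 * (j + 1) + 2) ((C1 + 4) * N + (j + 1) * (3 * N + Θ)) := by
    by_contra hcon
    push Not at hcon
    have : ∀ j ≤ M, Good S r c X M B (2 * j + 2) ((C1 + 4) * N + j * (3 * N + Θ)) := by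
      intro j hj
      induction j with
      | zero => simpa using h0
      | succ j ih => exact hcon j (by omega) (ih (by omega))
    exact hfin (this M le_rfl)
  obtain ⟨n, hn⟩ : ∃ n, n = (C1 + 4) * N + j * (3 * N + Θ) := ⟨_, rfl⟩
  have hn2 : (C1 + 4) * N + (j + 1) * (3 * N + Θ) = n + 3 * N + Θ := by rw [hn]; ring
  rw [hn2] at hj2
  rw [← hn] at hj1
  have hnn : n ≤ nm := by
    have : j * (3 * N + Θ) ≤ M * (4 * N) := Nat.mul_le_mul hj.le (by omega)
    have e : (C1 + 4 + 4 * M) * N = (C1 + 4) * N + M * (4 * N) := by ring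
    rw [hn, hnm, e]; omega
  have hsm' : ∀ θ s n' q, Sw S X c θ false s n' q → n' ≤ n → s + 2 ≤ sm := by
    intro θ s n' q h1 h2
    have h4 := (h1.travel hv G.cX).2
    simp only [Bool.false_eq_true, if_false] at h4
    by_contra h5
    have h6 : ((C1 + 4 + 4 * M + 1 : ℕ) : ℤ) * X ≤ (s - 1) * (2 * X - 2 * c) :=
      mul_le_mul (by push_cast; omega) (by omega) (by positivity) (by omega)
    have h7 : v * n' ≤ (C1 + 4 + 4 * M) * X := by
      have := Nat.mul_le_mul_left v (h2.trans hnn)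
      rw [hnm, mul_left_comm] at this
      rw [hX]; exact this
    zify at h7
    push_cast at h6
    have : (0 : ℤ) < X := by omega
    rw [add_mul, one_mul] at h6
    omega
  obtain ⟨g0, h, h1, h2, h3, h4, h5⟩ := deep G (m := j + 1) (by omega) (by omega) hj2
  refine ⟨{y | Pk B M (j + 1) y ∧ |y.p| ≤ X + c}, n + 3 * N + 2 * sm * Th r c M + c * c, g0,
    pk_finite d0 _ _ _ _, ⟨h3, by rw [h4]; positivity⟩, ?_, ?_, ?_⟩
  · obtain ⟨θ, s, n', q, a1, a2, a3, a4⟩ := hj1 h h1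
    exact ⟨_, upper G ((a3.prepend hg hgv hX).prepend hg hgv hX) (hΛ' _ (by omega)) (by omega)
      (by omega) h3 (a4.trans h2)⟩
  · have e : n + 3 * N + 2 * sm * Th r c M + c * c + D = n + 3 * N + Θ := by rw [hΘ]; ring
    rw [e]; exact h5
  · rintro y ⟨a1, a2⟩ a3 x hx
    have a4 : |y.p| ≤ X := by
      by_contra a4
      exact a3 (rim hg hgv hX G (m := j + 1) (by omega) hj1 hsm'
        (by have := hΛ' (n + 3 * N) (by omega); push_cast at this; exact this) a1 (by omega) a2)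
    refine ⟨a1.letter G hx a4, ?_⟩
    have := abs_add_le y.p x.p
    have := (hsmall x hx).1
    rw [mul_p]
    omega

end Pool.Agent.P.MP_ed39a4_al.RD
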