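import Mathlib
import Pool.Agent.P.MP_ed39a4_al.Defs2
import Pool.Agent.P.MP_ed39a4_al.Pocket

set_option autoImplicit false

namespace Pool.Agent.P.MP_ed39a4_al.RD

open Pool.Agent.P.MP_ed39a4_al SimpleGraph

theorem deadEnd_of_pocket {G : Type} [Group G] {S : Finset G}
    (hS : Subgroup.closure (S : Set G) = ⊤) {P : Set G} (hP : P.Finite) {n0 D : ℕ} {g0 : G}
    (h0 : g0 ∈ P) (h1 : g0 ∉ Ball (S : Set G) (n0 + D))
    (h2 : ∀ y ∈ P, y ∉ Ball (S : Set G) n0 → ∀ x, (x ∈ (S : Set G) ∨ x⁻¹ ∈ (S : Set G)) →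
      y * x ∈ P) :
    ∃ g, DeadEnd S g ∧ ∀ e ≤ D, ¬ InInfiniteComponent S (wordLength S g - e) g := by
  obtain ⟨g, hg, hmax⟩ := Set.exists_max_image P (wordLength S) hP ⟨g0, h0⟩
  rw [← wordLength_le_iff hS] at h1
  have h3 := hmax g0 h0
  have hadj : ∀ y ∈ P, n0 < wordLength S y → ∀ z, (mulCayley (S : Set G)).Adj y z → z ∈ P := by
    intro y hy h4 z h5
    rw [mulCayley_adj] at h5
    have := h2 y hy (by rw [← wordLength_le_iff hS]; omega) (y⁻¹ * z) (by simpa using h5.2)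
    simpa using this
  refine ⟨g, ?_, ?_⟩
  · rintro ⟨h, h4, h5⟩
    have := hmax h (hadj g hg (by omega) h h4)
    omega
  · rintro e he ⟨C, ⟨hgK, rfl⟩, h5⟩
    refine h5 (hP.subset ?_)
    rintro y ⟨hyK, h6⟩
    have h7 : ((mulCayley (S : Set G)).induce
        {h : G | wordLength S h < wordLength S g - e}ᶜ).Reachable ⟨g, hgK⟩ ⟨y, hyK⟩ :=
      ConnectedComponent.exact h6.symm
    obtain ⟨w⟩ := h7
    have key : ∀ (a b : ({h : G | wordLength S h < wordLength S g - e}ᶜ : Set G))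
        (_ : ((mulCayley (S : Set G)).induce
          {h : G | wordLength S h < wordLength S g - e}ᶜ).Walk a b), a.1 ∈ P → b.1 ∈ P := by
      intro a b w
      induction w with
      | nil => exact id
      | @cons a a' b h _ ih =>
        intro ha
        refine ih (hadj a ha ?_ a' h)
        have := a.2
        simp only [Set.mem_compl_iff, Set.mem_ofPred_eq] at this
        omega
    exact key _ _ w hg

/-- the conclusion of the step lemma -/
def StepConcl (d : ℤ → F) (c v D : ℕ) : Prop :=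
  ∀ S : Set (W d), (∀ x, Letter S x → Small c x) →
      (∀ s ∈ std d, s ∈ Ball S c) → (∀ x, Letter S x → |x.p| ≤ v) →
      ∀ g, Letter S g → g.p = v →
      ∃ (P : Set (W d)) (n0 : ℕ) (g0 : W d), P.Finite ∧ g0 ∈ P ∧ (∃ n, g0 ∈ Ball S n) ∧
        g0 ∉ Ball S (n0 + D) ∧ ∀ y ∈ P, y ∉ Ball S n0 → ∀ x, Letter S x → y * x ∈ P

theorem exists_d : ∃ d : ℤ → F, (∀ n ≤ 0, d n = 0) ∧
    ∀ c v D : ℕ, 1 ≤ v → v ≤ c → StepConcl d c v D := by
  classical
  have h1 : ∀ (r : ℕ) (t : ℕ × ℕ × ℕ), ∃ k M Λ : ℕ, r < k ∧ k + M ≤ Λ ∧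
      (1 ≤ t.2.1 → t.2.1 ≤ t.1 → ∀ d : ℤ → F, (∀ n ≤ 0, d n = 0) →
      (∀ n : ℤ, r < n → n ≤ Λ → d n ≠ 0 → k ≤ n ∧ n ≤ k + M) →
      (∀ n : ℤ, k ≤ n → n ≤ k + M → d n = 1) → StepConcl d t.1 t.2.1 t.2.2) := by
    rintro r ⟨c, v, D⟩
    by_cases h : 1 ≤ v ∧ v ≤ c
    · obtain ⟨k, M, Λ, h1, h2, h3⟩ := step r c v D h.1 h.2
      exact ⟨k, M, Λ, h1, h2, fun _ _ d a1 a2 a3 S => h3 d S a1 a2 a3⟩
    · exact ⟨r + 1, 0, r + 1, by omega, by omega, fun a b => absurd ⟨a, b⟩ h⟩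
  choose k M Λ hk hΛ hstep using h1
  obtain ⟨e, he⟩ := exists_surjective_nat (ℕ × ℕ × ℕ)
  let rr : ℕ → ℕ := fun i => Nat.rec 0 (fun i r => Λ r (e i)) i
  have hrr : ∀ i, rr (i + 1) = Λ (rr i) (e i) := fun _ => rfl
  have hmono : Monotone rr := monotone_nat_of_le_succ (fun i => by
    have := hk (rr i) (e i)
    have := hΛ (rr i) (e i)
    rw [hrr]; omega)
  have hd0 : ∀ n : ℤ, n ≤ 0 → (if ∃ i, (k (rr i) (e i) : ℤ) ≤ n ∧
      n ≤ k (rr i) (e i) + M (rr i) (e i) then (1 : F) else 0) = 0 := by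
    intro n hn
    rw [if_neg]
    rintro ⟨i, h1, _⟩
    have := hk (rr i) (e i)
    omega
  refine ⟨fun n => if ∃ i, (k (rr i) (e i) : ℤ) ≤ n ∧ n ≤ k (rr i) (e i) + M (rr i) (e i) then 1
    else 0, hd0, fun c v D hv hvc => ?_⟩
  obtain ⟨i, hi⟩ := he (c, v, D)
  have := hstep (rr i) (e i) (by rw [hi]; exact hv) (by rw [hi]; exact hvc) _ hd0
    (fun n h1 h2 h3 => ?_) (fun n h1 h2 => if_pos ⟨i, h1, h2⟩)
  · rw [hi] at this
    exact this
  · have h4 : ∃ i, (k (rr i) (e i) : ℤ) ≤ n ∧ n ≤ k (rr i) (e i) + M (rr i) (e i) := by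
      by_contra h
      exact h3 (if_neg h)
    obtain ⟨j, h5, h6⟩ := h4
    have h7 := hk (rr j) (e j)
    have h8 := hΛ (rr j) (e j)
    rw [← hrr] at h2 h8
    rcases lt_trichotomy i j with h | h | h
    · have := hmono (show i + 1 ≤ j from h)
      omega
    · subst h; exact ⟨h5, h6⟩
    · have := hmono (show j + 1 ≤ i from h)
      omega

theorem main : ∃ (G : Type) (_ : Group G), Group.FG G ∧
    ∀ S : Finset G, Subgroup.closure (S : Set G) = ⊤ →
      OneEnded S ∧ ¬ BoundedRetreatDepth S := by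
  obtain ⟨d, hd0, hd⟩ := exists_d
  let H := Subgroup.closure (std d)
  have hfin : (std d).Finite := by unfold std; exact Set.toFinite _
  let a : H := ⟨ga d, Subgroup.subset_closure (by simp [std])⟩
  let t : H := ⟨sh d 1, Subgroup.subset_closure (by simp [std])⟩
  have hFG : Group.FG H := by
    rw [Group.fg_iff_subgroup_fg, Subgroup.fg_iff]
    exact ⟨std d, rfl, hfin⟩
  refine ⟨H, inferInstance, hFG, fun S hS => ⟨?_, ?_⟩⟩
  · refine oneEnded_of hS a t (p := fun g : H => g.1.p) (fun _ _ => rfl) rfl rfl ?_ ?_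
    · intro g hg
      rw [isOfFinOrder_iff_pow_eq_one]
      refine ⟨4, by norm_num, Subtype.ext ?_⟩
      have hg' : g.1.p = 0 := hg
      rw [show (4 : ℕ) = 1 + 1 + 1 + 1 from rfl]
      simp only [pow_succ, pow_zero, one_mul, Subgroup.coe_mul, Subgroup.coe_one]
      ext x z
      · simp only [mul_u, mul_p, hg', add_zero, sub_zero, one_u]; grind
      · simp only [mul_u, mul_τ, mul_p, hg', add_zero, sub_zero, one_τ]; grind
      · simp [hg']
    · intro i j hij
      have h1 := congrArg (fun g : H => g.1.u i) hij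
      simp [t, a, sh_zpow] at h1
      omega
  · rintro ⟨D, hD⟩
    let S' : Set (W d) := H.subtype '' (S : Set H)
    have hmap : ∀ {n : ℕ} {y : H}, y ∈ Ball (S : Set H) n → y.1 ∈ Ball S' n := fun hy =>
      map_mem_ball H.subtype (S' := S') (fun s hs => Set.mem_image_of_mem _ hs) hy
    have hlift : ∀ {n : ℕ} {y : W d}, y ∈ Ball S' n → ∃ w ∈ Ball (S : Set H) n, w.1 = y :=
      fun hy => exists_lift_ball H.subtype (fun s hs => hs) hy
    have hS'fin : S'.Finite := S.finite_toSet.image _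
    have h1 : ∀ y : H, ∃ n, y.1 ∈ Ball (std d) n := fun y => exists_ball y.2
    choose f hf using h1
    obtain ⟨c1, hc1⟩ := (S.finite_toSet.image f).bddAbove
    obtain ⟨c2, hc2⟩ := finite_subset_ball hS (Set.toFinite {a, t})
    have hsmall : ∀ x, Letter S' x → Small (c1 + c2) x := by
      have : ∀ x ∈ S', x ∈ Ball (std d) (c1 + c2) := by
        rintro _ ⟨s, hs, rfl⟩
        exact ball_mono ((hc1 ⟨s, hs, rfl⟩).trans (by omega)) (hf s)
      rintro x (hx | hx)
      · exact small_of_ball hd0 (this x hx)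
      · exact small_of_ball hd0 (by simpa using inv_mem_ball (this _ hx))
    have hgen : ∀ s ∈ std d, s ∈ Ball S' (c1 + c2) := by
      rintro s (rfl | rfl)
      · exact ball_mono (by omega) (hmap (hc2 a (by simp)))
      · exact ball_mono (by omega) (hmap (hc2 t (by simp)))
    have hpb : ∀ C : ℕ, (∀ s ∈ S', |s.p| ≤ C) → 1 ≤ C := by
      intro C hC
      have := p_ball (p := fun q : W d => q.p) (fun _ _ => rfl) hC (hgen (sh d 1) (by simp [std]))
      by_contra h
      have h0 : C = 0 := by omega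
      subst h0
      simp at this
    have hne : S'.Nonempty := by
      by_contra h
      have := hpb 0 (fun s hs => absurd ⟨s, hs⟩ h)
      omega
    obtain ⟨g, hg, hmax⟩ := Set.exists_max_image S' (fun s => s.p.natAbs) hS'fin hne
    have hv : ∀ s ∈ S', |s.p| ≤ (g.p.natAbs : ℤ) := fun s hs => by
      have := hmax s hs
      rw [Int.abs_eq_natAbs]
      exact_mod_cast this
    have hv' : ∀ x, Letter S' x → |x.p| ≤ (g.p.natAbs : ℤ) := by
      rintro x (hx | hx)
      · exact hv x hx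
      · simpa using hv _ hx
    obtain ⟨g', hg', hgv⟩ : ∃ g', Letter S' g' ∧ g'.p = (g.p.natAbs : ℤ) := by
      rcases le_or_gt 0 g.p with h | h
      · exact ⟨g, Or.inl hg, by omega⟩
      · exact ⟨g⁻¹, Or.inr (by simpa using hg), by simp only [inv_p]; omega⟩
    have hvc : g.p.natAbs ≤ c1 + c2 := by
      have := (hsmall g (Or.inl hg)).1
      rw [Int.abs_eq_natAbs] at this
      exact_mod_cast this
    obtain ⟨P, n0, g0, a1, a2, ⟨n, a3⟩, a4, a5⟩ :=
      hd (c1 + c2) g.p.natAbs D (hpb _ hv) hvc S' hsmall hgen hv' g' hg' hgv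
    obtain ⟨w, _, rfl⟩ := hlift a3
    obtain ⟨y, b1, b2⟩ := deadEnd_of_pocket hS (P := Subtype.val ⁻¹' P)
      (a1.preimage Subtype.val_injective.injOn) (n0 := n0) (D := D) (g0 := w) a2
      (fun h => a4 (hmap h)) (fun y hy h x hx => by
        refine a5 y.1 hy (fun h' => ?_) x.1 ?_
        · obtain ⟨w', h2, h3⟩ := hlift h'
          rw [Subtype.ext h3] at h2
          exact h h2
        · rcases hx with hx | hx
          · exact Or.inl ⟨x, hx, rfl⟩
          · exact Or.inr ⟨x⁻¹, hx, rfl⟩)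
    obtain ⟨e, h2, h3⟩ := hD y b1
    exact b2 e h2 h3

end Pool.Agent.P.MP_ed39a4_al.RD
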